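import Mathlib
import Pool.Agent.Helper97.BG.Defs
import Pool.Agent.Helper97.BG.Stmt2

/-!
# Project HD (MP_8410f8_pr): the thresholds of `χ > k`, `2 ≤ k ≤ d`, in high dimension

Definitions. Euclidean part: cones and shells in `ℝ^d`. Spherical part: the chart `ch U` (central
projection of the tangent plane), the big shell `Sb`, the small shell `Ss`, bad centres.
-/

open MeasureTheory Set
open scoped ENNReal

namespace Pool.Agent.Helper6.HD

open Pool.Agent.Helper97.BG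

/-- Euclidean space of dimension `d`. -/
abbrev Eu (d : ℕ) := EuclideanSpace ℝ (Fin d)

/-- The volume of the unit ball of `ℝ^d`. -/
noncomputable def vb (d : ℕ) : ℝ := (volume (Metric.ball (0 : Eu d) 1)).toReal

/-- The area of `S^d`. -/
noncomputable def area (d : ℕ) : ℝ := (d + 1) * vb (d + 1)

/-- `α = s * rho d * n^(-1/d)` has mean degree tending to `s^d`. -/
noncomputable def rho (d : ℕ) : ℝ := (area d / vb d) ^ ((1 : ℝ) / d)

/-- The part in the ball of radius `R` of the cone of half-angle `θ` around `x`. -/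
def cone {d : ℕ} (R : ℝ) (x : Eu d) (θ : ℝ) : Set (Eu d) :=
  {y | ‖y‖ ≤ R ∧ InnerProductGeometry.angle x y ≤ θ}

/-- The shell. -/
def shell (d : ℕ) (R φ : ℝ) : Set (Eu d) := {u | (1 - φ ^ 2) * R ≤ ‖u‖ ∧ ‖u‖ ≤ R}

/-- The measure of the pairs of `N`-tuples without an edge between them. -/
noncomputable def Lam {S : Type*} [MeasurableSpace S] (ν : Measure S) (N : ℕ)
    (adj : S → S → Prop) : ℝ≥0∞ :=
  ∫⁻ x : Fin N → S, ∫⁻ y : Fin N → S, ind (∀ i j, ¬ adj (x i) (y j))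
    ∂(Measure.pi fun _ => ν) ∂(Measure.pi fun _ => ν)

/-- The constant `δ`. -/
noncomputable def dl (k : ℕ) : ℝ := Real.exp (-3) / (65536 * (k : ℝ) ^ 2)

/-- The constant `η = δ² / 4`. -/
noncomputable def et (k : ℕ) : ℝ := dl k ^ 2 / 4

/-- The pole of `S^d`. -/
noncomputable def pole (d : ℕ) : V d := EuclideanSpace.single 0 1

/-- The point `(s, s u)` of `ℝ × ℝ^d = V d`. -/
noncomputable def lift {d : ℕ} (u : Eu d) : V d := WithLp.toLp 2 (Fin.cons 1 fun i => u i)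

theorem lift_zero_coord {d : ℕ} (u : Eu d) : lift u 0 = 1 := rfl

theorem lift_succ {d : ℕ} (u : Eu d) (i : Fin d) : lift u i.succ = u i := rfl

theorem lift_ne {d : ℕ} (u : Eu d) : lift u ≠ 0 := by
  intro h
  have : lift u 0 = (0 : V d) 0 := by rw [h]
  rw [lift_zero_coord] at this
  simp at this

/-- The chart at `U (pole d)`: central projection of the tangent plane. -/
noncomputable def ch {d : ℕ} (U : V d ≃ₗᵢ[ℝ] V d) (u : Eu d) : Sph d :=
  ⟨(‖lift u‖)⁻¹ • U (lift u), by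
    have h : ‖lift u‖ ≠ 0 := norm_ne_zero_iff.2 (lift_ne u)
    simp [norm_smul, h]⟩

/-- The big shell around `z`. -/
def Sb {d : ℕ} (R φ : ℝ) (z : Sph d) : Set (Sph d) :=
  {x | (1 - φ ^ 2) * R ≤ ‖(x : V d) - z‖ ∧ ‖(x : V d) - z‖ ≤ (1 - R ^ 2) * R}

/-- The small shell around `z`. -/
def Ss {d : ℕ} (R φ : ℝ) (z : Sph d) : Set (Sph d) :=
  {x | (1 - φ ^ 2 / 2) * R ≤ ‖(x : V d) - z‖ ∧ ‖(x : V d) - z‖ ≤ (1 - 1 / d) * R}

/-- The radius of the net. -/
noncomputable def rh (d : ℕ) (R : ℝ) : ℝ := R / (4 * d)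

/-- There are `N` points of `A` in the big shell of `z` and `N` points in the opposite of it
without an edge between them (`x`, `y` are adjacent when `‖x + y‖ < a`). -/
def BadPair {d : ℕ} (a R φ : ℝ) (N : ℕ) (z : Sph d) (A : Set (Sph d)) : Prop :=
  ∃ I J : Set (Sph d), I ⊆ A ∧ J ⊆ A ∧ I.ncard = N ∧ J.ncard = N ∧ I ⊆ Sb R φ z ∧
    (∀ y ∈ J, -y ∈ Sb R φ z) ∧ ∀ x ∈ I, ∀ y ∈ J, a ≤ ‖(x : V d) + y‖

/-- The small shell of `z` has fewer than `K` points. -/
def Low {d : ℕ} (R φ : ℝ) (K : ℕ) (z : Sph d) (A : Set (Sph d)) : Prop :=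
  (A ∩ Ss R φ z).ncard < K

/-- `z` is bad for the configuration `A`. -/
def BadZ {d : ℕ} (a R φ : ℝ) (N k : ℕ) (z : Sph d) (A : Set (Sph d)) : Prop :=
  BadPair a R φ N z A ∨ Low R φ (k * N) z A

end Pool.Agent.Helper6.HD
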