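import Pool.Agent.Helper6.HD.Defs
import Pool.Agent.Helper40.EV.PL

/-!
# PIECE HD-E1: concentration in the ball
-/

open MeasureTheory Set
open scoped ENNReal

namespace Pool.Agent.Helper6.HD

/-- Brunn-Minkowski at `t = 1/2`: transfer of `Pool.H40.EV.brunn_minkowski_rpow` (with `t = 1/2`,
sets in `Fin d → ℝ`) to `EuclideanSpace` by `PiLp.volume_preserving_toLp` (or `ofLp`), then square. -/
theorem bm_half {d : ℕ} {A B C : Set (Eu d)} (hA : MeasurableSet A) (hB : MeasurableSet B)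
    (hC : MeasurableSet C) (h : ∀ a ∈ A, ∀ b ∈ B, (1 / 2 : ℝ) • a + (1 / 2 : ℝ) • b ∈ C) :
    volume A * volume B ≤ volume C ^ 2 := by
  have hp := PiLp.volume_preserving_toLp (Fin d)
  have hkey : ∀ a ∈ (WithLp.toLp 2 : (Fin d → ℝ) → Eu d) ⁻¹' A,
      ∀ b ∈ (WithLp.toLp 2 : (Fin d → ℝ) → Eu d) ⁻¹' B,
      (1 / 2 : ℝ) • a + (1 / 2 : ℝ) • b ∈ (WithLp.toLp 2 : (Fin d → ℝ) → Eu d) ⁻¹' C :=
    fun a ha b hb => h _ ha _ hb
  have h1 := Pool.H40.EV.brunn_minkowski_prod d (1 / 2) (by norm_num) (by norm_num)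
    ((WithLp.toLp 2 : (Fin d → ℝ) → Eu d) ⁻¹' A) ((WithLp.toLp 2 : (Fin d → ℝ) → Eu d) ⁻¹' B)
    ((WithLp.toLp 2 : (Fin d → ℝ) → Eu d) ⁻¹' C) ((WithLp.toLp 2 : (Fin d → ℝ) → Eu d) ⁻¹' C)
    (hp.measurable hA) (hp.measurable hB) (hp.measurable hC) (hp.measurable hC)
    (by
      intro a ha b hb
      have e : (1 - 1 / 2 : ℝ) = 1 / 2 := by norm_num
      rw [e]
      exact hkey a ha b hb)
    (by
      intro a ha b hb
      have e : (1 - 1 / 2 : ℝ) = 1 / 2 := by norm_num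
      rw [e]
      exact hkey a ha b hb)
  rw [hp.measure_preimage hA.nullMeasurableSet, hp.measure_preimage hB.nullMeasurableSet,
    hp.measure_preimage hC.nullMeasurableSet] at h1
  rwa [pow_two]

/-- `C` = closed ball of radius `R √(1 - r²/(4R²))`: parallelogram law
`‖(a + b)/2‖² = (‖a‖² + ‖b‖²)/2 - ‖a - b‖²/4 ≤ R² - r²/4`; the volume of a ball of radius `s` is
`s^d` times the volume of the unit ball (`Measure.addHaar_closedBall`), and
`(√(1 - r²/(4R²)) ^ d) ^ 2 = (1 - r²/(4R²)) ^ d`. -/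
theorem conc {d : ℕ} {R r : ℝ} (hR : 0 < R) (hr : 0 ≤ r) (hr2 : r ≤ 2 * R) {A B : Set (Eu d)}
    (hA : MeasurableSet A) (hB : MeasurableSet B) (hAR : A ⊆ Metric.closedBall 0 R)
    (hBR : B ⊆ Metric.closedBall 0 R) (hsep : ∀ a ∈ A, ∀ b ∈ B, r ≤ ‖a - b‖) :
    volume A * volume B ≤ ENNReal.ofReal ((1 - r ^ 2 / (4 * R ^ 2)) ^ d) *
      volume (Metric.closedBall (0 : Eu d) R) ^ 2 := by
  set q : ℝ := 1 - r ^ 2 / (4 * R ^ 2) with hq
  have hq0 : 0 ≤ q := by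
    rw [hq, sub_nonneg, div_le_one (by positivity)]
    nlinarith
  set s : ℝ := R * Real.sqrt q with hs
  have hs0 : 0 ≤ s := by positivity
  have hs2 : s ^ 2 = R ^ 2 * q := by
    rw [hs, mul_pow, Real.sq_sqrt hq0]
  have hs2' : s ^ 2 = R ^ 2 - r ^ 2 / 4 := by
    rw [hs2, hq]
    field_simp
  have h1 := bm_half (C := Metric.closedBall (0 : Eu d) s) hA hB measurableSet_closedBall (by
    intro a ha b hb
    rw [mem_closedBall_zero_iff, ← smul_add, norm_smul]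
    have ha' : ‖a‖ ≤ R := mem_closedBall_zero_iff.1 (hAR ha)
    have hb' : ‖b‖ ≤ R := mem_closedBall_zero_iff.1 (hBR hb)
    have hab := hsep a ha b hb
    have hpar := parallelogram_law_with_norm ℝ a b
    have h2 : ‖(1 / 2 : ℝ)‖ = 1 / 2 := by
      rw [Real.norm_eq_abs]
      norm_num
    rw [h2]
    have h3 : ‖a‖ * ‖a‖ ≤ R ^ 2 := by nlinarith [norm_nonneg a]
    have h4 : ‖b‖ * ‖b‖ ≤ R ^ 2 := by nlinarith [norm_nonneg b]
    have h5 : r ^ 2 ≤ ‖a - b‖ * ‖a - b‖ := by nlinarith [norm_nonneg (a - b)]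
    have h6 : (1 / 2 * ‖a + b‖) ^ 2 ≤ s ^ 2 := by
      rw [hs2']
      nlinarith
    exact le_of_sq_le_sq h6 hs0)
  refine h1.trans (le_of_eq ?_)
  rw [Measure.addHaar_closedBall _ _ hs0, Measure.addHaar_closedBall _ _ hR.le, finrank_euclideanSpace,
    Fintype.card_fin, mul_pow (ENNReal.ofReal (s ^ d)), mul_pow (ENNReal.ofReal (R ^ d)),
    ← mul_assoc]
  congr 1
  rw [← ENNReal.ofReal_pow (by positivity), ← ENNReal.ofReal_pow (by positivity),
    ← ENNReal.ofReal_mul (by positivity)]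
  congr 1
  rw [← pow_mul, ← pow_mul, mul_comm d 2, pow_mul s, hs2, mul_pow (R ^ 2), pow_mul R, mul_comm]

end Pool.Agent.Helper6.HD
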