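import Pool.Agent.Helper6.HD.E9

/-!
# PIECE HD-E10: the numbers of the local lemma
-/

open MeasureTheory Set
open scoped ENNReal

namespace Pool.Agent.Helper6.HD

/-- The volume of the closed ball of radius `r ≥ 0`. -/
theorem vol_cb {d : ℕ} (hd : 1 ≤ d) {r : ℝ} (hr : 0 ≤ r) :
    volume (Metric.closedBall (0 : Eu d) r) = ENNReal.ofReal (vb d * r ^ d) := by
  have _h := hd
  have h1 := MeasureTheory.Measure.addHaar_closedBall (volume : Measure (Eu d)) (0 : Eu d) hr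
  have h2 : Module.finrank ℝ (Eu d) = d := by simp
  have h3 : volume (Metric.ball (0 : Eu d) 1) ≠ ∞ := measure_ball_lt_top.ne
  rw [h1, h2, vb, mul_comm (volume (Metric.ball (0 : Eu d) 1)).toReal,
    ENNReal.ofReal_mul (by positivity), ENNReal.ofReal_toReal h3]

/-- Real form of the counting. Put `δ = dl k`, `η = et k = δ²/4`, `m = λ v R^d`,
`N = ⌊m / (128 k)⌋₊`, and let `κ > 0` be the volume of the cones,
`v (R φ (1 - 2φ²))^d ≤ 2 κ`.
`m ≥ ((1 + 8φ²)/(φ (1 + 2φ²)))^d ≥ 4^d ≥ 256 k`, so `N ≥ m/(256 k)` and `4^d ≤ 512 d N`.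
`λ κ ≥ (1/2) λ v (R φ (1 + 2φ²))^d ((1 - 2φ²)/(1 + 2φ²))^d ≥ (1/2) ((1 + 8φ²)(1 - 4φ²))^d ≥
(1/2) (1 + 2φ²)^d ≥ 16384 k / δ` by `num2`. `j = ⌈v R^d / (δ/2 κ)⌉₊ ≤ 2 m / (δ λ κ) + 1 ≤
m / (8192 k) + 1 ≤ N / 2`. -/
theorem loc_num {d k : ℕ} {R φ lam κ : ℝ} (hd : 2 ≤ d) (hk : 1 ≤ k) (hkd : k ≤ d) (hR : 0 < R)
    (hφ : 0 < φ) (hφ4 : φ ≤ 1 / 4) (h : 10000 * Real.log d ≤ φ ^ 6 * d) (hv : 0 < vb d)
    (hlam : (1 + 8 * φ ^ 2) ^ d ≤ lam * (vb d * (R * (φ * (1 + 2 * φ ^ 2))) ^ d))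
    (hκ0 : 0 < κ) (hκ : vb d * (R * (φ * (1 - 2 * φ ^ 2))) ^ d ≤ 2 * κ) :
    ∃ N j : ℕ, 1 ≤ N ∧ 128 * (k : ℝ) * N ≤ lam * (vb d * R ^ d) ∧
      lam * (vb d * R ^ d) ≤ 256 * k * N ∧ (4 : ℝ) ^ d ≤ 512 * d * N ∧
      vb d * R ^ d ≤ j * (dl k / 2 * κ) ∧ 2 * j ≤ N := by
  obtain ⟨-, hd6, -⟩ := num3 hd hφ hφ4 h
  have hdl := dl_pos hk
  have hn2 := num2 hd hk hkd hφ hφ4 h
  have hk1 : (1 : ℝ) ≤ k := by exact_mod_cast hk
  have hk0 : (0 : ℝ) < k := by linarith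
  have hkd' : (k : ℝ) ≤ d := by exact_mod_cast hkd
  have hφ2 : φ ^ 2 ≤ 1 / 16 := by nlinarith
  have hφ20 : 0 < φ ^ 2 := by positivity
  have hv0 : 0 < vb d * R ^ d := by positivity
  set m : ℝ := lam * (vb d * R ^ d) with hm
  have e1 : lam * (vb d * (R * (φ * (1 + 2 * φ ^ 2))) ^ d) =
      m * (φ * (1 + 2 * φ ^ 2)) ^ d := by
    rw [hm, mul_pow R]
    ring
  have e2 : lam * (vb d * (R * (φ * (1 - 2 * φ ^ 2))) ^ d) =
      m * (φ * (1 - 2 * φ ^ 2)) ^ d := by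
    rw [hm, mul_pow R]
    ring
  rw [e1] at hlam
  have ha0 : 0 < (φ * (1 + 2 * φ ^ 2)) ^ d := by positivity
  have hm4 : (4 : ℝ) ^ d ≤ m := by
    have h1 : (4 : ℝ) ^ d * (φ * (1 + 2 * φ ^ 2)) ^ d ≤ (1 + 8 * φ ^ 2) ^ d := by
      rw [← mul_pow]
      refine pow_le_pow_left₀ (by positivity) ?_ d
      nlinarith
    exact le_of_mul_le_mul_right (h1.trans hlam) ha0
  have h4pos : (0 : ℝ) < 4 ^ d := by positivity
  have hm0 : 0 < m := by linarith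
  have hlam0 : 0 < lam := by
    by_contra hcon
    have : m ≤ 0 := mul_nonpos_of_nonpos_of_nonneg (not_lt.1 hcon) hv0.le
    linarith
  -- size of 4 ^ d
  have h4d : 1024 * (d : ℝ) ≤ 4 ^ d := by
    have h1 : (d : ℝ) < 2 ^ d := by exact_mod_cast Nat.lt_two_pow_self
    have h2 : (1024 : ℝ) ≤ 2 ^ d := by
      calc (1024 : ℝ) = 2 ^ 10 := by norm_num
        _ ≤ 2 ^ d := pow_le_pow_right₀ (by norm_num) (by omega)
    calc 1024 * (d : ℝ) ≤ 2 ^ d * 2 ^ d := by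
          apply mul_le_mul h2 h1.le (by positivity) (by positivity)
      _ = 4 ^ d := by rw [← mul_pow]; norm_num
  have hmk : 1024 * (k : ℝ) ≤ m := by linarith
  -- N
  set N : ℕ := ⌊m / (128 * k)⌋₊ with hN
  have h128 : (0 : ℝ) < 128 * k := by positivity
  have hN1 : (N : ℝ) ≤ m / (128 * k) := Nat.floor_le (by positivity)
  have hN2 : m / (128 * k) < N + 1 := Nat.lt_floor_add_one _
  have hN3 : 128 * (k : ℝ) * N ≤ m := by
    rw [le_div_iff₀ h128] at hN1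
    linarith
  have hN4 : m < 128 * k * (N + 1) := by
    rw [div_lt_iff₀ h128] at hN2
    linarith
  have hN7 : (7 : ℝ) < N := by
    by_contra hcon
    have h1 : (N : ℝ) + 1 ≤ 8 := by linarith [not_lt.1 hcon]
    have h2 : 128 * (k : ℝ) * (N + 1) ≤ 128 * k * 8 :=
      mul_le_mul_of_nonneg_left h1 (by positivity)
    linarith
  have hN5 : m ≤ 256 * k * N := by
    have h1 : (1 : ℝ) ≤ N := by linarith
    have h2 : 128 * (k : ℝ) * (N + 1) ≤ 128 * k * (2 * N) :=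
      mul_le_mul_of_nonneg_left (by linarith) (by positivity)
    linarith
  have hN0 : (0 : ℝ) < N := by linarith
  -- the product with κ
  have hlk : 16384 * (k : ℝ) / dl k ≤ lam * κ := by
    have h1 : m * (φ * (1 - 2 * φ ^ 2)) ^ d ≤ 2 * (lam * κ) := by
      rw [← e2]
      calc lam * (vb d * (R * (φ * (1 - 2 * φ ^ 2))) ^ d) ≤ lam * (2 * κ) :=
            mul_le_mul_of_nonneg_left hκ hlam0.le
        _ = _ := by ring
    have h2 : (1 + 2 * φ ^ 2) ^ d * (φ * (1 + 2 * φ ^ 2)) ^ d ≤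
        (1 + 8 * φ ^ 2) ^ d * (φ * (1 - 2 * φ ^ 2)) ^ d := by
      rw [← mul_pow, ← mul_pow]
      refine pow_le_pow_left₀ (by positivity) ?_ d
      have h3 : (1 + 2 * φ ^ 2) * (1 + 2 * φ ^ 2) ≤ (1 + 8 * φ ^ 2) * (1 - 2 * φ ^ 2) := by
        nlinarith
      nlinarith [mul_le_mul_of_nonneg_left h3 hφ.le]
    have hb0 : 0 < (φ * (1 - 2 * φ ^ 2)) ^ d := by
      have : 0 < 1 - 2 * φ ^ 2 := by linarith
      positivity
    have h3 : (1 + 8 * φ ^ 2) ^ d * (φ * (1 - 2 * φ ^ 2)) ^ d ≤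
        (m * (φ * (1 - 2 * φ ^ 2)) ^ d) * (φ * (1 + 2 * φ ^ 2)) ^ d := by
      calc (1 + 8 * φ ^ 2) ^ d * (φ * (1 - 2 * φ ^ 2)) ^ d
          ≤ (m * (φ * (1 + 2 * φ ^ 2)) ^ d) * (φ * (1 - 2 * φ ^ 2)) ^ d :=
            mul_le_mul_of_nonneg_right hlam hb0.le
        _ = _ := by ring
    have h4 : (1 + 2 * φ ^ 2) ^ d ≤ m * (φ * (1 - 2 * φ ^ 2)) ^ d :=
      le_of_mul_le_mul_right (h2.trans h3) ha0
    have h5 : 32768 * (k : ℝ) / dl k = 2 * (16384 * (k : ℝ) / dl k) := by ring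
    linarith
  -- j
  have hden : 0 < dl k / 2 * κ := by positivity
  set j : ℕ := ⌈vb d * R ^ d / (dl k / 2 * κ)⌉₊ with hj
  have hj1 : vb d * R ^ d / (dl k / 2 * κ) ≤ j := Nat.le_ceil _
  have hj2 : (j : ℝ) < vb d * R ^ d / (dl k / 2 * κ) + 1 := Nat.ceil_lt_add_one (by positivity)
  have hj3 : vb d * R ^ d / (dl k / 2 * κ) ≤ m / (8192 * k) := by
    rw [div_le_div_iff₀ hden (by positivity)]
    have h1 : 16384 * (k : ℝ) ≤ lam * κ * dl k := by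
      rwa [div_le_iff₀ hdl] at hlk
    have h2 : vb d * R ^ d * (16384 * (k : ℝ)) ≤ vb d * R ^ d * (lam * κ * dl k) :=
      mul_le_mul_of_nonneg_left h1 hv0.le
    calc vb d * R ^ d * (8192 * (k : ℝ)) = vb d * R ^ d * (16384 * (k : ℝ)) / 2 := by ring
      _ ≤ vb d * R ^ d * (lam * κ * dl k) / 2 := by linarith
      _ = m * (dl k / 2 * κ) := by rw [hm]; ring
  have hj4 : m / (8192 * k) ≤ N / 32 := by
    rw [div_le_div_iff₀ (by positivity) (by norm_num)]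
    calc m * 32 ≤ (256 * k * N) * 32 := by linarith
      _ = N * (8192 * k) := by ring
  have hj5 : (2 : ℝ) * j ≤ N := by
    have : (j : ℝ) < N / 32 + 1 := by linarith
    linarith
  refine ⟨N, j, ?_, hN3, hN5, ?_, ?_, ?_⟩
  · have : (0 : ℝ) < N := hN0
    exact_mod_cast this
  · have h1 : 256 * (k : ℝ) * N ≤ 256 * d * N := by
      apply mul_le_mul_of_nonneg_right _ hN0.le
      linarith
    have h2 : (0 : ℝ) ≤ 256 * d * N := by positivity
    linarith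
  · rwa [div_le_iff₀ hden] at hj1
  · exact_mod_cast hj5

/-- `δ = dl k`, `η = δ²/4`, `2 j ≤ N`, `m ≤ 256 k N`:
`m^(2N) ((2η)^N η^(-j) + δ^N) ≤ (256 k N)^(2N) * 2 δ^N` since
`(2η)^N η^(-j) ≤ 2^N η^(N/2) = δ^N`; and `(256 k N)^(2N) 2 δ^N = (N/e)^(2N) (256 e k)^(2N) 2 δ^N =
(N/e)^(2N) 2 e^(-N) ≤ (N!)² 2 e^(-N)` (`(N/e)^N ≤ N!`). -/
theorem loc_num2 {k N j : ℕ} (hk : 1 ≤ k) {m : ℝ} (hm : 0 ≤ m) (hN : 1 ≤ N)
    (hmN : m ≤ 256 * k * N) (hj : 2 * j ≤ N) :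
    m ^ (2 * N) * ((2 * et k) ^ N * (et k)⁻¹ ^ j + dl k ^ N) ≤
      (N.factorial : ℝ) ^ 2 * (2 * Real.exp (-(N : ℝ))) := by
  have _hN := hN
  have hd0 := dl_pos hk
  have hd1 := dl_le_one hk
  have hk0 : (0 : ℝ) < k := by exact_mod_cast hk
  have h1 : (2 * et k) ^ N * (et k)⁻¹ ^ j ≤ dl k ^ N := by
    have e1 : (et k)⁻¹ ^ j = (2 / dl k) ^ (2 * j) := by
      rw [pow_mul]
      congr 1
      rw [et]
      field_simp
      norm_num
    have e2 : (2 / dl k) ^ (2 * j) ≤ (2 / dl k) ^ N := by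
      refine pow_le_pow_right₀ ?_ hj
      rw [le_div_iff₀ hd0]
      linarith
    have e3 : (2 * et k) * (2 / dl k) = dl k := by
      rw [et]
      field_simp
      try norm_num
    calc (2 * et k) ^ N * (et k)⁻¹ ^ j ≤ (2 * et k) ^ N * (2 / dl k) ^ N := by
          rw [e1]
          refine mul_le_mul_of_nonneg_left e2 ?_
          have : 0 < et k := by rw [et]; positivity
          positivity
      _ = dl k ^ N := by rw [← mul_pow, e3]
  have h2 : (N : ℝ) ^ N ≤ N.factorial * Real.exp N := by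
    have := Real.pow_div_factorial_le_exp (N : ℝ) (by positivity) N
    rw [div_le_iff₀ (by positivity)] at this
    linarith
  have h3 : (N : ℝ) ^ (2 * N) ≤ (N.factorial : ℝ) ^ 2 * Real.exp (2 * N) := by
    have e : (N : ℝ) ^ (2 * N) = ((N : ℝ) ^ N) ^ 2 := by rw [← pow_mul, mul_comm]
    rw [e]
    calc ((N : ℝ) ^ N) ^ 2 ≤ (N.factorial * Real.exp N) ^ 2 :=
          pow_le_pow_left₀ (by positivity) h2 2
      _ = _ := by
          rw [mul_pow, ← Real.exp_nat_mul]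
          norm_num
  have h4 : (256 * (k : ℝ)) ^ (2 * N) * dl k ^ N = Real.exp (-(3 * N)) := by
    rw [pow_mul, ← mul_pow, dl]
    have : (256 * (k : ℝ)) ^ 2 * (Real.exp (-3) / (65536 * (k : ℝ) ^ 2)) = Real.exp (-3) := by
      field_simp
      norm_num
    rw [this, ← Real.exp_nat_mul]
    congr 1
    ring
  calc m ^ (2 * N) * ((2 * et k) ^ N * (et k)⁻¹ ^ j + dl k ^ N)
      ≤ (256 * k * N) ^ (2 * N) * (2 * dl k ^ N) := by
        refine mul_le_mul (pow_le_pow_left₀ hm hmN _) (by linarith) ?_ (by positivity)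
        have : 0 < et k := by rw [et]; positivity
        positivity
    _ = 2 * ((N : ℝ) ^ (2 * N) * ((256 * (k : ℝ)) ^ (2 * N) * dl k ^ N)) := by
        rw [mul_pow (256 * (k : ℝ)) (N : ℝ)]
        ring
    _ ≤ 2 * (((N.factorial : ℝ) ^ 2 * Real.exp (2 * N)) * Real.exp (-(3 * N))) := by
        rw [h4]
        refine mul_le_mul_of_nonneg_left ?_ (by norm_num)
        exact mul_le_mul_of_nonneg_right h3 (Real.exp_pos _).le
    _ = (N.factorial : ℝ) ^ 2 * (2 * Real.exp (-(N : ℝ))) := by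
        have : Real.exp (2 * N) * Real.exp (-(3 * N)) = Real.exp (-(N : ℝ)) := by
          rw [← Real.exp_add]
          congr 1
          ring
        rw [mul_assoc ((N.factorial : ℝ) ^ 2), this]
        ring

end Pool.Agent.Helper6.HD
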