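import Pool.Agent.Helper6.HD.E8
import Pool.Agent.Helper6.HD.E10

/-!
# PIECE HD-E11: the local lemma
-/

open MeasureTheory Set
open scoped ENNReal

namespace Pool.Agent.Helper6.HD

/-- Assembly: `Lam_shell` with `δ = ofReal (dl k)`, `η = ofReal (et k)`, `κ` the volume of a cone
(`cone_vol_eq`, `cone_vol_ge`, `cone_vol_le`), `num1`, `loc_num`, `loc_num2`. -/
theorem loc {d k : ℕ} {R φ lam : ℝ} (hd : 2 ≤ d) (hk : 1 ≤ k) (hkd : k ≤ d) (hR : 0 < R)
    (hφ : 0 < φ) (hφ4 : φ ≤ 1 / 4) (h : 10000 * Real.log d ≤ φ ^ 6 * d) (hlam0 : 0 < lam)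
    (hlam : (1 + 8 * φ ^ 2) ^ d ≤ lam * (vb d * (R * (φ * (1 + 2 * φ ^ 2))) ^ d)) :
    ∃ N : ℕ, 1 ≤ N ∧ 128 * (k : ℝ) * N ≤ lam * (vb d * R ^ d) ∧ (4 : ℝ) ^ d ≤ 512 * d * N ∧
      ENNReal.ofReal lam ^ (2 * N) * Lam (volume.restrict (shell d R φ)) N
        (fun u v => ‖u - v‖ < R * (φ * (1 + 2 * φ ^ 2))) ≤
        (N.factorial : ℝ≥0∞) ^ 2 * ENNReal.ofReal (2 * Real.exp (-(N : ℝ))) := by
  have hd1 : 1 ≤ d := by omega
  have hdl := dl_pos hk
  have hdl1 := dl_le_one hk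
  have het : 0 < et k := by unfold et; positivity
  have het1 : et k ≤ 1 := by unfold et; nlinarith
  -- the volume of the unit ball
  have hv : 0 < vb d := by
    unfold vb
    exact ENNReal.toReal_pos (Metric.measure_ball_pos volume _ one_pos).ne'
      measure_ball_lt_top.ne
  -- the volume of the cones
  obtain ⟨x0, hx0⟩ : ∃ x : Eu d, x ≠ 0 := by
    refine ⟨EuclideanSpace.single ⟨0, hd1⟩ 1, ?_⟩
    intro h0
    have h1 := congrArg norm h0
    simp at h1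
  have hs0 : 0 ≤ R * (φ * (1 - 2 * φ ^ 2)) := by
    have : 0 ≤ 1 - 2 * φ ^ 2 := by nlinarith
    positivity
  have hs1 : 0 < R * (φ * (1 - 2 * φ ^ 2)) := by
    have : 0 < 1 - 2 * φ ^ 2 := by nlinarith
    positivity
  have hκ : ∀ x : Eu d, x ≠ 0 → volume (cone R x φ) = volume (cone R x0 φ) :=
    fun x hx => cone_vol_eq R φ hx hx0
  have hcb : volume (Metric.closedBall (0 : Eu d) R) = ENNReal.ofReal (vb d * R ^ d) :=
    vol_cb hd1 hR.le
  have hκ1 : volume (cone R x0 φ) ≠ ∞ := by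
    refine ne_top_of_le_ne_top ?_ (cone_vol_le R φ x0)
    rw [hcb]
    exact ENNReal.ofReal_ne_top
  have hge := cone_vol_ge hR hφ hφ4 hx0
  rw [vol_cb hd1 hs0] at hge
  have hpos : 0 < vb d * (R * (φ * (1 - 2 * φ ^ 2))) ^ d := by positivity
  have hκ0 : volume (cone R x0 φ) ≠ 0 := by
    intro h0
    rw [h0, mul_zero, nonpos_iff_eq_zero, ENNReal.ofReal_eq_zero] at hge
    linarith
  obtain ⟨κ, hκp, hκe⟩ : ∃ κ : ℝ, 0 < κ ∧ volume (cone R x0 φ) = ENNReal.ofReal κ :=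
    ⟨(volume (cone R x0 φ)).toReal, ENNReal.toReal_pos hκ0 hκ1, (ENNReal.ofReal_toReal hκ1).symm⟩
  have e2 : (2 : ℝ≥0∞) = ENNReal.ofReal 2 := by norm_num
  have hκ2 : vb d * (R * (φ * (1 - 2 * φ ^ 2))) ^ d ≤ 2 * κ := by
    rw [hκe, e2, ← ENNReal.ofReal_mul (by norm_num)] at hge
    exact (ENNReal.ofReal_le_ofReal_iff (by positivity)).1 hge
  obtain ⟨N, j, h1, h2, h3, h4, h5, h6⟩ :=
    loc_num hd hk hkd hR hφ hφ4 h hv hlam hκp hκ2
  refine ⟨N, h1, h2, h4, ?_⟩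
  have eδ : ENNReal.ofReal (dl k) / 2 = ENNReal.ofReal (dl k / 2) := by
    rw [ENNReal.ofReal_div_of_pos (by norm_num), ← e2]
  have hc : ENNReal.ofReal ((1 - φ ^ 6 / 64) ^ d) <
      ENNReal.ofReal (dl k) / 2 * ENNReal.ofReal (et k) := by
    rw [eδ, ← ENNReal.ofReal_mul (by positivity)]
    exact (ENNReal.ofReal_lt_ofReal_iff (by positivity)).2 (num1 hd hk hkd hφ hφ4 h)
  have hj : volume (Metric.closedBall (0 : Eu d) R) ≤
      j * (ENNReal.ofReal (dl k) / 2 * volume (cone R x0 φ)) := by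
    rw [hcb, hκe, eδ, ← ENNReal.ofReal_mul (by positivity), ← ENNReal.ofReal_natCast,
      ← ENNReal.ofReal_mul (by positivity)]
    exact ENNReal.ofReal_le_ofReal h5
  have hL := Lam_shell hd1 hR hφ hφ4 hκ0 hκ1 (δ := ENNReal.ofReal (dl k))
    (η := ENNReal.ofReal (et k)) (ENNReal.ofReal_pos.2 hdl).ne'
    (ENNReal.ofReal_le_one.2 hdl1) (ENNReal.ofReal_pos.2 het).ne'
    (ENNReal.ofReal_le_one.2 het1) hκ hc N j hj
  refine (mul_le_mul_right hL _).trans ?_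
  have hm : 0 ≤ lam * (vb d * R ^ d) := by positivity
  have key := loc_num2 hk hm h1 h3 h6
  have e3 : (N.factorial : ℝ≥0∞) ^ 2 * ENNReal.ofReal (2 * Real.exp (-(N : ℝ))) =
      ENNReal.ofReal ((N.factorial : ℝ) ^ 2 * (2 * Real.exp (-(N : ℝ)))) := by
    rw [ENNReal.ofReal_mul (p := (N.factorial : ℝ) ^ 2) (by positivity),
      ENNReal.ofReal_pow (by positivity), ENNReal.ofReal_natCast]
  have e4 : ENNReal.ofReal lam ^ (2 * N) * (volume (Metric.closedBall (0 : Eu d) R) ^ (2 * N) *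
      ((2 * ENNReal.ofReal (et k)) ^ N * (ENNReal.ofReal (et k))⁻¹ ^ j +
        ENNReal.ofReal (dl k) ^ N)) =
      ENNReal.ofReal ((lam * (vb d * R ^ d)) ^ (2 * N) *
        ((2 * et k) ^ N * (et k)⁻¹ ^ j + dl k ^ N)) := by
    have e5 : ENNReal.ofReal ((lam * (vb d * R ^ d)) ^ (2 * N)) =
        ENNReal.ofReal lam ^ (2 * N) * ENNReal.ofReal (vb d * R ^ d) ^ (2 * N) := by
      rw [ENNReal.ofReal_pow hm, ENNReal.ofReal_mul hlam0.le, mul_pow]
    have e6 : ENNReal.ofReal ((2 * et k) ^ N * (et k)⁻¹ ^ j) =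
        (2 * ENNReal.ofReal (et k)) ^ N * (ENNReal.ofReal (et k))⁻¹ ^ j := by
      rw [ENNReal.ofReal_mul (by positivity), ENNReal.ofReal_pow (by positivity),
        ENNReal.ofReal_pow (by positivity), ENNReal.ofReal_inv_of_pos het,
        ENNReal.ofReal_mul (by norm_num), ← e2]
    rw [ENNReal.ofReal_mul (p := (lam * (vb d * R ^ d)) ^ (2 * N)) (by positivity),
      ENNReal.ofReal_add (by positivity) (by positivity), e5, e6, hcb,
      ENNReal.ofReal_pow hdl.le, mul_assoc]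
  rw [e3, e4]
  exact ENNReal.ofReal_le_ofReal key

end Pool.Agent.Helper6.HD
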