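import Pool.Agent.Helper6.HD.Defs

/-!
# PIECE HD-E2: elementary geometry of cones and shells
-/

open MeasureTheory Set
open scoped ENNReal

namespace Pool.Agent.Helper6.HD

/-- Put `C = ‖c‖`, `t = ⟪c, v⟫ / C`, so `|t| ≤ ‖v‖ ≤ C sin θ` and `C + t ≥ 0`. Claim
`⟪c, c + v⟫ = C (C + t) ≥ cos θ C ‖c + v‖`: square; with `‖v‖² ≤ C² sin² θ`,
`(C + t)² - cos² θ (C² + 2 C t + ‖v‖²) ≥ (C sin² θ + t)² ≥ 0`. Then
`angle = arccos (⟪c, c+v⟫ / (‖c‖ ‖c+v‖)) ≤ arccos (cos θ) = θ` (`c ≠ 0`, `c + v ≠ 0` since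
`‖v‖ ≤ C sin θ < C` as `θ < π/2`). -/
theorem angle_of_norm {E : Type*} [NormedAddCommGroup E] [InnerProductSpace ℝ E] {c v : E}
    {θ : ℝ} (hc : c ≠ 0) (h0 : 0 ≤ θ) (h1 : θ < Real.pi / 2) (h : ‖v‖ ≤ ‖c‖ * Real.sin θ) :
    InnerProductGeometry.angle c (c + v) ≤ θ := by
  have hC : 0 < ‖c‖ := norm_pos_iff.2 hc
  have hpi := Real.pi_pos
  have hcos : 0 < Real.cos θ := Real.cos_pos_of_mem_Ioo ⟨by linarith, h1⟩
  have hsin0 : 0 ≤ Real.sin θ := Real.sin_nonneg_of_nonneg_of_le_pi h0 (by linarith)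
  have hsc := Real.sin_sq_add_cos_sq θ
  have hsin1 : Real.sin θ < 1 := by nlinarith
  have hv0 := norm_nonneg v
  have hvC : ‖v‖ < ‖c‖ := by nlinarith
  have hcv : 0 < ‖c + v‖ := by
    have h2 : ‖c‖ - ‖v‖ ≤ ‖c + v‖ := by
      have h3 := norm_sub_norm_le c (-v)
      rw [norm_neg, sub_neg_eq_add] at h3
      exact h3
    linarith
  set p : ℝ := inner ℝ c v with hp
  have hpabs : |p| ≤ ‖c‖ * ‖v‖ := abs_real_inner_le_norm c v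
  have hinner : inner ℝ c (c + v) = ‖c‖ ^ 2 + p := by
    rw [inner_add_right, real_inner_self_eq_norm_sq]
  have hN : ‖c + v‖ ^ 2 = ‖c‖ ^ 2 + 2 * p + ‖v‖ ^ 2 := norm_add_sq_real c v
  have hv2 : ‖v‖ ^ 2 ≤ ‖c‖ ^ 2 * Real.sin θ ^ 2 := by
    rw [← mul_pow]
    exact pow_le_pow_left₀ hv0 h 2
  have hp1 : 0 ≤ ‖c‖ ^ 2 + p := by
    have h2 := neg_abs_le p
    nlinarith
  have hmain : Real.cos θ * (‖c‖ * ‖c + v‖) ≤ ‖c‖ ^ 2 + p := by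
    apply (sq_le_sq₀ (by positivity) hp1).1
    have h2 : (Real.cos θ * (‖c‖ * ‖c + v‖)) ^ 2 = Real.cos θ ^ 2 * ‖c‖ ^ 2 *
        (‖c‖ ^ 2 + 2 * p + ‖v‖ ^ 2) := by
      rw [mul_pow, mul_pow, hN]
      ring
    rw [h2]
    have h3 : Real.cos θ ^ 2 = 1 - Real.sin θ ^ 2 := by linarith
    have h4 : Real.cos θ ^ 2 * ‖c‖ ^ 2 * (‖c‖ ^ 2 + 2 * p + ‖v‖ ^ 2) ≤
        Real.cos θ ^ 2 * ‖c‖ ^ 2 * (‖c‖ ^ 2 + 2 * p + ‖c‖ ^ 2 * Real.sin θ ^ 2) := by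
      apply mul_le_mul_of_nonneg_left _ (by positivity)
      linarith
    refine h4.trans ?_
    have h5 : (‖c‖ ^ 2 + p) ^ 2 - Real.cos θ ^ 2 * ‖c‖ ^ 2 *
        (‖c‖ ^ 2 + 2 * p + ‖c‖ ^ 2 * Real.sin θ ^ 2) = (p + Real.sin θ ^ 2 * ‖c‖ ^ 2) ^ 2 := by
      rw [h3]
      ring
    have h6 := sq_nonneg (p + Real.sin θ ^ 2 * ‖c‖ ^ 2)
    linarith
  have hkey : Real.cos θ ≤ inner ℝ c (c + v) / (‖c‖ * ‖c + v‖) := by
    rw [hinner, le_div_iff₀ (by positivity)]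
    exact hmain
  calc InnerProductGeometry.angle c (c + v)
      = Real.arccos (inner ℝ c (c + v) / (‖c‖ * ‖c + v‖)) := rfl
    _ ≤ Real.arccos (Real.cos θ) := Real.arccos_le_arccos hkey
    _ = θ := Real.arccos_cos h0 (by linarith)

/-- `angle_of_norm` with `v = w - z`, `θ = φ^3`: `R φ³/4 ≤ (R/2) sin (φ³)` because
`sin x ≥ x/2` for `0 ≤ x ≤ 1` (`Real.sin_gt_sub_cube` or `Real.mul_le_sin`). -/
theorem angle_small {d : ℕ} {R φ : ℝ} (hR : 0 < R) (hφ : 0 < φ) (hφ4 : φ ≤ 1 / 4) {z w : Eu d}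
    (hz : R / 2 ≤ ‖z‖) (h : ‖z - w‖ < R * φ ^ 3 / 4) :
    InnerProductGeometry.angle z w ≤ φ ^ 3 := by
  have hz0 : z ≠ 0 := by
    rintro rfl
    rw [norm_zero] at hz
    linarith
  have hφ3 : φ ^ 3 ≤ 1 / 64 := by
    have h1 := pow_le_pow_left₀ hφ.le hφ4 3
    norm_num at h1
    linarith
  have hφ3' : 0 < φ ^ 3 := by positivity
  have hpi := Real.pi_gt_three
  have hpi4 := Real.pi_le_four
  have hsin : φ ^ 3 / 2 ≤ Real.sin (φ ^ 3) := by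
    have h1 := Real.mul_le_sin hφ3'.le (by linarith)
    have h2 : (1 : ℝ) / 2 ≤ 2 / Real.pi := by
      rw [div_le_div_iff₀ (by norm_num) Real.pi_pos]
      linarith
    nlinarith
  have h1 := angle_of_norm (c := z) (v := w - z) (θ := φ ^ 3) hz0 hφ3'.le (by linarith) (by
    rw [norm_sub_rev]
    have h2 : ‖z‖ * (φ ^ 3 / 2) ≤ ‖z‖ * Real.sin (φ ^ 3) :=
      mul_le_mul_of_nonneg_left hsin (norm_nonneg z)
    have h3 : R / 2 * (φ ^ 3 / 2) ≤ ‖z‖ * (φ ^ 3 / 2) :=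
      mul_le_mul_of_nonneg_right hz (by positivity)
    linarith)
  rwa [add_sub_cancel] at h1

/-- Triangle inequality `InnerProductGeometry.angle_le_angle_add_angle`. -/
theorem cone_sub {d : ℕ} {R φ ψ : ℝ} {z w : Eu d} (h : InnerProductGeometry.angle z w ≤ ψ) :
    cone R w φ ⊆ cone R z (φ + ψ) := by
  rintro y ⟨hy1, hy2⟩
  refine ⟨hy1, ?_⟩
  have h1 := InnerProductGeometry.angle_le_angle_add_angle z w y
  linarith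

/-- `‖u - v‖² = (‖u‖ - ‖v‖)² + 2 ‖u‖ ‖v‖ (1 - cos θ) ≤ (φ² R)² + R² θ²` with `θ ≤ φ + φ³`
(`1 - cos θ ≤ θ²/2`), and `φ⁴ + φ² (1 + φ²)² < φ² (1 + 2 φ²)²`. -/
theorem adj_shell {d : ℕ} {R φ : ℝ} (hR : 0 < R) (hφ : 0 < φ) (hφ4 : φ ≤ 1 / 4) {u v : Eu d}
    (hu : u ∈ shell d R φ) (hv : v ∈ shell d R φ)
    (h : InnerProductGeometry.angle u v ≤ φ + φ ^ 3) :
    ‖u - v‖ < R * (φ * (1 + 2 * φ ^ 2)) := by
  obtain ⟨hu1, hu2⟩ := hu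
  obtain ⟨hv1, hv2⟩ := hv
  have hφ2 : φ ^ 2 ≤ 1 / 16 := by
    have h1 := pow_le_pow_left₀ hφ.le hφ4 2
    norm_num at h1
    linarith
  have hcos := Real.one_sub_sq_div_two_le_cos (x := InnerProductGeometry.angle u v)
  have ha0 := InnerProductGeometry.angle_nonneg u v
  have hlaw :=
    InnerProductGeometry.norm_sub_sq_eq_norm_sq_add_norm_sq_sub_two_mul_norm_mul_norm_mul_cos_angle
      u v
  set t := InnerProductGeometry.angle u v with ht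
  have ht2 : t ^ 2 ≤ (φ + φ ^ 3) ^ 2 := pow_le_pow_left₀ ha0 h 2
  have hun := norm_nonneg u
  have hvn := norm_nonneg v
  have hcos1 := Real.cos_le_one t
  have huv : ‖u‖ * ‖v‖ ≤ R * R := mul_le_mul hu2 hv2 hvn hR.le
  have h1 : (‖u‖ - ‖v‖) ^ 2 ≤ (φ ^ 2 * R) ^ 2 := by
    rw [sq_le_sq, abs_of_nonneg (a := φ ^ 2 * R) (by positivity), abs_le]
    constructor <;> nlinarith
  have h2 : 2 * (‖u‖ * ‖v‖) * (1 - Real.cos t) ≤ R ^ 2 * (φ + φ ^ 3) ^ 2 := by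
    have h3 : 1 - Real.cos t ≤ (φ + φ ^ 3) ^ 2 / 2 := by linarith
    have h4 : 0 ≤ ‖u‖ * ‖v‖ := by positivity
    calc 2 * (‖u‖ * ‖v‖) * (1 - Real.cos t) ≤ 2 * (‖u‖ * ‖v‖) * ((φ + φ ^ 3) ^ 2 / 2) :=
          mul_le_mul_of_nonneg_left h3 (by positivity)
      _ = ‖u‖ * ‖v‖ * (φ + φ ^ 3) ^ 2 := by ring
      _ ≤ R * R * (φ + φ ^ 3) ^ 2 := mul_le_mul_of_nonneg_right huv (by positivity)
      _ = R ^ 2 * (φ + φ ^ 3) ^ 2 := by ring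
  have h5 : ‖u - v‖ ^ 2 < (R * (φ * (1 + 2 * φ ^ 2))) ^ 2 := by
    have h6 : ‖u - v‖ ^ 2 = (‖u‖ - ‖v‖) ^ 2 + 2 * (‖u‖ * ‖v‖) * (1 - Real.cos t) := by
      rw [pow_two, hlaw]
      ring
    have h7 : (R * (φ * (1 + 2 * φ ^ 2))) ^ 2 - ((φ ^ 2 * R) ^ 2 + R ^ 2 * (φ + φ ^ 3) ^ 2) =
        R ^ 2 * (φ ^ 4 + 3 * φ ^ 6) := by ring
    have h8 : 0 < R ^ 2 * (φ ^ 4 + 3 * φ ^ 6) := by positivity
    linarith
  exact (sq_lt_sq₀ (norm_nonneg _) (by positivity)).1 h5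

end Pool.Agent.Helper6.HD
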