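import Pool.Agent.Helper6.HD.Defs

/-!
# PIECE HD-E3: cones, measurability and volume
-/

open MeasureTheory Set
open scoped ENNReal

namespace Pool.Agent.Helper6.HD

/-- `angle x y = arccos (⟪x, y⟫ / (‖x‖ ‖y‖))` is a measurable function of the pair. -/
theorem measurableSet_angle_le (d : ℕ) (θ : ℝ) :
    MeasurableSet {p : Eu d × Eu d | InnerProductGeometry.angle p.1 p.2 ≤ θ} := by
  have h1 : Measurable fun p : Eu d × Eu d => InnerProductGeometry.angle p.1 p.2 := by
    unfold InnerProductGeometry.angle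
    refine Real.measurable_arccos.comp (Measurable.div ?_ ?_)
    · exact (measurable_fst.inner measurable_snd)
    · exact (measurable_fst.norm).mul (measurable_snd.norm)
  exact measurableSet_le h1 measurable_const

theorem measurableSet_cone {d : ℕ} (R : ℝ) (x : Eu d) (θ : ℝ) : MeasurableSet (cone R x θ) := by
  have h1 : MeasurableSet {y : Eu d | ‖y‖ ≤ R} := measurableSet_le measurable_norm measurable_const
  have h2 : MeasurableSet ((fun y : Eu d => (x, y)) ⁻¹'
      {p : Eu d × Eu d | InnerProductGeometry.angle p.1 p.2 ≤ θ}) :=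
    measurable_prodMk_left (measurableSet_angle_le d θ)
  exact h1.inter h2

theorem measurableSet_shell (d : ℕ) (R φ : ℝ) : MeasurableSet (shell d R φ) :=
  (measurableSet_le measurable_const measurable_norm).inter
    (measurableSet_le measurable_norm measurable_const)

/-- The volume of the cone does not depend on the axis: a linear isometry `U` of `ℝ^d` with
`U (x/‖x‖) = y/‖y‖` (for instance a reflection: `reflection_sub`, or extension of isometries)
maps `cone R x θ` to `cone R y θ` and preserves the volume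
(`LinearIsometryEquiv.measurePreserving`). -/
theorem cone_vol_eq {d : ℕ} (R θ : ℝ) {x y : Eu d} (hx : x ≠ 0) (hy : y ≠ 0) :
    volume (cone R x θ) = volume (cone R y θ) := by
  have hx' : 0 < ‖x‖ := norm_pos_iff.2 hx
  have hy' : 0 < ‖y‖ := norm_pos_iff.2 hy
  obtain ⟨U, hU⟩ : ∃ U : Eu d ≃ₗᵢ[ℝ] Eu d, U (‖x‖⁻¹ • x) = ‖y‖⁻¹ • y := by
    refine ⟨Submodule.reflection (ℝ ∙ (‖x‖⁻¹ • x - ‖y‖⁻¹ • y))ᗮ, ?_⟩
    apply Submodule.reflection_sub
    rw [norm_smul, norm_smul, norm_inv, norm_inv, norm_norm, norm_norm,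
      inv_mul_cancel₀ hx'.ne', inv_mul_cancel₀ hy'.ne']
  have h1 : U ⁻¹' cone R y θ = cone R x θ := by
    ext z
    have h2 : InnerProductGeometry.angle y (U z) = InnerProductGeometry.angle x z := by
      rw [← InnerProductGeometry.angle_smul_left_of_pos y (U z) (inv_pos.2 hy'), ← hU]
      have h3 := U.toLinearIsometry.angle_map (‖x‖⁻¹ • x) z
      rw [← InnerProductGeometry.angle_smul_left_of_pos x z (inv_pos.2 hx')]
      exact h3
    show (‖U z‖ ≤ R ∧ InnerProductGeometry.angle y (U z) ≤ θ) ↔
      (‖z‖ ≤ R ∧ InnerProductGeometry.angle x z ≤ θ)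
    rw [h2, U.norm_map]
  rw [← h1]
  exact U.measurePreserving.measure_preimage (measurableSet_cone R y θ).nullMeasurableSet

theorem cone_vol_le {d : ℕ} (R θ : ℝ) (x : Eu d) :
    volume (cone R x θ) ≤ volume (Metric.closedBall (0 : Eu d) R) := by
  refine measure_mono fun y hy => ?_
  rw [mem_closedBall_zero_iff]
  exact hy.1

end Pool.Agent.Helper6.HD
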