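import Pool.Agent.Helper6.HD.E2
import Pool.Agent.Helper6.HD.E3

/-!
# PIECE HD-E4: lower bound for the volume of a cone
-/

open MeasureTheory Set
open scoped ENNReal

namespace Pool.Agent.Helper6.HD

/-- Put `s = φ (1 - 2 φ²)`, `q = sin² φ`. From `sin φ ≥ φ - φ³/4` (`Real.sin_gt_sub_cube`):
`q ≥ φ² (1 - φ²/2)`, `q/(1+q) ≥ q (1 - q) ≥ φ² (1 - 3φ²/2)` and
`s² = φ² (1 - 4φ² + 4φ⁴) ≤ φ² (1 - 3 φ²)`. So `s² (1 + q) ≤ q`. -/
theorem num_cone {φ : ℝ} (hφ : 0 < φ) (hφ4 : φ ≤ 1 / 4) :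
    (φ * (1 - 2 * φ ^ 2)) ^ 2 * (1 + Real.sin φ ^ 2) ≤ Real.sin φ ^ 2 := by
  have h1 : φ - φ ^ 3 / 4 < Real.sin φ := by
    have h10 := Real.sin_gt_sub_cube hφ
    have h11 : 0 < φ ^ 3 := by positivity
    linarith
  obtain ⟨q, hq⟩ : ∃ q : ℝ, q = Real.sin φ ^ 2 := ⟨_, rfl⟩
  rw [← hq]
  obtain ⟨u, hu⟩ : ∃ u : ℝ, u = φ ^ 2 := ⟨_, rfl⟩
  have hu0 : 0 < u := by rw [hu]; positivity
  have hu1 : u ≤ 1 / 16 := by rw [hu]; nlinarith
  have hpos : 0 ≤ φ - φ ^ 3 / 4 := by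
    have e : φ - φ ^ 3 / 4 = φ * (1 - φ ^ 2 / 4) := by ring
    rw [e, ← hu]
    exact mul_nonneg hφ.le (by linarith)
  have h2 : (φ - φ ^ 3 / 4) ^ 2 ≤ q := by
    rw [hq]
    exact pow_le_pow_left₀ hpos h1.le 2
  have h3 : (φ - φ ^ 3 / 4) ^ 2 = u * (1 - u / 4) ^ 2 := by
    rw [hu]; ring
  have h4 : (φ * (1 - 2 * φ ^ 2)) ^ 2 = u * (1 - 2 * u) ^ 2 := by
    rw [hu]; ring
  rw [h3] at h2
  rw [h4]
  have h5 : u * (1 - u / 2) ≤ q := by
    refine le_trans ?_ h2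
    refine mul_le_mul_of_nonneg_left ?_ hu0.le
    nlinarith [sq_nonneg u]
  have h6 : u * (1 - 2 * u) ^ 2 ≤ u := by
    have h60 : (1 - 2 * u) ^ 2 ≤ 1 := by nlinarith
    nlinarith
  have h7 : u * (1 - 2 * u) ^ 2 ≤ u * (1 - u / 2) * (1 - u * (1 - 2 * u) ^ 2) := by
    have h70 : u * (1 - u / 2) * (1 - u) ≤ u * (1 - u / 2) * (1 - u * (1 - 2 * u) ^ 2) := by
      refine mul_le_mul_of_nonneg_left (by linarith) ?_
      exact mul_nonneg hu0.le (by linarith)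
    have h71 : (1 - 2 * u) ^ 2 ≤ (1 - u / 2) * (1 - u) := by nlinarith
    have h72 : u * (1 - 2 * u) ^ 2 ≤ u * ((1 - u / 2) * (1 - u)) :=
      mul_le_mul_of_nonneg_left h71 hu0.le
    linarith
  have h8 : u * (1 - u / 2) * (1 - u * (1 - 2 * u) ^ 2) ≤ q * (1 - u * (1 - 2 * u) ^ 2) :=
    mul_le_mul_of_nonneg_right h5 (by linarith)
  linarith

/-- Let `ρ = R s`, `s = φ (1 - 2φ²)`, `c = (√(R² - ρ²)/‖x‖) x`. The half ball
`G = {c + v : ‖v‖ ≤ ρ, ⟪v, c⟫ ≤ 0}` is in `cone R x φ`: `‖c + v‖² ≤ ‖c‖² + ρ² = R²`, and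
`ρ ≤ ‖c‖ sin φ` by `num_cone`, so `angle x (c + v) = angle c (c + v) ≤ φ` by `angle_of_norm`.
The closed ball of radius `ρ` is the union of `{v : ‖v‖ ≤ ρ, ⟪v, c⟫ ≤ 0}` and its negative, so its
volume is at most `2 volume G` (translation and `v ↦ -v` preserve the volume). -/
theorem cone_vol_ge {d : ℕ} {R φ : ℝ} (hR : 0 < R) (hφ : 0 < φ) (hφ4 : φ ≤ 1 / 4) {x : Eu d}
    (hx : x ≠ 0) : volume (Metric.closedBall (0 : Eu d) (R * (φ * (1 - 2 * φ ^ 2)))) ≤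
      2 * volume (cone R x φ) := by
  obtain ⟨s, hs⟩ : ∃ s : ℝ, s = φ * (1 - 2 * φ ^ 2) := ⟨_, rfl⟩
  have hφ2 : φ ^ 2 ≤ 1 / 16 := by nlinarith
  have hs0 : 0 < s := by rw [hs]; exact mul_pos hφ (by linarith)
  have hs1 : s ≤ 1 / 4 := by
    rw [hs]
    have : φ * (1 - 2 * φ ^ 2) ≤ φ * 1 := mul_le_mul_of_nonneg_left (by nlinarith) hφ.le
    linarith
  have hnum := num_cone hφ hφ4
  rw [← hs] at hnum ⊢
  have hxn : 0 < ‖x‖ := norm_pos_iff.2 hx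
  have hpos : 0 < R ^ 2 - (R * s) ^ 2 := by
    have h1 : s ^ 2 ≤ 1 / 16 := by nlinarith
    have h2 : R ^ 2 - (R * s) ^ 2 = R ^ 2 * (1 - s ^ 2) := by ring
    rw [h2]
    have : 0 < 1 - s ^ 2 := by linarith
    positivity
  obtain ⟨l, hl⟩ : ∃ l : ℝ, l = √(R ^ 2 - (R * s) ^ 2) := ⟨_, rfl⟩
  have hl0 : 0 < l := by rw [hl]; exact Real.sqrt_pos.2 hpos
  have hl2 : l ^ 2 = R ^ 2 - (R * s) ^ 2 := by rw [hl]; exact Real.sq_sqrt hpos.le
  obtain ⟨c, hc⟩ : ∃ c : Eu d, c = (l / ‖x‖) • x := ⟨_, rfl⟩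
  have hlx : 0 < l / ‖x‖ := by positivity
  have hcn : ‖c‖ = l := by
    rw [hc, norm_smul, Real.norm_of_nonneg hlx.le]
    field_simp
  have hc0 : c ≠ 0 := by
    rw [← norm_pos_iff, hcn]
    exact hl0
  have hsin : R * s ≤ l * Real.sin φ := by
    have hsin0 : 0 ≤ Real.sin φ :=
      Real.sin_nonneg_of_nonneg_of_le_pi hφ.le (by linarith [Real.pi_gt_three])
    refine le_of_sq_le_sq ?_ (by positivity)
    rw [mul_pow l, hl2]
    have h1 := mul_le_mul_of_nonneg_left hnum (sq_nonneg R)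
    nlinarith
  set H : Set (Eu d) := {v | ‖v‖ ≤ R * s ∧ inner ℝ c v ≤ 0} with hH
  have hHc : H ⊆ (fun v => c + v) ⁻¹' (cone R x φ) := by
    rintro v ⟨hv1, hv2⟩
    refine ⟨?_, ?_⟩
    · refine le_of_sq_le_sq ?_ hR.le
      rw [norm_add_sq_real, hcn, hl2]
      have := pow_le_pow_left₀ (norm_nonneg v) hv1 2
      linarith
    · have h1 : InnerProductGeometry.angle c (c + v) ≤ φ := by
        refine angle_of_norm hc0 hφ.le (by linarith [Real.pi_gt_three]) ?_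
        rw [hcn]
        exact hv1.trans hsin
      have h2 : InnerProductGeometry.angle c (c + v) = InnerProductGeometry.angle x (c + v) := by
        conv_lhs => rw [hc]
        rw [InnerProductGeometry.angle_smul_left_of_pos _ _ hlx, ← hc]
      rw [← h2]
      exact h1
  have hcov : Metric.closedBall (0 : Eu d) (R * s) ⊆ H ∪ -H := by
    intro v hv
    rw [mem_closedBall_zero_iff] at hv
    rcases le_total (inner ℝ c v) 0 with h | h
    · exact Or.inl ⟨hv, h⟩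
    · refine Or.inr ⟨by rwa [norm_neg], ?_⟩
      rw [inner_neg_right]
      linarith
  calc volume (Metric.closedBall (0 : Eu d) (R * s)) ≤ volume (H ∪ -H) := measure_mono hcov
    _ ≤ volume H + volume (-H) := measure_union_le _ _
    _ = 2 * volume H := by rw [Measure.measure_neg, two_mul]
    _ ≤ 2 * volume ((fun v => c + v) ⁻¹' (cone R x φ)) := by gcongr
    _ = 2 * volume (cone R x φ) := by rw [measure_preimage_add]

end Pool.Agent.Helper6.HD
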