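import Pool.Agent.Helper6.HD.E1
import Pool.Agent.Helper6.HD.E2
import Pool.Agent.Helper6.HD.E3

/-!
# PIECE HD-E5: the isoperimetric lemma for cones
-/

open MeasureTheory Set
open scoped ENNReal

namespace Pool.Agent.Helper6.HD

private theorem E5_meas_pair {d : ℕ} (R θ : ℝ) {W : Set (Eu d)} (hW : MeasurableSet W) :
    MeasurableSet {p : Eu d × Eu d | p.2 ∈ W ∧ ‖p.2‖ ≤ R ∧
      InnerProductGeometry.angle p.1 p.2 ≤ θ} := by
  have h1 : MeasurableSet {p : Eu d × Eu d | p.2 ∈ W} := measurable_snd hW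
  have h2 : MeasurableSet {p : Eu d × Eu d | ‖p.2‖ ≤ R} :=
    measurableSet_le measurable_snd.norm measurable_const
  exact h1.inter (h2.inter (measurableSet_angle_le d θ))

private theorem E5_cone_inter {d : ℕ} (R θ : ℝ) {W : Set (Eu d)} (hW : MeasurableSet W) :
    Measurable fun z : Eu d => volume (W ∩ cone R z θ) := by
  exact measurable_measure_prodMk_left (ν := (volume : Measure (Eu d))) (E5_meas_pair R θ hW)

private theorem E5_ae_ne {d : ℕ} (hd : 1 ≤ d) : ∀ᵐ w : Eu d ∂volume, w ≠ 0 := by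
  have : Nonempty (Fin d) := ⟨⟨0, hd⟩⟩
  have : Nontrivial (Eu d) := inferInstance
  exact Measure.ae_ne volume (0 : Eu d)

/-- Double counting. Put `𝔹` = closed ball of radius `R`, `Wm = {w ∈ 𝔹 : δ/2 κ ≤ |W ∩ cone w|}`.
Tonelli (`measurableSet_angle_le`): `∫_{w ∈ 𝔹} |W ∩ cone R w φ| dw = ∫_{y ∈ W} |cone R y φ| dy =
κ |W| ≥ κ δ |𝔹|` (for `y, w ∈ 𝔹`: `y ∈ cone R w φ ↔ w ∈ cone R y φ`; `y = 0` is a null set:
`d ≥ 1`). The left side is at most `κ |Wm| + (δ/2) κ |𝔹|`. Cancel `κ`. -/
theorem dbl {d : ℕ} (hd : 1 ≤ d) {R φ : ℝ} {δ κ : ℝ≥0∞} (hκ0 : κ ≠ 0) (hκ1 : κ ≠ ∞)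
    (hδ : δ ≤ 1) (hκ : ∀ x : Eu d, x ≠ 0 → volume (cone R x φ) = κ) {W : Set (Eu d)}
    (hW : MeasurableSet W) (hWR : W ⊆ Metric.closedBall 0 R)
    (hWδ : δ * volume (Metric.closedBall (0 : Eu d) R) ≤ volume W) :
    δ / 2 * volume (Metric.closedBall (0 : Eu d) R) ≤
      volume {w | w ∈ Metric.closedBall (0 : Eu d) R ∧ δ / 2 * κ ≤ volume (W ∩ cone R w φ)} := by
  set B : Set (Eu d) := Metric.closedBall 0 R with hB
  set Wm : Set (Eu d) := {w | w ∈ B ∧ δ / 2 * κ ≤ volume (W ∩ cone R w φ)} with hWm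
  have hBm : MeasurableSet B := Metric.isClosed_closedBall.measurableSet
  have hBfin : volume B ≠ ∞ := (measure_closedBall_lt_top).ne
  have hWmm : MeasurableSet Wm :=
    hBm.inter (measurableSet_le measurable_const (E5_cone_inter R φ hW))
  -- the set of pairs
  set P : Set (Eu d × Eu d) := {p | p.1 ∈ B} ∩ {p | p.2 ∈ W ∧ ‖p.2‖ ≤ R ∧
      InnerProductGeometry.angle p.1 p.2 ≤ φ} with hP
  have hPm : MeasurableSet P := (measurable_fst hBm).inter (E5_meas_pair R φ hW)
  have hne := E5_ae_ne hd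
  have h1 : (volume.prod volume : Measure (Eu d × Eu d)) P = κ * volume W := by
    rw [Measure.prod_apply_symm hPm]
    have h2 : ∀ᵐ y : Eu d ∂volume, volume ((fun w => (w, y)) ⁻¹' P) = W.indicator (fun _ => κ) y := by
      filter_upwards [hne] with y hy
      by_cases hyW : y ∈ W
      · rw [indicator_of_mem hyW, ← hκ y hy]
        congr 1
        ext w
        have hyR : ‖y‖ ≤ R := by simpa [hB] using hWR hyW
        simp only [hP, mem_preimage, mem_inter_iff, mem_ofPred_eq, cone, hB,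
          mem_closedBall_zero_iff]
        constructor
        · rintro ⟨ha, -, -, hb⟩
          exact ⟨ha, by rwa [InnerProductGeometry.angle_comm]⟩
        · rintro ⟨ha, hb⟩
          exact ⟨ha, hyW, hyR, by rwa [InnerProductGeometry.angle_comm]⟩
      · rw [indicator_of_notMem hyW]
        have h3 : (fun w => (w, y)) ⁻¹' P = ∅ := by
          ext w
          simp only [hP, mem_preimage, mem_inter_iff, mem_ofPred_eq, mem_empty_iff_false,
            iff_false]
          rintro ⟨-, h4, -⟩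
          exact hyW h4
        rw [h3, measure_empty]
    rw [lintegral_congr_ae h2, lintegral_indicator_const hW]
  have h2 : (volume.prod volume : Measure (Eu d × Eu d)) P ≤
      κ * volume Wm + δ / 2 * κ * volume B := by
    rw [Measure.prod_apply hPm]
    calc ∫⁻ w : Eu d, volume (Prod.mk w ⁻¹' P)
        ≤ ∫⁻ w : Eu d, (Wm.indicator (fun _ => κ) w + B.indicator (fun _ => δ / 2 * κ) w) := by
          refine lintegral_mono_ae ?_
          filter_upwards [hne] with w hw
          by_cases hwB : w ∈ B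
          · have h3 : volume (Prod.mk w ⁻¹' P) = volume (W ∩ cone R w φ) := by
              congr 1
              ext y
              simp only [hP, mem_preimage, mem_inter_iff, mem_ofPred_eq, cone]
              constructor
              · rintro ⟨-, ha⟩
                exact ha
              · intro ha
                exact ⟨hwB, ha⟩
            rw [h3]
            by_cases hwm : w ∈ Wm
            · rw [indicator_of_mem hwm]
              refine le_trans ?_ le_self_add
              rw [← hκ w hw]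
              exact measure_mono inter_subset_right
            · rw [indicator_of_notMem hwm, indicator_of_mem hwB, zero_add]
              by_contra hcon
              exact hwm ⟨hwB, (not_le.1 hcon).le⟩
          · have h3 : Prod.mk w ⁻¹' P = ∅ := by
              ext y
              simp only [hP, mem_preimage, mem_inter_iff, mem_ofPred_eq, mem_empty_iff_false,
                iff_false]
              rintro ⟨h4, -⟩
              exact hwB h4
            rw [h3, measure_empty]
            exact bot_le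
      _ = κ * volume Wm + δ / 2 * κ * volume B := by
          rw [lintegral_add_left ((measurable_const).indicator hWmm),
            lintegral_indicator_const hWmm, lintegral_indicator_const hBm]
  have h3 : κ * (δ * volume B) ≤ κ * (volume Wm + δ / 2 * volume B) := by
    calc κ * (δ * volume B) ≤ κ * volume W := by gcongr
      _ = (volume.prod volume : Measure (Eu d × Eu d)) P := h1.symm
      _ ≤ κ * volume Wm + δ / 2 * κ * volume B := h2
      _ = κ * (volume Wm + δ / 2 * volume B) := by ring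
  have h4 : δ * volume B ≤ volume Wm + δ / 2 * volume B :=
    (ENNReal.mul_le_mul_iff_right hκ0 hκ1).1 h3
  have hδfin : δ / 2 * volume B ≠ ∞ := by
    refine ENNReal.mul_ne_top ?_ hBfin
    exact (ENNReal.div_lt_top (ne_top_of_le_ne_top ENNReal.one_ne_top hδ) two_ne_zero).ne
  have h5 : δ * volume B = δ / 2 * volume B + δ / 2 * volume B := by
    rw [← add_mul, ENNReal.add_halves]
  rw [h5] at h4
  exact (ENNReal.add_le_add_iff_right hδfin).1 h4

theorem measurable_cone_inter {d : ℕ} (R θ : ℝ) {W : Set (Eu d)} (hW : MeasurableSet W) :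
    Measurable fun z : Eu d => volume (W ∩ cone R z θ) := E5_cone_inter R θ hW

/-- Let `Z` be the set on the left and `Wm` as in `dbl`. Suppose `|Z| > η |𝔹|`. If all
`z ∈ Z`, `w ∈ Wm` had `‖z - w‖ ≥ r = R φ³/4` then `conc` (`r²/(4R²) = φ⁶/64`) would give
`|Z| |Wm| ≤ (1 - φ⁶/64)^d |𝔹|² < (δ/2) η |𝔹|²`, against `|Wm| ≥ (δ/2)|𝔹|`. Take `z`, `w` with
`‖z - w‖ < r`: `angle z w ≤ φ³` (`angle_small`), `cone R w φ ⊆ cone R z (φ + φ³)` (`cone_sub`),
so `δ/2 κ ≤ |W ∩ cone R w φ| ≤ |W ∩ cone R z (φ + φ³)| < δ/2 κ`, a contradiction. -/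
theorem iso {d : ℕ} (hd : 1 ≤ d) {R φ : ℝ} (hR : 0 < R) (hφ : 0 < φ) (hφ4 : φ ≤ 1 / 4)
    {δ η κ : ℝ≥0∞} (hκ0 : κ ≠ 0) (hκ1 : κ ≠ ∞) (hδ : δ ≤ 1)
    (hκ : ∀ x : Eu d, x ≠ 0 → volume (cone R x φ) = κ)
    (hc : ENNReal.ofReal ((1 - φ ^ 6 / 64) ^ d) < δ / 2 * η) {W : Set (Eu d)}
    (hW : MeasurableSet W) (hWR : W ⊆ Metric.closedBall 0 R)
    (hWδ : δ * volume (Metric.closedBall (0 : Eu d) R) ≤ volume W) :
    volume {z | z ∈ Metric.closedBall (0 : Eu d) R ∧ R / 2 ≤ ‖z‖ ∧
      volume (W ∩ cone R z (φ + φ ^ 3)) < δ / 2 * κ} ≤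
      η * volume (Metric.closedBall (0 : Eu d) R) := by
  by_contra hcon
  push Not at hcon
  have hdbl := dbl hd hκ0 hκ1 hδ hκ hW hWR hWδ
  set B : Set (Eu d) := Metric.closedBall 0 R with hB
  set Z : Set (Eu d) := {z | z ∈ B ∧ R / 2 ≤ ‖z‖ ∧
    volume (W ∩ cone R z (φ + φ ^ 3)) < δ / 2 * κ} with hZ
  set Wm : Set (Eu d) := {w | w ∈ B ∧ δ / 2 * κ ≤ volume (W ∩ cone R w φ)} with hWm
  have hBm : MeasurableSet B := Metric.isClosed_closedBall.measurableSet
  have hBfin : volume B ≠ ∞ := (measure_closedBall_lt_top).ne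
  have hBpos : volume B ≠ 0 := (Metric.measure_closedBall_pos volume _ hR).ne'
  have hWmm : MeasurableSet Wm :=
    hBm.inter (measurableSet_le measurable_const (E5_cone_inter R φ hW))
  have hZm : MeasurableSet Z :=
    hBm.inter ((measurableSet_le measurable_const measurable_norm).inter
      (measurableSet_lt (E5_cone_inter R _ hW) measurable_const))
  by_cases hsep : ∀ z ∈ Z, ∀ w ∈ Wm, R * φ ^ 3 / 4 ≤ ‖z - w‖
  · have hφ1 : φ ^ 3 ≤ 1 := pow_le_one₀ hφ.le (by linarith)
    have h1 := conc hR (r := R * φ ^ 3 / 4) (by positivity) (by nlinarith) hZm hWmm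
      (fun z hz => hz.1) (fun w hw => hw.1) hsep
    have h2 : (R * φ ^ 3 / 4) ^ 2 / (4 * R ^ 2) = φ ^ 6 / 64 := by
      field_simp
      ring
    rw [h2] at h1
    have h3 : δ / 2 * η * volume B ^ 2 ≤ volume Z * volume Wm := by
      calc δ / 2 * η * volume B ^ 2 = (η * volume B) * (δ / 2 * volume B) := by ring
        _ ≤ volume Z * volume Wm := mul_le_mul' hcon.le hdbl
    have h4 : ENNReal.ofReal ((1 - φ ^ 6 / 64) ^ d) * volume B ^ 2 <
        δ / 2 * η * volume B ^ 2 := by
      rw [mul_comm _ (volume B ^ 2), mul_comm _ (volume B ^ 2)]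
      exact ENNReal.mul_lt_mul_right (pow_ne_zero 2 hBpos) (ENNReal.pow_ne_top hBfin) hc
    exact absurd (h3.trans h1) (not_le.2 h4)
  · push Not at hsep
    obtain ⟨z, hz, w, hw, hzw⟩ := hsep
    have h1 := angle_small hR hφ hφ4 hz.2.1 hzw
    have h2 : cone R w φ ⊆ cone R z (φ + φ ^ 3) := cone_sub h1
    have h3 : δ / 2 * κ ≤ volume (W ∩ cone R z (φ + φ ^ 3)) :=
      hw.2.trans (measure_mono (inter_subset_inter_right _ h2))
    exact absurd hz.2.2 (not_lt.2 h3)

end Pool.Agent.Helper6.HD
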