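import Pool.Agent.Helper6.HD.Defs

/-!
# PIECE HD-E6: random covering, abstract form
-/

open MeasureTheory Set
open scoped ENNReal

namespace Pool.Agent.Helper6.HD

private theorem E6_meas {S : Type*} [MeasurableSpace S] (ν : Measure S) [IsFiniteMeasure ν]
    (B : S → Set S) (hB : MeasurableSet {p : S × S | p.2 ∈ B p.1}) (N : ℕ) {W : Set S}
    (hW : MeasurableSet W) (δ' : ℝ≥0∞) :
    MeasurableSet {x : Fin N → S | δ' ≤ ν (W \ ⋃ i, B (x i))} := by
  have h1 : MeasurableSet {p : (Fin N → S) × S | p.2 ∈ W \ ⋃ i, B (p.1 i)} := by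
    have h2 : {p : (Fin N → S) × S | p.2 ∈ W \ ⋃ i, B (p.1 i)} =
        (Prod.snd ⁻¹' W) \ ⋃ i, (fun p : (Fin N → S) × S => (p.1 i, p.2)) ⁻¹'
          {p : S × S | p.2 ∈ B p.1} := by
      ext p
      simp
    rw [h2]
    refine (measurable_snd hW).diff (MeasurableSet.iUnion fun i => ?_)
    exact (((measurable_pi_apply i).comp measurable_fst).prodMk measurable_snd) hB
  have h2 := measurable_measure_prodMk_left (ν := ν) h1
  exact measurableSet_le measurable_const h2

/-- Induction on `N`, for all `j` and `W`. `N = 0`: the left side is at most `1 ≤ (η⁻¹)^j`.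
`N + 1`: if `ν W < δ'` the set is empty, so assume `δ' ≤ ν W` (then `j ≥ 1` because `ν W > 0`).
Fubini (`measurePreserving_piFinSuccAbove` at `0`): the measure is `∫ x, (measure of the set for
`N` and `W \ B x`) dν`. For the `x` with `ν (W ∩ B x) < g` (measure at most `η A`) bound the
integrand by induction with the same `j`; for the others `ν (W \ B x) ≤ ν W - g ≤ (j - 1) g`, use
`j - 1`: total at most `(2ηA)^N (η⁻¹)^j (η A + ν univ * η) ≤ (2ηA)^(N+1) (η⁻¹)^j`. -/
theorem cover {S : Type*} [MeasurableSpace S] (ν : Measure S) [IsFiniteMeasure ν] (B : S → Set S)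
    (hB : MeasurableSet {p : S × S | p.2 ∈ B p.1}) {δ' g η A : ℝ≥0∞} (hδ : δ' ≠ 0)
    (hg : g ≠ ∞) (hη0 : η ≠ 0) (hη1 : η ≤ 1) (hA : ν univ ≤ A) (hA1 : A ≠ ∞)
    (H : ∀ W : Set S, MeasurableSet W → δ' ≤ ν W → ν {x | ν (W ∩ B x) < g} ≤ η * A) :
    ∀ (N j : ℕ) (W : Set S), MeasurableSet W → ν W ≤ j * g →
      (Measure.pi fun _ : Fin N => ν) {x | δ' ≤ ν (W \ ⋃ i, B (x i))} ≤
        (2 * η * A) ^ N * (η⁻¹) ^ j := by
  have hη2 : η ≠ ∞ := ne_top_of_le_ne_top ENNReal.one_ne_top hη1
  have hBx : ∀ x, MeasurableSet (B x) := fun x => measurable_prodMk_left hB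
  intro N
  induction N with
  | zero =>
    intro j W hW hj
    calc (Measure.pi fun _ : Fin 0 => ν) {x | δ' ≤ ν (W \ ⋃ i, B (x i))}
        ≤ (Measure.pi fun _ : Fin 0 => ν) univ := measure_mono (subset_univ _)
      _ = 1 := by rw [Measure.pi_univ]; simp
      _ ≤ (2 * η * A) ^ 0 * (η⁻¹) ^ j := by
          rw [pow_zero, one_mul]
          exact one_le_pow₀ (ENNReal.one_le_inv.2 hη1)
  | succ N ih =>
    intro j W hW hj
    by_cases hWδ : δ' ≤ ν W
    · obtain ⟨i, rfl⟩ : ∃ i, j = i + 1 := by
        refine ⟨j - 1, ?_⟩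
        have : j ≠ 0 := by
          rintro rfl
          rw [Nat.cast_zero, zero_mul] at hj
          exact hδ (le_antisymm (hWδ.trans hj) bot_le)
        omega
      have hmp := measurePreserving_piFinSuccAbove (fun _ : Fin (N + 1) => ν) 0
      have hE := E6_meas ν B hB (N + 1) hW δ'
      have hT : MeasurableSet {x | ν (W ∩ B x) < g} := by
        have h1 : MeasurableSet {p : S × S | p.2 ∈ W ∩ B p.1} :=
          (measurable_snd hW).inter hB
        exact measurableSet_lt (measurable_measure_prodMk_left (ν := ν) h1) measurable_const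
      have h2 : (Measure.pi fun _ : Fin (N + 1) => ν) {x | δ' ≤ ν (W \ ⋃ i, B (x i))} =
          (ν.prod (Measure.pi fun _ : Fin N => ν))
            ((MeasurableEquiv.piFinSuccAbove (fun _ : Fin (N + 1) => S) 0).symm ⁻¹'
              {x | δ' ≤ ν (W \ ⋃ i, B (x i))}) := by
        rw [← hmp.map_eq, MeasurableEquiv.map_apply, ← preimage_comp]
        congr 1
        ext x
        simp
      rw [h2, Measure.prod_apply (MeasurableEquiv.measurable _ hE)]
      have h3 : ∀ x : S, (Measure.pi fun _ : Fin N => ν) (Prod.mk x ⁻¹'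
          ((MeasurableEquiv.piFinSuccAbove (fun _ : Fin (N + 1) => S) 0).symm ⁻¹'
              {x | δ' ≤ ν (W \ ⋃ i, B (x i))})) =
          (Measure.pi fun _ : Fin N => ν) {y | δ' ≤ ν ((W \ B x) \ ⋃ i, B (y i))} := by
        intro x
        congr 1
        ext y
        simp only [mem_preimage, mem_ofPred_eq]
        have h4 : (W \ ⋃ i, B (((MeasurableEquiv.piFinSuccAbove (fun _ : Fin (N + 1) => S)
            0).symm (x, y)) i)) = (W \ B x) \ ⋃ i, B (y i) := by
          rw [diff_diff]
          congr 1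
          ext z
          simp only [mem_iUnion, mem_union]
          constructor
          · rintro ⟨i, hi⟩
            refine Fin.cases ?_ (fun i => ?_) i (motive := fun i =>
              z ∈ B (((MeasurableEquiv.piFinSuccAbove (fun _ : Fin (N + 1) => S)
                0).symm (x, y)) i) → (z ∈ B x ∨ ∃ i, z ∈ B (y i))) hi
            · intro h
              left
              simpa [MeasurableEquiv.piFinSuccAbove] using h
            · intro h
              right
              exact ⟨i, by simpa [MeasurableEquiv.piFinSuccAbove] using h⟩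
          · rintro (h | ⟨i, h⟩)
            · exact ⟨0, by simpa [MeasurableEquiv.piFinSuccAbove] using h⟩
            · exact ⟨i.succ, by simpa [MeasurableEquiv.piFinSuccAbove] using h⟩
        rw [h4]
      simp only [h3]
      have h4 : ∀ x : S, (Measure.pi fun _ : Fin N => ν)
          {y | δ' ≤ ν ((W \ B x) \ ⋃ i, B (y i))} ≤
          {x | ν (W ∩ B x) < g}.indicator (fun _ => (2 * η * A) ^ N * (η⁻¹) ^ (i + 1)) x +
            (2 * η * A) ^ N * (η⁻¹) ^ i := by
        intro x
        by_cases hx : ν (W ∩ B x) < g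
        · rw [indicator_of_mem (by exact hx)]
          refine le_add_right (ih (i + 1) (W \ B x) (hW.diff (hBx x)) ?_)
          exact (measure_mono diff_subset).trans hj
        · rw [indicator_of_notMem (by exact hx), zero_add]
          refine ih i (W \ B x) (hW.diff (hBx x)) ?_
          push Not at hx
          have h5 : ν (W \ B x) + g ≤ (i : ℝ≥0∞) * g + g := by
            calc ν (W \ B x) + g ≤ ν (W \ B x) + ν (W ∩ B x) := by gcongr
              _ = ν W := measure_diff_add_inter W (hBx x)
              _ ≤ ((i + 1 : ℕ) : ℝ≥0∞) * g := hj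
              _ = (i : ℝ≥0∞) * g + g := by push_cast; ring
          exact (ENNReal.add_le_add_iff_right hg).1 h5
      refine (lintegral_mono h4).trans ?_
      rw [lintegral_add_right _ measurable_const, lintegral_indicator_const hT,
        lintegral_const]
      have h5 : (η⁻¹) ^ i = (η⁻¹) ^ (i + 1) * η := by
        rw [pow_succ, mul_assoc, ENNReal.inv_mul_cancel hη0 hη2, mul_one]
      calc (2 * η * A) ^ N * η⁻¹ ^ (i + 1) * ν {x | ν (W ∩ B x) < g} +
            (2 * η * A) ^ N * η⁻¹ ^ i * ν univ
          ≤ (2 * η * A) ^ N * η⁻¹ ^ (i + 1) * (η * A) +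
            (2 * η * A) ^ N * (η⁻¹ ^ (i + 1) * η) * A := by
              rw [← h5]
              gcongr
              exact H W hW hWδ
        _ = (2 * η * A) ^ (N + 1) * η⁻¹ ^ (i + 1) := by ring
    · have h1 : {x : Fin (N + 1) → S | δ' ≤ ν (W \ ⋃ i, B (x i))} = ∅ := by
        rw [eq_empty_iff_forall_notMem]
        intro x hx
        exact hWδ (le_trans hx (measure_mono diff_subset))
      rw [h1, measure_empty]
      exact bot_le

end Pool.Agent.Helper6.HD
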