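import Pool.Agent.Helper6.HD.E6

/-!
# PIECE HD-E7: pairs of tuples without an edge, abstract form
-/

open MeasureTheory Set
open scoped ENNReal

namespace Pool.Agent.Helper6.HD

/-- For fixed `x` the inner integral is `ν (univ \ ⋃ i, B (x i)) ^ N` with `B u = {v | adj u v}`
(product set in the product measure, `Measure.pi_pi`). Split the outer integral according to
`δ' ≤ ν (univ \ ⋃ ..)` (measure at most `(2ηA)^N (η⁻¹)^j` by `cover` with `W = univ`; the
integrand is at most `A ^ N`) or not (integrand at most `δ' ^ N`, measure at most `A ^ N`). -/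
theorem Lam_le {S : Type*} [MeasurableSpace S] (ν : Measure S) [IsFiniteMeasure ν]
    (adj : S → S → Prop) (hB : MeasurableSet {p : S × S | adj p.1 p.2}) {δ' g η A : ℝ≥0∞}
    (hδ : δ' ≠ 0) (hg : g ≠ ∞) (hη0 : η ≠ 0) (hη1 : η ≤ 1) (hA : ν univ ≤ A) (hA1 : A ≠ ∞)
    (H : ∀ W : Set S, MeasurableSet W → δ' ≤ ν W → ν {x | ν (W ∩ {y | adj x y}) < g} ≤ η * A)
    (N j : ℕ) (hj : A ≤ j * g) :
    Lam ν N adj ≤ A ^ N * ((2 * η * A) ^ N * (η⁻¹) ^ j) + A ^ N * δ' ^ N := by
  classical
  have hBm : ∀ u : S, MeasurableSet {v : S | adj u v} := fun u => by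
    have h := (measurable_prodMk_left (x := u) : Measurable (Prod.mk u : S → S × S)) hB
    exact h
  set F : (Fin N → S) → ℝ≥0∞ := fun x => ν (univ \ ⋃ i, {v : S | adj (x i) v}) with hF
  have hWm : ∀ x : Fin N → S, MeasurableSet (univ \ ⋃ i, {v : S | adj (x i) v}) := fun x =>
    MeasurableSet.univ.diff (MeasurableSet.iUnion fun i => hBm (x i))
  have hin : ∀ x : Fin N → S, ∫⁻ y : Fin N → S, Helper97.BG.ind (∀ i j, ¬ adj (x i) (y j))
      ∂(Measure.pi fun _ => ν) = F x ^ N := by
    intro x
    have e1 : (fun y : Fin N → S => Helper97.BG.ind (∀ i j, ¬ adj (x i) (y j))) =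
        (Set.pi univ fun _ : Fin N => (univ \ ⋃ i, {v : S | adj (x i) v})).indicator 1 := by
      funext y
      by_cases h : ∀ i j, ¬ adj (x i) (y j)
      · rw [Set.indicator_of_mem]
        · unfold Pool.Agent.Helper97.BG.ind
          rw [if_pos h]
          rfl
        · intro j _
          refine ⟨mem_univ _, ?_⟩
          rw [mem_iUnion]
          rintro ⟨i, hi⟩
          exact h i j hi
      · rw [Set.indicator_of_notMem]
        · unfold Pool.Agent.Helper97.BG.ind
          rw [if_neg h]
        · intro hy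
          apply h
          intro i j hij
          exact (hy j (mem_univ _)).2 (mem_iUnion.2 ⟨i, hij⟩)
    rw [e1, lintegral_indicator_one (MeasurableSet.univ_pi fun _ => hWm x), Measure.pi_pi,
      Finset.prod_const, Finset.card_univ, Fintype.card_fin]
  have hFA : ∀ x, F x ≤ A := fun x => (measure_mono (subset_univ _)).trans hA
  have hcov := cover ν (fun u => {v : S | adj u v}) hB hδ hg hη0 hη1 hA hA1 H N j univ
    MeasurableSet.univ (hA.trans hj)
  have hpt : ∀ x : Fin N → S, F x ^ N ≤
      {x : Fin N → S | δ' ≤ F x}.indicator (fun _ => A ^ N) x + δ' ^ N := by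
    intro x
    by_cases h : δ' ≤ F x
    · rw [Set.indicator_of_mem (show x ∈ {x : Fin N → S | δ' ≤ F x} from h)]
      exact (pow_le_pow_left' (hFA x) N).trans le_self_add
    · rw [Set.indicator_of_notMem (show x ∉ {x : Fin N → S | δ' ≤ F x} from h), zero_add]
      exact pow_le_pow_left' (not_le.1 h).le N
  unfold Lam
  simp only [hin]
  calc ∫⁻ x : Fin N → S, F x ^ N ∂(Measure.pi fun _ => ν)
      ≤ ∫⁻ x : Fin N → S, ({x : Fin N → S | δ' ≤ F x}.indicator (fun _ => A ^ N) x + δ' ^ N)
          ∂(Measure.pi fun _ => ν) := lintegral_mono hpt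
    _ = ∫⁻ x : Fin N → S, {x : Fin N → S | δ' ≤ F x}.indicator (fun _ => A ^ N) x
          ∂(Measure.pi fun _ => ν) + ∫⁻ _x : Fin N → S, δ' ^ N ∂(Measure.pi fun _ => ν) :=
        lintegral_add_right _ measurable_const
    _ ≤ A ^ N * ((2 * η * A) ^ N * (η⁻¹) ^ j) + A ^ N * δ' ^ N := by
        refine add_le_add ((lintegral_indicator_const_le _ _).trans ?_) ?_
        · exact mul_le_mul_right hcov _
        · rw [lintegral_const, Measure.pi_univ, Finset.prod_const, Finset.card_univ,
            Fintype.card_fin, mul_comm]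
          exact mul_le_mul_left (pow_le_pow_left' hA N) _

end Pool.Agent.Helper6.HD
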