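import Pool.Agent.Helper6.HD.E4
import Pool.Agent.Helper6.HD.E5
import Pool.Agent.Helper6.HD.E7

/-!
# PIECE HD-E8: pairs of tuples without an edge in the shell
-/

open MeasureTheory Set
open scoped ENNReal

namespace Pool.Agent.Helper6.HD

/-- `Lam_le` with `ν = volume.restrict (shell d R φ)`, `adj u v ↔ ‖u - v‖ < R φ (1 + 2φ²)`,
`A` = volume of the closed ball `𝔹` of radius `R`, `δ' = δ A`, `g = δ/2 κ`. The hypothesis `H`:
for measurable `W` put `W' = W ∩ shell`, so `ν W = volume W'` and `W' ⊆ 𝔹`. If `x ∈ shell` then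
`‖x‖ ≥ R/2` and `W' ∩ cone R x (φ + φ³) ⊆ W' ∩ {y | adj x y}` by `adj_shell`, so
`ν {x | ν (W ∩ {y | adj x y}) < g} ≤ volume {z ∈ 𝔹, R/2 ≤ ‖z‖, volume (W' ∩ cone R z (φ+φ³)) < g}
≤ η A` by `iso`. -/
theorem Lam_shell {d : ℕ} (hd : 1 ≤ d) {R φ : ℝ} (hR : 0 < R) (hφ : 0 < φ) (hφ4 : φ ≤ 1 / 4)
    {δ η κ : ℝ≥0∞} (hκ0 : κ ≠ 0) (hκ1 : κ ≠ ∞) (hδ0 : δ ≠ 0) (hδ : δ ≤ 1) (hη0 : η ≠ 0)
    (hη1 : η ≤ 1) (hκ : ∀ x : Eu d, x ≠ 0 → volume (cone R x φ) = κ)
    (hc : ENNReal.ofReal ((1 - φ ^ 6 / 64) ^ d) < δ / 2 * η) (N j : ℕ)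
    (hj : volume (Metric.closedBall (0 : Eu d) R) ≤ j * (δ / 2 * κ)) :
    Lam (volume.restrict (shell d R φ)) N (fun u v => ‖u - v‖ < R * (φ * (1 + 2 * φ ^ 2))) ≤
      volume (Metric.closedBall (0 : Eu d) R) ^ (2 * N) * ((2 * η) ^ N * (η⁻¹) ^ j + δ ^ N) := by
  set A : ℝ≥0∞ := volume (Metric.closedBall (0 : Eu d) R) with hA
  have hA1 : A ≠ ∞ := (isCompact_closedBall (0 : Eu d) R).measure_lt_top.ne
  have hA0 : A ≠ 0 := (Metric.measure_closedBall_pos volume (0 : Eu d) hR).ne'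
  have hsh : shell d R φ ⊆ Metric.closedBall 0 R := by
    intro x hx
    rw [mem_closedBall_zero_iff]
    exact hx.2
  have hms : MeasurableSet (shell d R φ) := by
    unfold shell
    exact (measurableSet_le measurable_const measurable_norm).inter
      (measurableSet_le measurable_norm measurable_const)
  have hvA : volume (shell d R φ) ≤ A := measure_mono hsh
  have hfin : IsFiniteMeasure (volume.restrict (shell d R φ)) := by
    refine ⟨?_⟩
    rw [Measure.restrict_apply_univ]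
    exact lt_of_le_of_lt hvA hA1.lt_top
  have hB : MeasurableSet {p : Eu d × Eu d | ‖p.1 - p.2‖ < R * (φ * (1 + 2 * φ ^ 2))} :=
    measurableSet_lt (measurable_fst.sub measurable_snd).norm measurable_const
  have h1 := Lam_le (volume.restrict (shell d R φ))
    (fun u v : Eu d => ‖u - v‖ < R * (φ * (1 + 2 * φ ^ 2))) hB (δ' := δ * A) (g := δ / 2 * κ)
    (η := η) (A := A) (mul_ne_zero hδ0 hA0)
    (ENNReal.mul_ne_top (ENNReal.div_ne_top (ne_top_of_le_ne_top ENNReal.one_ne_top hδ)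
      (by norm_num)) hκ1) hη0 hη1 (by rw [Measure.restrict_apply_univ]; exact hvA) hA1 (by
      intro W hW hWδ
      rw [Measure.restrict_apply hW] at hWδ
      have h2 := iso hd hR hφ hφ4 hκ0 hκ1 hδ hκ hc (hW.inter hms)
        (Set.inter_subset_right.trans hsh) hWδ
      refine le_trans ?_ h2
      rw [Measure.restrict_apply' hms]
      apply measure_mono
      rintro x ⟨hx1, hx2⟩
      refine ⟨hsh hx2, ?_, ?_⟩
      · have h3 := hx2.1
        have h5 : φ ^ 2 ≤ 1 / 2 := by nlinarith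
        have h4 : R / 2 ≤ (1 - φ ^ 2) * R := by nlinarith [mul_le_mul_of_nonneg_right h5 hR.le]
        exact h4.trans h3
      · refine lt_of_le_of_lt ?_ hx1
        rw [Measure.restrict_apply' hms]
        apply measure_mono
        rintro y ⟨⟨hy1, hy2⟩, hy3⟩
        exact ⟨⟨hy1, adj_shell hR hφ hφ4 hx2 hy2 hy3.2⟩, hy2⟩) N j hj
  refine h1.trans (le_of_eq ?_)
  rw [mul_pow, mul_pow, two_mul N, pow_add]
  ring

end Pool.Agent.Helper6.HD
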