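import Pool.Agent.Helper6.HD.Defs

/-!
# PIECE HD-E9: numerical facts
-/

namespace Pool.Agent.Helper6.HD

theorem dl_pos {k : ℕ} (hk : 1 ≤ k) : 0 < dl k := by
  have : (0 : ℝ) < k := by exact_mod_cast hk
  unfold dl
  positivity

theorem dl_le_one {k : ℕ} (hk : 1 ≤ k) : dl k ≤ 1 := by
  have h1 : (1 : ℝ) ≤ k := by exact_mod_cast hk
  unfold dl
  rw [div_le_one (by positivity)]
  have h2 : Real.exp (-3) ≤ 1 := Real.exp_le_one_iff.2 (by norm_num)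
  nlinarith

private theorem E9_log_pos {d : ℕ} (hd : 2 ≤ d) : 0 < Real.log d := by
  apply Real.log_pos
  have : (2 : ℝ) ≤ d := by exact_mod_cast hd
  linarith

private theorem E9_log_ge {d : ℕ} (hd : 2 ≤ d) : (69 : ℝ) / 100 ≤ Real.log d := by
  have h1 : Real.log 2 ≤ Real.log d := by
    apply Real.log_le_log (by norm_num)
    exact_mod_cast hd
  have h2 := Real.log_two_gt_d9
  linarith

/-- `exp (- m log d) = (d ^ m)⁻¹` -/
private theorem E9_exp {d : ℕ} (hd : 2 ≤ d) (m : ℕ) :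
    Real.exp ((m : ℝ) * Real.log d) = (d : ℝ) ^ m := by
  have h0 : (0 : ℝ) < d := by
    have : (2 : ℝ) ≤ d := by exact_mod_cast hd
    linarith
  rw [Real.exp_nat_mul, Real.exp_log h0]

private theorem E9_phi {φ : ℝ} (hφ : 0 < φ) (hφ4 : φ ≤ 1 / 4) :
    φ ^ 6 ≤ φ ^ 2 ∧ φ ^ 6 ≤ 1 / 4096 ∧ φ ^ 2 ≤ 1 / 16 := by
  refine ⟨?_, ?_, ?_⟩
  · exact pow_le_pow_of_le_one hφ.le (by linarith) (by norm_num)
  · calc φ ^ 6 ≤ (1 / 4) ^ 6 := by gcongr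
      _ = 1 / 4096 := by norm_num
  · calc φ ^ 2 ≤ (1 / 4) ^ 2 := by gcongr
      _ = 1 / 16 := by norm_num

private theorem E9_one_sub {x : ℝ} (hx1 : x ≤ 1) (d : ℕ) :
    (1 - x) ^ d ≤ Real.exp (-(x * d)) := by
  have h1 : 1 - x ≤ Real.exp (-x) := by
    have := Real.add_one_le_exp (-x)
    linarith
  calc (1 - x) ^ d ≤ (Real.exp (-x)) ^ d := by
        gcongr
    _ = Real.exp (-(x * d)) := by
        rw [← Real.exp_nat_mul]
        congr 1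
        ring

/-- `(1 - x)^d ≤ exp (-d x)`, `φ⁶ d / 64 ≥ (10000/64) log d`, so the left side is at most
`d^(-156)`; the right side is `dl k ^ 3 / 8 = e^(-9) 2^(-51) k^(-6) ≥ 2^(-64-3) d^(-6)`, and
`d ≥ 2`. -/
theorem num1 {d k : ℕ} {φ : ℝ} (hd : 2 ≤ d) (hk : 1 ≤ k) (hkd : k ≤ d) (hφ : 0 < φ)
    (hφ4 : φ ≤ 1 / 4) (h : 10000 * Real.log d ≤ φ ^ 6 * d) :
    (1 - φ ^ 6 / 64) ^ d < dl k / 2 * et k := by
  have hlog := E9_log_pos hd
  obtain ⟨-, h6, -⟩ := E9_phi hφ hφ4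
  have hd0 : (0 : ℝ) < d := by
    have : (2 : ℝ) ≤ d := by exact_mod_cast hd
    linarith
  have hd2 : (2 : ℝ) ≤ d := by exact_mod_cast hd
  have hk0 : (0 : ℝ) < k := by exact_mod_cast hk
  have hkd' : (k : ℝ) ≤ d := by exact_mod_cast hkd
  have h1 : (1 - φ ^ 6 / 64) ^ d ≤ Real.exp (-(φ ^ 6 / 64 * d)) :=
    E9_one_sub (by linarith) d
  have h2 : Real.exp (-(φ ^ 6 / 64 * d)) ≤ ((d : ℝ) ^ 156)⁻¹ := by
    rw [← E9_exp hd 156, ← Real.exp_neg]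
    apply Real.exp_le_exp.2
    push_cast
    linarith
  have h3 : dl k / 2 * et k = (Real.exp 9)⁻¹ / (2 ^ 51 * (k : ℝ) ^ 6) := by
    have h4 : Real.exp (-3) ^ 3 = (Real.exp 9)⁻¹ := by
      rw [← Real.exp_nat_mul, ← Real.exp_neg]
      norm_num
    unfold et dl
    rw [← h4]
    field_simp
    norm_num
  have h5 : Real.exp 9 < 8192 := by
    have h7 : Real.exp 9 = Real.exp 1 ^ 9 := by
      rw [← Real.exp_nat_mul]; norm_num
    rw [h7]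
    calc Real.exp 1 ^ 9 < 2.7182818286 ^ 9 := by
          gcongr
          exact Real.exp_one_lt_d9
      _ < 8192 := by norm_num
  rw [h3]
  refine lt_of_le_of_lt (h1.trans h2) ?_
  rw [inv_eq_one_div, inv_eq_one_div, div_div, div_lt_div_iff₀ (by positivity) (by positivity),
    one_mul, one_mul]
  calc Real.exp 9 * (2 ^ 51 * (k : ℝ) ^ 6) ≤ 8192 * (2 ^ 51 * (d : ℝ) ^ 6) := by gcongr
    _ = 2 ^ 64 * (d : ℝ) ^ 6 := by ring
    _ < 2 ^ 150 * (d : ℝ) ^ 6 := by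
        have : (0 : ℝ) < (d : ℝ) ^ 6 := by positivity
        nlinarith
    _ ≤ (d : ℝ) ^ 150 * (d : ℝ) ^ 6 := by gcongr
    _ = (d : ℝ) ^ 156 := by ring

/-- `(1 + 2φ²)^d ≥ exp (φ² d)` because `1 + x ≥ exp (x/2)` for `0 ≤ x ≤ 1`; and
`φ² d ≥ φ⁶ d ≥ 10000 log d`, so it is at least `d^10000`. -/
theorem num2 {d k : ℕ} {φ : ℝ} (hd : 2 ≤ d) (hk : 1 ≤ k) (hkd : k ≤ d) (hφ : 0 < φ)
    (hφ4 : φ ≤ 1 / 4) (h : 10000 * Real.log d ≤ φ ^ 6 * d) :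
    32768 * (k : ℝ) / dl k ≤ (1 + 2 * φ ^ 2) ^ d := by
  have hlog := E9_log_pos hd
  obtain ⟨h62, -, h2⟩ := E9_phi hφ hφ4
  have hd2 : (2 : ℝ) ≤ d := by exact_mod_cast hd
  have hd0 : (0 : ℝ) < d := by linarith
  have hk0 : (0 : ℝ) < k := by exact_mod_cast hk
  have hkd' : (k : ℝ) ≤ d := by exact_mod_cast hkd
  have h0 : 0 ≤ φ ^ 2 := by positivity
  have h3 : Real.exp (φ ^ 2) ≤ 1 + 2 * φ ^ 2 := by
    have h4 : 1 - φ ^ 2 ≤ Real.exp (-(φ ^ 2)) := by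
      have := Real.add_one_le_exp (-(φ ^ 2))
      linarith
    have h5 : 0 < 1 - φ ^ 2 := by linarith
    rw [Real.exp_neg] at h4
    have h6 : Real.exp (φ ^ 2) ≤ (1 - φ ^ 2)⁻¹ := by
      rw [le_inv_comm₀ (Real.exp_pos _) h5]
      exact h4
    refine h6.trans ?_
    rw [inv_le_iff_one_le_mul₀ h5]
    nlinarith
  have h4 : (d : ℝ) ^ 100 ≤ (1 + 2 * φ ^ 2) ^ d := by
    calc (d : ℝ) ^ 100 = Real.exp (((100 : ℕ) : ℝ) * Real.log d) := (E9_exp hd 100).symm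
      _ ≤ Real.exp (d * φ ^ 2) := by
          apply Real.exp_le_exp.2
          push_cast
          have : φ ^ 6 * d ≤ φ ^ 2 * d := by gcongr
          linarith
      _ = Real.exp (φ ^ 2) ^ d := by rw [Real.exp_nat_mul]
      _ ≤ (1 + 2 * φ ^ 2) ^ d := by gcongr
  have h5 : Real.exp 3 < 32 := by
    have h7 : Real.exp 3 = Real.exp 1 ^ 3 := by
      rw [← Real.exp_nat_mul]; norm_num
    rw [h7]
    calc Real.exp 1 ^ 3 < 2.7182818286 ^ 3 := by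
          gcongr
          exact Real.exp_one_lt_d9
      _ < 32 := by norm_num
  have h6 : 32768 * (k : ℝ) / dl k = Real.exp 3 * (2 ^ 31 * (k : ℝ) ^ 3) := by
    unfold dl
    rw [Real.exp_neg]
    field_simp
    norm_num
  rw [h6]
  refine le_trans ?_ h4
  calc Real.exp 3 * (2 ^ 31 * (k : ℝ) ^ 3) ≤ 32 * (2 ^ 31 * (d : ℝ) ^ 3) := by gcongr
    _ = 2 ^ 36 * (d : ℝ) ^ 3 := by ring
    _ ≤ (d : ℝ) ^ 36 * (d : ℝ) ^ 3 := by gcongr
    _ = (d : ℝ) ^ 39 := by ring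
    _ ≤ (d : ℝ) ^ 100 := by
        apply pow_le_pow_right₀ (by linarith) (by norm_num)

/-- `(1 - φ²/2)^d ≤ exp (-φ² d/2) ≤ exp (-5000 log d) ≤ 2^(-5000)`. -/
theorem num3 {d : ℕ} {φ : ℝ} (hd : 2 ≤ d) (hφ : 0 < φ) (hφ4 : φ ≤ 1 / 4)
    (h : 10000 * Real.log d ≤ φ ^ 6 * d) : (1 - φ ^ 2 / 2) ^ d ≤ 1 / 128 ∧ 1000000 ≤ d ∧
      1 / (d : ℝ) ≤ φ ^ 2 / 4 := by
  have hlog := E9_log_ge hd
  obtain ⟨h62, h6, h2⟩ := E9_phi hφ hφ4
  have hd2 : (2 : ℝ) ≤ d := by exact_mod_cast hd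
  have hd0 : (0 : ℝ) < d := by linarith
  have h3 : φ ^ 6 * d ≤ φ ^ 2 * d := by gcongr
  have h4 : φ ^ 6 * d ≤ 1 / 4096 * d := by gcongr
  refine ⟨?_, ?_, ?_⟩
  · refine (E9_one_sub (by linarith) d).trans ?_
    have h5 : (1 : ℝ) / 128 = Real.exp (-(7 * Real.log 2)) := by
      rw [Real.exp_neg]
      have : Real.exp (7 * Real.log 2) = 128 := by
        have h7 := Real.exp_nat_mul (Real.log 2) 7
        push_cast at h7
        rw [h7, Real.exp_log (by norm_num)]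
        norm_num
      rw [this]
      norm_num
    rw [h5]
    apply Real.exp_le_exp.2
    have h7 := Real.log_two_lt_d9
    linarith
  · have h5 : (1000000 : ℝ) ≤ d := by linarith
    exact_mod_cast h5
  · rw [div_le_iff₀ hd0]
    linarith

private theorem E9_four {d : ℕ} (hd : 20 ≤ d) : 1024 * d ^ 3 ≤ 4 ^ d := by
  induction d, hd using Nat.le_induction with
  | base => norm_num
  | succ n hn ih =>
    have h1 : (n + 1) ^ 3 ≤ 4 * n ^ 3 := by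
      nlinarith [mul_self_nonneg n, Nat.mul_le_mul hn hn]
    calc 1024 * (n + 1) ^ 3 ≤ 1024 * (4 * n ^ 3) := by gcongr
      _ = 4 * (1024 * n ^ 3) := by ring
      _ ≤ 4 * 4 ^ n := by gcongr
      _ = 4 ^ (n + 1) := by ring

private theorem E9_two {d : ℕ} (hd : 20 ≤ d) : 48 * d ≤ 2 ^ d := by
  induction d, hd using Nat.le_induction with
  | base => norm_num
  | succ n hn ih =>
    calc 48 * (n + 1) ≤ 2 * (48 * n) := by omega
      _ ≤ 2 * 2 ^ n := by gcongr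
      _ = 2 ^ (n + 1) := by ring

/-- `N ≥ 4^d/(512 d) ≥ 2 d²` and `log (48 (48 d)^d) = log 48 + d log (48 d) ≤ d²`. -/
theorem num4 {d N : ℕ} (hd : 1000 ≤ d) (h : (4 : ℝ) ^ d ≤ 512 * d * N) :
    8 * (48 * (d : ℝ)) ^ d * (3 * Real.exp (-(N : ℝ))) ≤ 1 / 2 := by
  have hd1 : (1000 : ℝ) ≤ d := by exact_mod_cast hd
  have hd0 : (0 : ℝ) < d := by linarith
  have h1 : (1024 : ℝ) * d ^ 3 ≤ 4 ^ d := by exact_mod_cast E9_four (by omega : 20 ≤ d)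
  have h2 : 2 * (d : ℝ) ^ 2 ≤ N := by
    have h3 : 512 * (d : ℝ) * (2 * (d : ℝ) ^ 2) ≤ 512 * (d : ℝ) * (N : ℝ) := by
      calc 512 * (d : ℝ) * (2 * (d : ℝ) ^ 2) = 1024 * (d : ℝ) ^ 3 := by ring
        _ ≤ 512 * (d : ℝ) * (N : ℝ) := h1.trans h
    exact le_of_mul_le_mul_left h3 (by positivity)
  have h3 : 48 * (d : ℝ) ≤ Real.exp d := by
    have h4 : (48 : ℝ) * d ≤ 2 ^ d := by exact_mod_cast E9_two (by omega : 20 ≤ d)
    have h5 : (2 : ℝ) ^ d ≤ Real.exp 1 ^ d := by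
      gcongr
      have := Real.add_one_le_exp (1 : ℝ)
      linarith
    rw [← Real.exp_nat_mul, mul_one] at h5
    linarith
  have h4 : (48 * (d : ℝ)) ^ d ≤ Real.exp ((d : ℝ) ^ 2) := by
    calc (48 * (d : ℝ)) ^ d ≤ (Real.exp d) ^ d := by gcongr
      _ = Real.exp ((d : ℝ) ^ 2) := by rw [← Real.exp_nat_mul]; ring_nf
  have h5 : (48 : ℝ) ≤ Real.exp ((d : ℝ) ^ 2) := by
    have := Real.add_one_le_exp ((d : ℝ) ^ 2)
    nlinarith
  have h6 : Real.exp ((d : ℝ) ^ 2) * Real.exp ((d : ℝ) ^ 2) ≤ Real.exp N := by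
    rw [← Real.exp_add]
    apply Real.exp_le_exp.2
    linarith
  have h7 : 48 * (48 * (d : ℝ)) ^ d ≤ Real.exp N := by
    refine le_trans ?_ h6
    gcongr
  rw [Real.exp_neg]
  have h8 : 8 * (48 * (d : ℝ)) ^ d * (3 * (Real.exp N)⁻¹) =
      (1 / 2) * ((48 * (48 * (d : ℝ)) ^ d) / Real.exp N) := by
    field_simp
    ring
  rw [h8]
  have h9 : (48 * (48 * (d : ℝ)) ^ d) / Real.exp N ≤ 1 := by
    rw [div_le_one (Real.exp_pos _)]
    exact h7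
  linarith

end Pool.Agent.Helper6.HD
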