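import Pool.Agent.Helper6.HD.Defs

/-!
# PIECE HD-L1: graphs without long paths are 2-colourable
-/

open MeasureTheory Set
open scoped ENNReal

namespace Pool.Agent.Helper6.HD

open Pool.Agent.Helper97.BG

/-- Graph on `Fin n`: `i ~ j` iff `i ≠ j` and `‖X i + X j‖ < a`. Let `b` be a chosen vertex of the
component of `v`. A path from `b` to `v` (`Walk.toPath`) has fewer than `M` edges, otherwise its
first `M + 1` vertices contradict `h`. So `nrm (X b) (X v) ≤ (M - 1) a` (`nrm_lt_of_adj`), and
`c v = tau (X b) (X v)` is a proper colouring (`tau_ne_of_adj` needs `nrm + a ≤ 1`). The colouring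
of the points: `Col_range_iff`. -/
theorem col_of_no_path {d n M : ℕ} {a : ℝ} (ha : 0 < a) (hM : 1 ≤ M) (hMa : M * a ≤ 1)
    (X : Fin n → Sph d)
    (h : ¬ ∃ σ : Fin (M + 1) ↪ Fin n, ∀ l : Fin M,
      ‖(X (σ l.castSucc) : V d) + X (σ l.succ)‖ < a) : Col a 2 (Set.range X) := by
  classical
  let G : SimpleGraph (Fin n) :=
    { Adj := fun i j => i ≠ j ∧ ‖(X i : V d) + X j‖ < a
      symm := ⟨fun i j h => ⟨h.1.symm, (congrArg norm (add_comm (X j : V d) (X i))).trans_lt h.2⟩⟩
      loopless := ⟨fun i h => h.1 rfl⟩ }
  have hw : ∀ {i j : Fin n} (p : G.Walk i j), ‖(X j : V d) - X i‖ ≤ p.length * a ∨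
      ‖(X j : V d) + X i‖ ≤ p.length * a := by
    intro i j p
    induction p with
    | nil =>
      left
      simp
    | @cons u w v h p ih =>
      have h2 : ‖(X u : V d) + X w‖ < a := h.2
      rw [SimpleGraph.Walk.length_cons]
      push_cast
      rcases ih with ih | ih
      · right
        have e : (X v : V d) + X u = ((X v : V d) - X w) + ((X u : V d) + X w) := by abel
        rw [e]
        exact (norm_add_le _ _).trans (by linarith)
      · left
        have e : (X v : V d) - X u = ((X v : V d) + X w) - ((X u : V d) + X w) := by abel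
        rw [e]
        exact (norm_sub_le _ _).trans (by linarith)
  let b : Fin n → Fin n := fun i => Quot.out (G.connectedComponentMk i)
  have hb : ∀ i, G.Reachable (b i) i := fun i =>
    SimpleGraph.ConnectedComponent.exact (Quot.out_eq (G.connectedComponentMk i))
  have hbadj : ∀ i j, G.Adj i j → b i = b j := fun i j h => by
    simp only [b]
    rw [SimpleGraph.ConnectedComponent.sound h.reachable]
  have hM1 : (1 : ℝ) ≤ M := by exact_mod_cast hM
  have hn : ∀ i, ‖(X i : V d) - X (b i)‖ ≤ (M - 1) * a ∨
      ‖(X i : V d) + X (b i)‖ ≤ (M - 1) * a := by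
    intro i
    obtain ⟨p, hp⟩ := (hb i).exists_isPath
    have hl : p.length + 1 ≤ M := by
      by_contra hcon
      push Not at hcon
      refine h ⟨⟨fun l => p.getVert l, ?_⟩, ?_⟩
      · intro l l' hll
        refine Fin.ext (hp.getVert_injOn ?_ ?_ hll)
        · have := l.2
          exact (by omega : (l : ℕ) ≤ p.length)
        · have := l'.2
          exact (by omega : (l' : ℕ) ≤ p.length)
      · intro l
        have h1 : (l : ℕ) < p.length := by
          have := l.2
          omega
        exact (p.adj_getVert_succ h1).2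
    have hl2 : (p.length : ℝ) ≤ M - 1 := by
      have : ((p.length + 1 : ℕ) : ℝ) ≤ M := by exact_mod_cast hl
      push_cast at this
      linarith
    have hl3 : (p.length : ℝ) * a ≤ (M - 1) * a := by gcongr
    rcases hw p with h1 | h1
    · exact Or.inl (h1.trans hl3)
    · exact Or.inr (h1.trans hl3)
  have hnorm : ∀ u : Sph d, ‖(u : V d)‖ = 1 := fun u => by simp
  have htwo : ∀ u : V d, ‖u + u‖ = 2 * ‖u‖ := fun u => by
    rw [← two_smul ℝ u, norm_smul]
    norm_num
  have ha1 : a ≤ 1 := by nlinarith
  refine ⟨fun u => if h : ∃ i, X i = u then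
    (if ‖(X h.choose : V d) - X (b h.choose)‖ ≤ (M - 1) * a then 0 else 1) else 0, ?_⟩
  intro u hu v hv huv
  have hu' : ∃ i, X i = u := hu
  have hv' : ∃ i, X i = v := hv
  simp only [dif_pos hu', dif_pos hv']
  have hi := hu'.choose_spec
  have hj := hv'.choose_spec
  set i := hu'.choose
  set j := hv'.choose
  have hij : i ≠ j := by
    intro h1
    have h2 : u = v := by rw [← hi, ← hj, h1]
    rw [h2, htwo, hnorm] at huv
    linarith
  have hadj : G.Adj i j := ⟨hij, by rw [hi, hj]; exact huv⟩
  have hbb := hbadj i j hadj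
  have hni := hn i
  have hnj := hn j
  rw [← hbb] at hnj ⊢
  rw [← hi, ← hj] at huv
  have hB := hnorm (X (b i))
  have hBB := htwo (X (b i) : V d)
  rw [hB] at hBB
  split_ifs with h1 h2 h2
  · exfalso
    have e : (X (b i) : V d) + X (b i) =
        ((X i : V d) + X j) - (((X i : V d) - X (b i)) + ((X j : V d) - X (b i))) := by abel
    have h3 := norm_sub_le ((X i : V d) + X j)
      (((X i : V d) - X (b i)) + ((X j : V d) - X (b i)))
    have h4 := norm_add_le ((X i : V d) - X (b i)) ((X j : V d) - X (b i))
    rw [← e, hBB] at h3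
    nlinarith
  · decide
  · decide
  · exfalso
    have h1' := hni.resolve_left h1
    have h2' := hnj.resolve_left h2
    have e : (X (b i) : V d) + X (b i) =
        (((X i : V d) + X (b i)) + ((X j : V d) + X (b i))) - ((X i : V d) + X j) := by abel
    have h3 := norm_sub_le (((X i : V d) + X (b i)) + ((X j : V d) + X (b i)))
      ((X i : V d) + X j)
    have h4 := norm_add_le ((X i : V d) + X (b i)) ((X j : V d) + X (b i))
    rw [← e, hBB] at h3
    nlinarith

end Pool.Agent.Helper6.HD
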