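import Pool.Agent.Helper6.HD.Defs

/-!
# PIECE HD-P1: Mecke inequality, fixed number of points
-/

open MeasureTheory Set
open scoped ENNReal

namespace Pool.Agent.Helper6.HD

open Pool.Agent.Helper97.BG

/-- Restriction to the coordinates in the image of an embedding. -/
private theorem P1_map {S ι : Type*} [MeasurableSpace S] [Fintype ι] (mu : Measure S)
    [IsFiniteMeasure mu] {n : ℕ} (ρ : ι ↪ Fin n) :
    Measure.map (fun (X : Fin n → S) (i : ι) => X (ρ i)) (Measure.pi fun _ => mu) =
      (mu univ) ^ (n - Fintype.card ι) • (Measure.pi fun _ : ι => mu) := by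
  classical
  have hf : Measurable (fun (X : Fin n → S) (i : ι) => X (ρ i)) :=
    measurable_pi_iff.2 fun i => measurable_pi_apply _
  have hrect : ∀ s : ι → Set S, (∀ i, MeasurableSet (s i)) →
      Measure.map (fun (X : Fin n → S) (i : ι) => X (ρ i)) (Measure.pi fun _ => mu) (pi univ s) =
        (mu univ) ^ (n - Fintype.card ι) * ∏ i, mu (s i) := by
    intro s hs
    rw [Measure.map_apply hf (MeasurableSet.univ_pi hs)]
    let t : Fin n → Set S := fun a => if h : ∃ i, ρ i = a then s h.choose else univ
    have ht1 : ∀ i, t (ρ i) = s i := by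
      intro i
      have h : ∃ j, ρ j = ρ i := ⟨i, rfl⟩
      have h1 : t (ρ i) = s h.choose := dif_pos h
      rw [h1, ρ.injective h.choose_spec]
    have ht2 : ∀ a, (¬ ∃ i, ρ i = a) → t a = univ := fun a h => dif_neg h
    have hpre : (fun (X : Fin n → S) (i : ι) => X (ρ i)) ⁻¹' (pi univ s) = pi univ t := by
      ext X
      simp only [mem_preimage, mem_pi, mem_univ, true_implies]
      constructor
      · intro h a
        by_cases ha : ∃ i, ρ i = a
        · obtain ⟨i, rfl⟩ := ha
          rw [ht1]
          exact h i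
        · rw [ht2 a ha]
          trivial
      · intro h i
        rw [← ht1]
        exact h (ρ i)
    rw [hpre, Measure.pi_pi, ← Finset.prod_mul_prod_compl (Finset.univ.map ρ)]
    rw [Finset.prod_map, mul_comm]
    congr 1
    · have h1 : ∀ a ∈ (Finset.univ.map ρ)ᶜ, mu (t a) = mu univ := by
        intro a ha
        rw [ht2]
        rintro ⟨i, hi⟩
        rw [Finset.mem_compl] at ha
        exact ha (Finset.mem_map.2 ⟨i, Finset.mem_univ _, hi⟩)
      rw [Finset.prod_congr rfl h1, Finset.prod_const, Finset.card_compl, Finset.card_map,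
        Fintype.card_fin, Finset.card_univ]
    · exact Finset.prod_congr rfl fun i _ => by rw [ht1]
  rcases eq_or_ne ((mu univ) ^ (n - Fintype.card ι)) 0 with h0 | h0
  · rw [h0, zero_smul]
    apply Measure.measure_univ_eq_zero.1
    have h1 := hrect (fun _ => univ) fun _ => MeasurableSet.univ
    rw [Set.pi_univ, h0, zero_mul] at h1
    exact h1
  · have htop : (mu univ) ^ (n - Fintype.card ι) ≠ ∞ := ENNReal.pow_ne_top (measure_ne_top _ _)
    have h1 : (Measure.pi fun _ : ι => mu) = ((mu univ) ^ (n - Fintype.card ι))⁻¹ •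
        Measure.map (fun (X : Fin n → S) (i : ι) => X (ρ i)) (Measure.pi fun _ => mu) := by
      refine Measure.pi_eq fun s hs => ?_
      rw [Measure.smul_apply, hrect s hs, smul_eq_mul, ← mul_assoc,
        ENNReal.inv_mul_cancel h0 htop, one_mul]
    conv_rhs => rw [h1]
    rw [smul_smul, ENNReal.mul_inv_cancel h0 htop, one_smul]

/-- For an embedding `ρ : ι ↪ Fin n` the map `X ↦ X ∘ ρ` sends `mu^n` to
`(mu univ)^(n - card ι) • mu^ι` (`Measure.pi` on `range ρ` and its complement,
`measurePreserving_piEquivPiSubtypeProd`, reindexing `measurePreserving_piCongrLeft`). There are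
`n.descFactorial (card ι)` embeddings (`Fintype.card_embedding_eq`). -/
theorem mecke_tup {S ι : Type*} [MeasurableSpace S] [Fintype ι] (mu : Measure S)
    [IsFiniteMeasure mu] {P : (ι → S) → Prop} (hP : MeasurableSet {x | P x}) (n : ℕ) :
    ∫⁻ X : Fin n → S, ∑ ρ : ι ↪ Fin n, ind (P fun i => X (ρ i)) ∂(Measure.pi fun _ => mu) =
      (n.descFactorial (Fintype.card ι) : ℝ≥0∞) * (mu univ) ^ (n - Fintype.card ι) *
        (Measure.pi fun _ : ι => mu) {x | P x} := by
  classical
  have hf : ∀ ρ : ι ↪ Fin n, Measurable (fun (X : Fin n → S) (i : ι) => X (ρ i)) :=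
    fun ρ => measurable_pi_iff.2 fun i => measurable_pi_apply _
  have hset : ∀ ρ : ι ↪ Fin n, MeasurableSet {X : Fin n → S | P fun i => X (ρ i)} :=
    fun ρ => hf ρ hP
  have hind : ∀ ρ : ι ↪ Fin n, (fun X : Fin n → S => ind (P fun i => X (ρ i))) =
      {X : Fin n → S | P fun i => X (ρ i)}.indicator 1 := by
    intro ρ
    funext X
    unfold ind
    by_cases h : P fun i => X (ρ i)
    · simp [h]
    · simp [h]
  have hone : ∀ ρ : ι ↪ Fin n,
      ∫⁻ X : Fin n → S, ind (P fun i => X (ρ i)) ∂(Measure.pi fun _ => mu) =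
        (mu univ) ^ (n - Fintype.card ι) * (Measure.pi fun _ : ι => mu) {x | P x} := by
    intro ρ
    have h1 := hind ρ
    rw [show (∫⁻ X : Fin n → S, ind (P fun i => X (ρ i)) ∂(Measure.pi fun _ => mu)) =
      ∫⁻ X : Fin n → S, {X : Fin n → S | P fun i => X (ρ i)}.indicator 1 X
        ∂(Measure.pi fun _ => mu) from by rw [← h1], lintegral_indicator_one (hset ρ)]
    have h2 : Measure.map (fun (X : Fin n → S) (i : ι) => X (ρ i)) (Measure.pi fun _ => mu)
        {x | P x} = (Measure.pi fun _ => mu) {X : Fin n → S | P fun i => X (ρ i)} :=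
      Measure.map_apply (hf ρ) hP
    rw [← h2, P1_map, Measure.smul_apply, smul_eq_mul]
  rw [lintegral_finsetSum]
  · simp only [hone]
    rw [Finset.sum_const, Finset.card_univ, Fintype.card_embedding_eq, Fintype.card_fin,
      nsmul_eq_mul, mul_assoc]
  · intro ρ _
    rw [hind ρ]
    exact measurable_one.indicator (hset ρ)

end Pool.Agent.Helper6.HD
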