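import Pool.Agent.Helper6.HD.L1
import Pool.Agent.Helper6.HD.P1
import Pool.Agent.Helper97.BG.St.V1

/-!
# PIECE HD-L2: first moment of the paths
-/

open MeasureTheory Set
open scoped ENNReal

namespace Pool.Agent.Helper6.HD

open Pool.Agent.Helper97.BG

/-- The event that consecutive points are adjacent is measurable. -/
private lemma l2_meas {d M : ℕ} (a : ℝ) :
    MeasurableSet {x : Fin (M + 1) → Sph d |
      ∀ l : Fin M, ‖(x l.castSucc : V d) + x l.succ‖ < a} := by
  rw [Set.setOf_forall]
  refine MeasurableSet.iInter fun l => ?_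
  refine IsOpen.measurableSet ?_
  refine isOpen_lt (Continuous.norm ?_) continuous_const
  exact (continuous_subtype_val.comp (continuous_apply _)).add
    (continuous_subtype_val.comp (continuous_apply _))

/-- Induction on `M`, integrating over the last point. -/
theorem path_meas {d M : ℕ} {a : ℝ} {w : ℝ≥0∞}
    (hw : ∀ x : Sph d, sig d {y | ‖(x : V d) + y‖ < a} ≤ w) :
    (Measure.pi fun _ : Fin (M + 1) => sig d)
      {x | ∀ l : Fin M, ‖(x l.castSucc : V d) + x l.succ‖ < a} ≤ w ^ M := by
  induction M with
  | zero =>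
    rw [pow_zero]
    exact prob_le_one
  | succ M ih =>
    set E : Set (Fin (M + 2) → Sph d) :=
      {x | ∀ l : Fin (M + 1), ‖(x l.castSucc : V d) + x l.succ‖ < a} with hE
    set E' : Set (Fin (M + 1) → Sph d) :=
      {x | ∀ l : Fin M, ‖(x l.castSucc : V d) + x l.succ‖ < a} with hE'
    have hEm : MeasurableSet E := l2_meas a
    have hE'm : MeasurableSet E' := l2_meas a
    have hmp := (measurePreserving_piFinSuccAbove (fun _ : Fin (M + 2) => sig d) 0).symm
    rw [← hmp.measure_preimage hEm.nullMeasurableSet]
    have hpre : MeasurableSet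
        ((MeasurableEquiv.piFinSuccAbove (fun _ : Fin (M + 2) => Sph d) 0).symm ⁻¹' E) :=
      (MeasurableEquiv.piFinSuccAbove (fun _ : Fin (M + 2) => Sph d) 0).symm.measurable hEm
    have hcons : ∀ (x : Sph d) (X : Fin (M + 1) → Sph d),
        (MeasurableEquiv.piFinSuccAbove (fun _ : Fin (M + 2) => Sph d) 0).symm (x, X) =
          (Fin.cons x X : Fin (M + 2) → Sph d) := by
      intro x X
      change (Fin.insertNth (α := fun _ : Fin (M + 2) => Sph d) 0 x X : Fin (M + 2) → Sph d) = _
      exact Fin.insertNth_zero' x X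
    refine (Measure.prod_apply_symm hpre).le.trans ?_
    calc ∫⁻ X, (sig d) ((fun x => (x, X)) ⁻¹'
          ((MeasurableEquiv.piFinSuccAbove (fun _ : Fin (M + 2) => Sph d) 0).symm ⁻¹' E))
          ∂(Measure.pi fun _ : Fin (M + 1) => sig d)
        ≤ ∫⁻ X, E'.indicator (fun _ => w) X ∂(Measure.pi fun _ : Fin (M + 1) => sig d) := by
          refine lintegral_mono fun X => ?_
          by_cases hX : X ∈ E'
          · rw [Set.indicator_of_mem hX]
            refine le_trans (measure_mono ?_) (hw (X 0))
            intro x hx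
            have h1 : (Fin.cons x X : Fin (M + 2) → Sph d) ∈ E := by
              rw [← hcons]
              exact hx
            have h2 := h1 0
            have h3 : ‖(x : V d) + X 0‖ < a := h2
            show ‖(X 0 : V d) + x‖ < a
            have h4 : (X 0 : V d) + x = (x : V d) + X 0 := add_comm _ _
            exact h4 ▸ h3
          · rw [Set.indicator_of_notMem hX]
            refine le_of_eq ?_
            convert measure_empty (μ := sig d)
            ext x
            simp only [mem_preimage, mem_empty_iff_false, iff_false]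
            intro h1
            apply hX
            rw [hcons] at h1
            intro l
            have h2 := h1 l.succ
            rw [Fin.castSucc_succ] at h2
            simpa only [Fin.cons_succ] using h2
      _ = w * (Measure.pi fun _ : Fin (M + 1) => sig d) E' := by
          rw [lintegral_indicator_const hE'm]
      _ ≤ w * w ^ M := mul_le_mul_right ih w
      _ = w ^ (M + 1) := (pow_succ' w M).symm

/-- `mecke_tup` (or a union bound over the at most `n^(M+1)` embeddings), `path_meas`,
`col_of_no_path`. -/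
theorem notCol_le {d n M : ℕ} {a : ℝ} (ha : 0 < a) (hM : 1 ≤ M) (hMa : M * a ≤ 1) {w : ℝ≥0∞}
    (hw : ∀ x : Sph d, sig d {y | ‖(x : V d) + y‖ < a} ≤ w) :
    tup (sig d) n (fun A => ind (¬ Col a 2 A)) ≤ (n : ℝ≥0∞) ^ (M + 1) * w ^ M := by
  set P : (Fin (M + 1) → Sph d) → Prop :=
    fun x => ∀ l : Fin M, ‖(x l.castSucc : V d) + x l.succ‖ < a with hP
  have h1 := mecke_tup (sig d) (P := P) (l2_meas a) n
  have h2 : tup (sig d) n (fun A => ind (¬ Col a 2 A)) ≤
      ∫⁻ X : Fin n → Sph d, ∑ ρ : Fin (M + 1) ↪ Fin n, ind (P fun i => X (ρ i))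
        ∂(Measure.pi fun _ => sig d) := by
    unfold tup
    refine lintegral_mono fun X => ?_
    by_cases hX : Col a 2 (Set.range X)
    · have : ind (¬ Col a 2 (Set.range X)) = 0 := by
        unfold ind
        rw [if_neg (not_not.2 hX)]
      show ind (¬ Col a 2 (Set.range X)) ≤ _
      rw [this]
      exact zero_le
    · have h3 : ∃ σ : Fin (M + 1) ↪ Fin n, ∀ l : Fin M,
          ‖(X (σ l.castSucc) : V d) + X (σ l.succ)‖ < a := by
        by_contra h4
        exact hX (col_of_no_path ha hM hMa X h4)
      obtain ⟨σ, hσ⟩ := h3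
      have h5 : ind (P fun i => X (σ i)) = 1 := by
        unfold ind
        rw [if_pos]
        exact hσ
      calc ind (¬ Col a 2 (Set.range X)) ≤ 1 := by
            unfold ind
            split_ifs <;> simp
        _ = ind (P fun i => X (σ i)) := h5.symm
        _ ≤ ∑ ρ : Fin (M + 1) ↪ Fin n, ind (P fun i => X (ρ i)) :=
            Finset.single_le_sum (f := fun ρ : Fin (M + 1) ↪ Fin n => ind (P fun i => X (ρ i)))
              (fun _ _ => zero_le) (Finset.mem_univ σ)
  refine h2.trans ?_
  rw [h1]
  rw [measure_univ, one_pow, mul_one, Fintype.card_fin]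
  refine mul_le_mul' ?_ (path_meas hw)
  have h6 := Nat.descFactorial_le_pow n (M + 1)
  calc ((n.descFactorial (M + 1) : ℕ) : ℝ≥0∞) ≤ ((n ^ (M + 1) : ℕ) : ℝ≥0∞) := by exact_mod_cast h6
    _ = (n : ℝ≥0∞) ^ (M + 1) := by push_cast; ring

end Pool.Agent.Helper6.HD
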