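import Pool.Agent.Helper6.HD.S3

/-!
# PIECE HD-S4: the measure of small balls of the sphere
-/

open MeasureTheory Set
open scoped ENNReal

namespace Pool.Agent.Helper6.HD

open Pool.Agent.Helper97.BG

private theorem S4_inner {d : ℕ} (x z : Sph d) {r : ℝ} (hr : 0 < r) (hr2 : r ≤ 1 / 2)
    (h : ‖(x : V d) - z‖ ≤ r) : 0 < inner ℝ (x : V d) (z : V d) := by
  have hx : ‖(x : V d)‖ = 1 := by simpa using x.2
  have hz : ‖(z : V d)‖ = 1 := by simpa using z.2
  have h1 := norm_sub_sq_real (x : V d) (z : V d)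
  rw [hx, hz] at h1
  have h2 : ‖(x : V d) - z‖ ^ 2 ≤ 1 / 4 := by
    have h3 := norm_nonneg ((x : V d) - z)
    nlinarith
  nlinarith

private theorem S4_vb (d : ℕ) : volume (Metric.ball (0 : Eu d) 1) = ENNReal.ofReal (vb d) := by
  unfold vb
  rw [ENNReal.ofReal_toReal measure_ball_lt_top.ne]

private theorem S4_cont {d : ℕ} (z : Sph d) : Continuous fun x : Sph d => ‖(x : V d) - z‖ :=
  (continuous_subtype_val.sub continuous_const).norm

/-- `ch_up` with `U pole = z` (`exists_U`), `B = {x | ‖x - z‖ ≤ r}` (in the hemisphere: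
`⟪x, z⟫ = 1 - ‖x-z‖²/2 > 0`); `ch U ⁻¹' B` is in the closed ball of radius `r (1 + r²)` by
`norm_le_of_dist`. -/
theorem sig_ball_le {d : ℕ} (hd : 1 ≤ d) (z : Sph d) {r : ℝ} (hr : 0 < r) (hr2 : r ≤ 1 / 2) :
    sig d {x | ‖(x : V d) - z‖ ≤ r} ≤
      ENNReal.ofReal (vb d / area d * (r * (1 + r ^ 2)) ^ d) := by
  obtain ⟨U, hU⟩ := exists_U z
  have hB : MeasurableSet {x : Sph d | ‖(x : V d) - z‖ ≤ r} :=
    (isClosed_le (S4_cont z) continuous_const).measurableSet
  have h1 := ch_up U hB (fun x hx => by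
    rw [hU]
    exact S4_inner x z hr hr2 hx)
  have h2 : ch U ⁻¹' {x : Sph d | ‖(x : V d) - z‖ ≤ r} ⊆
      Metric.closedBall (0 : Eu d) (r * (1 + r ^ 2)) := by
    intro u hu
    have h3 : ‖(ch U u : V d) - U (pole d)‖ ≤ r := by
      rw [hU]
      exact hu
    have h4 := norm_le_of_dist U u (h3.trans hr2)
    rw [mem_closedBall_zero_iff]
    refine h4.trans ?_
    have h5 := norm_nonneg ((ch U u : V d) - U (pole d))
    gcongr
  have h3 : volume (Metric.closedBall (0 : Eu d) (r * (1 + r ^ 2))) =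
      ENNReal.ofReal ((r * (1 + r ^ 2)) ^ d) * ENNReal.ofReal (vb d) := by
    rw [Measure.addHaar_closedBall _ _ (by positivity), S4_vb]
    simp
  refine h1.trans ((mul_le_mul_right (measure_mono h2) _).trans ?_)
  rw [h3, ← ENNReal.ofReal_mul (by positivity),
    ← ENNReal.ofReal_mul (one_div_nonneg.2 (area_pos d).le)]
  apply ENNReal.ofReal_le_ofReal
  apply le_of_eq
  ring

/-- `ch_lo` with `B = {x | ‖x - z‖ < r}`: `ch U ⁻¹' B` contains the open ball of radius `r`
(`dist_ch_pole`) and is in the closed ball of radius `2 r` (`norm_le_of_dist`). -/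
theorem sig_ball_ge {d : ℕ} (hd : 1 ≤ d) (z : Sph d) {r : ℝ} (hr : 0 < r) (hr2 : r ≤ 1 / 2) :
    ENNReal.ofReal (vb d / area d * r ^ d * (1 / (1 + 4 * r ^ 2)) ^ (d + 1)) ≤
      sig d {x | ‖(x : V d) - z‖ < r} := by
  obtain ⟨U, hU⟩ := exists_U z
  have hB : MeasurableSet {x : Sph d | ‖(x : V d) - z‖ < r} :=
    (isOpen_lt (S4_cont z) continuous_const).measurableSet
  have h2 : ch U ⁻¹' {x : Sph d | ‖(x : V d) - z‖ < r} ⊆
      Metric.closedBall (0 : Eu d) (2 * r) := by
    intro u hu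
    have h3 : ‖(ch U u : V d) - U (pole d)‖ < r := by
      rw [hU]
      exact hu
    have h4 := norm_le_of_dist U u (h3.le.trans hr2)
    rw [mem_closedBall_zero_iff]
    refine h4.trans ?_
    have h5 := norm_nonneg ((ch U u : V d) - U (pole d))
    have h6 : ‖(ch U u : V d) - U (pole d)‖ ^ 2 ≤ 1 := by nlinarith
    nlinarith
  have h1 := ch_lo U hB h2
  have h3 : Metric.ball (0 : Eu d) r ⊆ ch U ⁻¹' {x : Sph d | ‖(x : V d) - z‖ < r} := by
    intro u hu
    rw [mem_ball_zero_iff] at hu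
    change ‖(ch U u : V d) - z‖ < r
    rw [← hU]
    exact (dist_ch_pole U u).trans_lt hu
  have hne : Nontrivial (Eu d) := by
    have : NeZero d := ⟨by omega⟩
    infer_instance
  have h4 : volume (Metric.ball (0 : Eu d) r) =
      ENNReal.ofReal (r ^ d) * ENNReal.ofReal (vb d) := by
    rw [Measure.addHaar_ball _ _ hr.le, S4_vb]
    simp
  refine le_trans ?_ h1
  refine le_trans ?_ (mul_le_mul_right (measure_mono h3) _)
  rw [h4, ← ENNReal.ofReal_mul (by positivity), ← ENNReal.ofReal_mul (by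
    have := area_pos d
    positivity)]
  apply ENNReal.ofReal_le_ofReal
  apply le_of_eq
  ring

/-- From `sig_ball_le`, `r → 0`. -/
theorem sig_null {d : ℕ} (hd : 1 ≤ d) : NullSingletonClass (sig d) := by
  constructor
  intro z
  have hc : 0 ≤ vb d / area d := (div_pos (vb_pos d) (area_pos d)).le
  have h1 : ∀ n : ℕ, sig d {z} ≤ ENNReal.ofReal (vb d / area d * (2 * (1 / ((n : ℝ) + 2)))) := by
    intro n
    have hr : (0 : ℝ) < 1 / ((n : ℝ) + 2) := by positivity
    have hr2 : 1 / ((n : ℝ) + 2) ≤ 1 / 2 := by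
      apply one_div_le_one_div_of_le (by norm_num)
      have : (0 : ℝ) ≤ n := Nat.cast_nonneg n
      linarith
    set r : ℝ := 1 / ((n : ℝ) + 2) with hrdef
    have h2 : ({z} : Set (Sph d)) ⊆ {x | ‖(x : V d) - z‖ ≤ r} := by
      rintro x rfl
      change ‖(x : V d) - x‖ ≤ r
      rw [sub_self, norm_zero]
      exact hr.le
    refine (measure_mono h2).trans ((sig_ball_le hd z hr hr2).trans ?_)
    apply ENNReal.ofReal_le_ofReal
    refine mul_le_mul_of_nonneg_left ?_ hc
    have h3 : r * (1 + r ^ 2) ≤ 1 := by nlinarith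
    have h4 : 0 ≤ r * (1 + r ^ 2) := by positivity
    calc (r * (1 + r ^ 2)) ^ d ≤ (r * (1 + r ^ 2)) ^ 1 := pow_le_pow_of_le_one h4 h3 hd
      _ ≤ 2 * r := by
        rw [pow_one]
        nlinarith
  have h2 : Filter.Tendsto (fun n : ℕ => ENNReal.ofReal (vb d / area d *
      (2 * (1 / ((n : ℝ) + 2))))) Filter.atTop (nhds 0) := by
    rw [← ENNReal.ofReal_zero]
    apply ENNReal.tendsto_ofReal
    have h3 : Filter.Tendsto (fun n : ℕ => 1 / ((n : ℝ) + 2)) Filter.atTop (nhds 0) := by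
      have h4 : Filter.Tendsto (fun n : ℕ => (n : ℝ) + 2) Filter.atTop Filter.atTop :=
        Filter.tendsto_atTop_add_const_right _ _ tendsto_natCast_atTop_atTop
      simp_rw [one_div]
      exact tendsto_inv_atTop_zero.comp h4
    have h5 := (h3.const_mul 2).const_mul (vb d / area d)
    rw [mul_zero, mul_zero] at h5
    exact h5
  exact le_antisymm (ge_of_tendsto' h2 h1) zero_le

end Pool.Agent.Helper6.HD
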