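import Pool.Agent.Helper6.HD.L2
import Pool.Agent.Helper6.HD.S4
import Pool.Agent.Helper97.BG.Final3

/-!
# PIECE HD-L3: the lower threshold
-/

open MeasureTheory Set Filter Topology
open scoped ENNReal

namespace Pool.Agent.Helper6.HD

open Pool.Agent.Helper97.BG

private lemma L3_vb_pos (d : ℕ) : 0 < vb d := by
  unfold vb
  exact ENNReal.toReal_pos (Metric.measure_ball_pos _ _ one_pos).ne' measure_ball_lt_top.ne

private lemma L3_area_pos (d : ℕ) : 0 < area d := by
  unfold area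
  have := L3_vb_pos (d + 1)
  positivity

private lemma L3_rho_pos (d : ℕ) : 0 < rho d := by
  unfold rho
  have := L3_vb_pos d
  have := L3_area_pos d
  positivity

private lemma L3_rho_pow {d : ℕ} (hd : 1 ≤ d) : rho d ^ d = area d / vb d := by
  have h1 := L3_vb_pos d
  have h2 := L3_area_pos d
  have hd0 : (d : ℝ) ≠ 0 := by positivity
  unfold rho
  rw [← Real.rpow_natCast, ← Real.rpow_mul (by positivity), one_div, inv_mul_cancel₀ hd0,
    Real.rpow_one]

private lemma L3_prob_k {d n k : ℕ} (hk : 2 ≤ k) (β : ℝ) : prob d n β k ≤ prob d n β 2 := by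
  unfold prob
  refine measure_mono fun X hX => ?_
  have h1 : (k : ℕ∞) < (borsuk X β).chromaticNumber := hX
  have h2 : ((2 : ℕ) : ℕ∞) ≤ (k : ℕ∞) := by exact_mod_cast hk
  exact h2.trans_lt h1

/-- the bound for one value of the angle -/
private lemma L3_bound {d n : ℕ} (hd : 1 ≤ d) (hn : 1 ≤ n) {ε β : ℝ} (hε : 0 < ε) (hε1 : ε < 1)
    (hβ : 0 < β) (hβ1 : β ≤ 1 / 2) (hβ2 : (1 - ε) * (1 + β ^ 2) ≤ 1 - ε / 2)
    (hβd : β ^ d * n = ((1 - ε) * rho d) ^ d) :
    prob d n β 2 ≤ ENNReal.ofReal ((1 - ε / 2)⁻¹ * (n * Real.exp (-(-Real.log (1 - ε / 2) / β)))) := by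
  have hvb := L3_vb_pos d
  have har := L3_area_pos d
  have hpi := Real.pi_gt_three
  set a : ℝ := 2 * Real.sin (β / 2) with ha
  have ha0 : 0 < a := by
    have := Real.sin_pos_of_pos_of_lt_pi (x := β / 2) (by linarith) (by linarith)
    positivity
  have haβ : a ≤ β := by
    have := Real.sin_le (x := β / 2) (by linarith)
    rw [ha]
    linarith
  set M : ℕ := ⌊1 / a⌋₊ with hM
  have hM1 : 1 ≤ M := by
    rw [hM]
    apply Nat.le_floor
    rw [Nat.cast_one, le_div_iff₀ ha0]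
    linarith
  have hMa : M * a ≤ 1 := by
    have := Nat.floor_le (show (0 : ℝ) ≤ 1 / a by positivity)
    rw [← hM] at this
    rwa [le_div_iff₀ ha0] at this
  set W : ℝ := vb d / area d * (a * (1 + a ^ 2)) ^ d with hW
  have hW0 : 0 ≤ W := by positivity
  have hw : ∀ x : Sph d, sig d {y | ‖(x : V d) + y‖ < a} ≤ ENNReal.ofReal W := by
    intro x
    refine le_trans (measure_mono ?_) (sig_ball_le hd (-x) ha0 (haβ.trans hβ1))
    intro y hy
    have h1 : ‖(x : V d) + y‖ < a := hy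
    have h2 : ‖(y : V d) - ((-x : Sph d) : V d)‖ = ‖(x : V d) + y‖ := by
      have h3 : (y : V d) - ((-x : Sph d) : V d) = (x : V d) + y := by
        rw [show ((-x : Sph d) : V d) = -(x : V d) from rfl, sub_neg_eq_add, add_comm]
      exact congrArg norm h3
    exact h2.le.trans h1.le
  have hnW : n * W ≤ 1 - ε / 2 := by
    have h1 : (a * (1 + a ^ 2)) ^ d ≤ (β * (1 + β ^ 2)) ^ d := by
      gcongr
    have h2 : n * W ≤ n * (vb d / area d * (β * (1 + β ^ 2)) ^ d) := by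
      rw [hW]
      gcongr
    refine h2.trans ?_
    have h3 : n * (vb d / area d * (β * (1 + β ^ 2)) ^ d) = ((1 - ε) * (1 + β ^ 2)) ^ d := by
      rw [mul_pow β, mul_pow (1 - ε)]
      have h4 : (n : ℝ) * (vb d / area d * (β ^ d * (1 + β ^ 2) ^ d)) =
          (vb d / area d) * (β ^ d * n) * (1 + β ^ 2) ^ d := by ring
      rw [h4, hβd, mul_pow, L3_rho_pow hd]
      field_simp
    rw [h3]
    have h5 : 0 ≤ (1 - ε) * (1 + β ^ 2) := mul_nonneg (by linarith) (by positivity)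
    have h6 : ((1 - ε) * (1 + β ^ 2)) ^ d ≤ ((1 - ε) * (1 + β ^ 2)) ^ 1 :=
      pow_le_pow_of_le_one h5 (by linarith) hd
    rw [pow_one] at h6
    linarith
  rw [prob_eq d n (by norm_num : 0 < 2) hβ (by linarith)]
  refine (notCol_le ha0 hM1 hMa hw).trans ?_
  have hθ0 : 0 < 1 - ε / 2 := by linarith
  have hθ1 : 1 - ε / 2 < 1 := by linarith
  have h7 : (n : ℝ≥0∞) ^ (M + 1) * ENNReal.ofReal W ^ M = ENNReal.ofReal (n * (n * W) ^ M) := by
    have hn' : (n : ℝ≥0∞) = ENNReal.ofReal n := (ENNReal.ofReal_natCast n).symm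
    rw [hn', ← ENNReal.ofReal_pow (by positivity), ← ENNReal.ofReal_pow hW0,
      ← ENNReal.ofReal_mul (by positivity)]
    congr 1
    ring
  rw [h7]
  apply ENNReal.ofReal_le_ofReal
  have h8 : (n * W) ^ M ≤ (1 - ε / 2) ^ M := pow_le_pow_left₀ (by positivity) hnW M
  have h9 : (1 - ε / 2) ^ M ≤ (1 - ε / 2)⁻¹ * Real.exp (-(-Real.log (1 - ε / 2) / β)) := by
    have h10 : (1 - ε / 2)⁻¹ * Real.exp (-(-Real.log (1 - ε / 2) / β)) =
        (1 - ε / 2) ^ (1 / β - 1 : ℝ) := by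
      rw [Real.rpow_def_of_pos hθ0, mul_sub, mul_one, Real.exp_sub, Real.exp_log hθ0]
      rw [show Real.log (1 - ε / 2) * (1 / β) = -(-Real.log (1 - ε / 2) / β) by ring]
      field_simp
    rw [h10, ← Real.rpow_natCast]
    apply Real.rpow_le_rpow_of_exponent_ge hθ0 hθ1.le
    have h11 : 1 / a < M + 1 := by
      rw [hM]
      exact Nat.lt_floor_add_one _
    have h12 : 1 / β ≤ 1 / a := one_div_le_one_div_of_le ha0 haβ
    linarith
  calc n * (n * W) ^ M ≤ n * ((1 - ε / 2)⁻¹ * Real.exp (-(-Real.log (1 - ε / 2) / β))) := by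
        gcongr
        exact h8.trans h9
    _ = (1 - ε / 2)⁻¹ * (n * Real.exp (-(-Real.log (1 - ε / 2) / β))) := by ring

/-- `χ > k` implies `χ > 2`, so `prob d n α k ≤ prob d n α 2`. Monotonicity in `α`: take
`β = (1 - ε) rho d n^(-1/d)` (`0 < ε < 1`), `a = 2 sin (β/2) ≤ β`,
`w = ofReal (vb d / area d * (a (1 + a²))^d)` (`sig_ball_le`, `‖x + y‖ = ‖y - (-x)‖`), so
`n w ≤ (1 - ε)^d (1 + β²)^d ≤ θ < 1` for large `n`; `M = ⌊1/a⌋₊`; `n (n w)^M ≤ n θ^M → 0` since
`M ≥ c n^(1/d)`. -/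
theorem lower {d k : ℕ} (hd : 1 ≤ d) (hk : 2 ≤ k) : LowerAt d k (rho d) := by
  intro ε hε α hα
  have hρ := L3_rho_pos d
  have hε1 : ε < 1 := by
    by_contra hcon
    have h1 := hα 1 le_rfl
    simp only [Nat.cast_one, Real.one_rpow, mul_one] at h1
    have : (1 - ε) * rho d ≤ 0 := mul_nonpos_of_nonpos_of_nonneg (by linarith) hρ.le
    linarith
  set c : ℝ := (1 - ε) * rho d with hc
  have hc0 : 0 < c := mul_pos (by linarith) hρ
  set β : ℕ → ℝ := fun n => c * (n : ℝ) ^ (-(1 : ℝ) / d) with hβ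
  have hβ0 : Tendsto β atTop (𝓝 0) := f2_tendsto_rpow hd c
  have hβpos : ∀ n : ℕ, 1 ≤ n → 0 < β n := by
    intro n hn
    have hn0 : (0 : ℝ) < n := by exact_mod_cast hn
    simp only [hβ]
    positivity
  have hβd : ∀ n : ℕ, 1 ≤ n → β n ^ d * n = c ^ d := by
    intro n hn
    have hn0 : (0 : ℝ) < n := by exact_mod_cast hn
    have hd0 : (d : ℝ) ≠ 0 := by positivity
    simp only [hβ]
    rw [mul_pow, ← Real.rpow_natCast ((n : ℝ) ^ (-(1 : ℝ) / d)) d, ← Real.rpow_mul hn0.le,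
      div_mul_cancel₀ _ hd0, Real.rpow_neg_one, mul_assoc, inv_mul_cancel₀ hn0.ne', mul_one]
  set L : ℝ := -Real.log (1 - ε / 2) with hL
  have hL0 : 0 < L := by
    have := Real.log_neg (show 0 < 1 - ε / 2 by linarith) (by linarith)
    linarith
  -- the real bound tends to zero
  have hgt : Tendsto β atTop (𝓝[>] 0) := by
    rw [tendsto_nhdsWithin_iff]
    refine ⟨hβ0, ?_⟩
    filter_upwards [eventually_ge_atTop 1] with n hn
    exact hβpos n hn
  have hy : Tendsto (fun n => L / β n) atTop atTop := by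
    have h1 := (tendsto_inv_nhdsGT_zero.comp hgt).const_mul_atTop hL0
    refine h1.congr fun n => ?_
    simp only [Function.comp_apply, div_eq_mul_inv]
  have hlim : Tendsto (fun n => (1 - ε / 2)⁻¹ * ((c / L) ^ d *
      ((L / β n) ^ d * Real.exp (-(L / β n))))) atTop (𝓝 0) := by
    have h1 := (Real.tendsto_pow_mul_exp_neg_atTop_nhds_zero d).comp hy
    have h2 := (h1.const_mul ((c / L) ^ d)).const_mul ((1 - ε / 2)⁻¹)
    simpa using h2
  have hlim' : Tendsto (fun n => ENNReal.ofReal ((1 - ε / 2)⁻¹ * ((c / L) ^ d *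
      ((L / β n) ^ d * Real.exp (-(L / β n)))))) atTop (𝓝 0) := by
    have := ENNReal.tendsto_ofReal hlim
    rwa [ENNReal.ofReal_zero] at this
  have hev : Tendsto (fun n => (1 - ε) * (1 + β n ^ 2)) atTop (𝓝 (1 - ε)) := by
    have h1 := ((hβ0.pow 2).const_add 1).const_mul (1 - ε)
    simpa using h1
  refine tendsto_of_tendsto_of_tendsto_of_le_of_le' tendsto_const_nhds hlim'
    (Eventually.of_forall fun _ => bot_le) ?_
  filter_upwards [eventually_ge_atTop 1, hβ0.eventually_lt_const (show (0 : ℝ) < 1 / 2 by norm_num),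
    hev.eventually_lt_const (show 1 - ε < 1 - ε / 2 by linarith)] with n hn h1 h2
  refine (prob_mono_alpha d n k (hα n hn).2.le).trans ((L3_prob_k hk _).trans ?_)
  have h3 := L3_bound hd hn hε hε1 (hβpos n hn) h1.le h2.le (hβd n hn)
  refine h3.trans (ENNReal.ofReal_le_ofReal (le_of_eq ?_))
  congr 1
  have hβn := hβpos n hn
  have h4 : (n : ℝ) = (c / L) ^ d * (L / β n) ^ d := by
    rw [← mul_pow, div_mul_div_cancel₀ hL0.ne', div_pow, ← hβd n hn]
    field_simp
  rw [← mul_assoc, ← h4]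

end Pool.Agent.Helper6.HD
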