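import Pool.Agent.Helper6.HD.Defs
import Pool.Agent.Helper97.BG.Final3

/-!
# PIECE HD-M1: comparison of thresholds
-/

open MeasureTheory Set Filter Topology
open scoped ENNReal

namespace Pool.Agent.Helper6.HD

open Pool.Agent.Helper97.BG

/-- A lower threshold is at most an upper threshold: if `c' < c`, take `α n = s n^(-1/d)` with
`c' < s < c` (`(1 + ε) c' < s < (1 - ε) c` for a small `ε`): the limit would be `0` and `1`. -/
theorem le_of_thresholds {d k : ℕ} (hd : 1 ≤ d) {c c' : ℝ} (hc : 0 < c) (hc' : 0 < c')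
    (h : LowerAt d k c) (h' : UpperAt d k c') : c ≤ c' := by
  by_contra hcon
  rw [not_le] at hcon
  set ε : ℝ := (c - c') / (4 * c) with hε
  have hcc : 0 < c - c' := sub_pos.2 hcon
  have hε0 : 0 < ε := by positivity
  have hε1 : ε * c = (c - c') / 4 := by rw [hε]; field_simp
  have hε2 : ε * c' ≤ (c - c') / 4 := by
    rw [← hε1]; gcongr
  have h1 := h ε hε0 (fun n => (c + c') / 2 * (n : ℝ) ^ (-(1 : ℝ) / d)) (by
    intro n hn
    have hn0 : (0 : ℝ) < n := by exact_mod_cast hn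
    have hp : 0 < (n : ℝ) ^ (-(1 : ℝ) / d) := Real.rpow_pos_of_pos hn0 _
    refine ⟨by positivity, ?_⟩
    apply mul_lt_mul_of_pos_right _ hp
    nlinarith)
  have h2 := h' ε hε0 (fun n => (c + c') / 2 * (n : ℝ) ^ (-(1 : ℝ) / d)) (by
    intro n hn
    have hn0 : (0 : ℝ) < n := by exact_mod_cast hn
    have hp : 0 < (n : ℝ) ^ (-(1 : ℝ) / d) := Real.rpow_pos_of_pos hn0 _
    apply mul_lt_mul_of_pos_right _ hp
    nlinarith)
  exact zero_ne_one (tendsto_nhds_unique h1 h2)

end Pool.Agent.Helper6.HD
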