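import Pool.Agent.Helper6.HD.Q5
import Pool.Agent.Helper6.HD.M1
import Pool.Agent.Helper6.HD.L3

/-!
# Project HD: main theorem
-/

open MeasureTheory Set Filter Topology
open scoped ENNReal

namespace Pool.Agent.Helper6.HD

open Pool.Agent.Helper97.BG

theorem prob_anti_k (d n : ℕ) (α : ℝ) {j k : ℕ} (h : j ≤ k) : prob d n α k ≤ prob d n α j := by
  unfold prob
  refine measure_mono fun X hX => ?_
  have h1 : (k : ℕ∞) < (borsuk X α).chromaticNumber := hX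
  exact lt_of_le_of_lt (by exact_mod_cast h) h1

theorem lower_mono_k {d j k : ℕ} (hjk : j ≤ k) {c : ℝ} (h : LowerAt d j c) : LowerAt d k c := by
  intro ε hε α hα
  exact tendsto_of_tendsto_of_tendsto_of_le_of_le tendsto_const_nhds (h ε hε α hα)
    (fun _ => zero_le') (fun n => prob_anti_k d n (α n) hjk)

theorem upper_mono_c {d k : ℕ} {c c' : ℝ} (hcc : c ≤ c') (h : UpperAt d k c) :
    UpperAt d k c' := by
  intro ε hε α hα
  refine h ε hε α fun n hn => lt_of_le_of_lt ?_ (hα n hn)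
  have h0 : 0 ≤ (n : ℝ) ^ (-(1 : ℝ) / d) := by positivity
  have h1 : (1 + ε) * c ≤ (1 + ε) * c' := mul_le_mul_of_nonneg_left hcc (by positivity)
  exact mul_le_mul_of_nonneg_right h1 h0

theorem main : ∃ C : ℝ, 0 < C ∧ ∀ (d k : ℕ) (ε : ℝ), 2 ≤ k → k ≤ d → 0 < ε → ε ≤ 1 →
    C * Real.log d ≤ ε ^ 3 * d →
    LowerAt d k (rho d) ∧ UpperAt d k ((1 + ε) * rho d) ∧
    (∀ c : ℝ, 0 < c → LowerAt d k c → UpperAt d k c → rho d ≤ c ∧ c ≤ (1 + ε) * rho d) ∧
    ∀ c₂ : ℝ, 0 < c₂ → LowerAt d 2 c₂ → UpperAt d 2 c₂ →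
      LowerAt d k c₂ ∧ UpperAt d k ((1 + ε) * c₂) := by
  refine ⟨40960000, by norm_num, fun d k ε hk hkd hε hε1 h => ?_⟩
  have hd1 : 1 ≤ d := by omega
  have hL := lower (d := d) (k := k) hd1 hk
  have hU := upper (d := d) (k := k) (by omega) (by omega) hkd hε hε1 h
  have hr : 0 < rho d := Real.rpow_pos_of_pos (div_pos (area_pos d) (vb_pos d)) _
  refine ⟨hL, hU, fun c hc h1 h2 => ⟨le_of_thresholds hd1 hr hc hL h2,
    le_of_thresholds hd1 hc (by positivity) h1 hU⟩, fun c₂ hc h1 h2 => ⟨lower_mono_k hk h1, ?_⟩⟩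
  have h3 : rho d ≤ c₂ := le_of_thresholds hd1 hr hc (lower hd1 le_rfl) h2
  exact upper_mono_c (mul_le_mul_of_nonneg_left h3 (by linarith)) hU

end Pool.Agent.Helper6.HD
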