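import Pool.Agent.Helper6.HD.P1
import Pool.Agent.Helper97.BG.St.P4

/-!
# PIECE HD-P2: Mecke inequality for the Poisson functional
-/

open MeasureTheory Set
open scoped ENNReal

namespace Pool.Agent.Helper6.HD

open Pool.Agent.Helper97.BG

/-- `c * ind (E (range X)) ≤ ∑ ρ, ind (P (X ∘ ρ))`; integrate (`mecke_tup`), multiply by
`e^(-m)/n!` and sum: `∑_{n ≥ c'} e^(-m) m^(n-c')/(n-c')! = 1` with `c' = card ι`
(`n.descFactorial c' / n! = 1/(n-c')!`). Compare `Pool.Agent.Helper97.BG.Poi_const` and its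
lemma `p4_exp`. -/
theorem Poi_mecke_le {S ι : Type*} [MeasurableSpace S] [Fintype ι] (mu : Measure S)
    [IsFiniteMeasure mu] {P : (ι → S) → Prop} (hP : MeasurableSet {x | P x}) {E : Set S → Prop}
    (c : ℕ) (hc : 0 < c)
    (h : ∀ (n : ℕ) (X : Fin n → S), E (Set.range X) →
      (c : ℝ≥0∞) ≤ ∑ ρ : ι ↪ Fin n, ind (P fun i => X (ρ i))) :
    Poi mu (fun A => ind (E A)) ≤ (c : ℝ≥0∞)⁻¹ * (Measure.pi fun _ : ι => mu) {x | P x} := by
  set M : ℝ≥0∞ := (Measure.pi fun _ : ι => mu) {x | P x} with hM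
  set k : ℕ := Fintype.card ι with hk
  have hc0 : (c : ℝ≥0∞) ≠ 0 := by exact_mod_cast hc.ne'
  have hct : (c : ℝ≥0∞) ≠ ∞ := ENNReal.natCast_ne_top c
  have h1 : ∀ n : ℕ, tup mu n (fun A => ind (E A)) ≤
      (c : ℝ≥0∞)⁻¹ * ((n.descFactorial k : ℝ≥0∞) * (mu univ) ^ (n - k) * M) := by
    intro n
    rw [hM, hk, ← mecke_tup mu hP n, ← lintegral_const_mul' _ _ (ENNReal.inv_ne_top.2 hc0)]
    unfold tup
    refine lintegral_mono fun X => ?_
    change ind (E (Set.range X)) ≤ _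
    by_cases hE : E (Set.range X)
    · have h2 := h n X hE
      have h3 : ind (E (Set.range X)) = 1 := if_pos hE
      rw [h3, ← ENNReal.inv_mul_cancel hc0 hct]
      exact mul_le_mul_right h2 _
    · have h3 : ind (E (Set.range X)) = 0 := if_neg hE
      rw [h3]
      exact zero_le
  have h2 : ∀ j : ℕ, (((j + k).factorial : ℝ≥0∞))⁻¹ * ((j + k).descFactorial k : ℝ≥0∞) =
      ((j.factorial : ℝ≥0∞))⁻¹ := by
    intro j
    have h3 : (((j + k).factorial : ℕ) : ℝ≥0∞) =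
        (j.factorial : ℝ≥0∞) * ((j + k).descFactorial k : ℝ≥0∞) := by
      have h4 := Nat.factorial_mul_descFactorial (n := j + k) (k := k) (Nat.le_add_left k j)
      rw [Nat.add_sub_cancel] at h4
      rw [← h4, Nat.cast_mul]
    have h5 : ((j + k).descFactorial k : ℝ≥0∞) ≠ 0 := by
      have : (j + k).descFactorial k ≠ 0 := by
        rw [Ne, Nat.descFactorial_eq_zero_iff_lt]
        omega
      exact_mod_cast this
    have h6 : ((j + k).descFactorial k : ℝ≥0∞) ≠ ∞ := ENNReal.natCast_ne_top _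
    rw [h3, ENNReal.mul_inv (Or.inr h6) (Or.inr h5), mul_assoc, ENNReal.inv_mul_cancel h5 h6,
      mul_one]
  have h3 : ∑' n : ℕ, ((n.factorial : ℝ≥0∞))⁻¹ *
      ((n.descFactorial k : ℝ≥0∞) * (mu univ) ^ (n - k)) =
      ENNReal.ofReal (Real.exp (mu univ).toReal) := by
    rw [← p4_exp _ (measure_ne_top mu univ),
      ← Summable.sum_add_tsum_nat_add' (k := k) ENNReal.summable]
    have h4 : ∑ i ∈ Finset.range k, ((i.factorial : ℝ≥0∞))⁻¹ *
        ((i.descFactorial k : ℝ≥0∞) * (mu univ) ^ (i - k)) = 0 := by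
      refine Finset.sum_eq_zero fun i hi => ?_
      have h5 : i.descFactorial k = 0 := by
        rw [Nat.descFactorial_eq_zero_iff_lt]
        exact Finset.mem_range.1 hi
      rw [h5, Nat.cast_zero, zero_mul, mul_zero]
    rw [h4, zero_add]
    refine tsum_congr fun j => ?_
    rw [← mul_assoc, h2, Nat.add_sub_cancel]
  have h4 : ENNReal.ofReal (Real.exp (-(mu univ).toReal)) *
      ENNReal.ofReal (Real.exp (mu univ).toReal) = 1 := by
    rw [← ENNReal.ofReal_mul (Real.exp_pos _).le, ← Real.exp_add, neg_add_cancel, Real.exp_zero,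
      ENNReal.ofReal_one]
  unfold Poi Pool.Agent.Helper97.BG.em
  calc ENNReal.ofReal (Real.exp (-(mu univ).toReal)) *
        ∑' n : ℕ, ((n.factorial : ℝ≥0∞))⁻¹ * tup mu n (fun A => ind (E A))
      ≤ ENNReal.ofReal (Real.exp (-(mu univ).toReal)) *
        ∑' n : ℕ, ((n.factorial : ℝ≥0∞))⁻¹ *
          ((c : ℝ≥0∞)⁻¹ * ((n.descFactorial k : ℝ≥0∞) * (mu univ) ^ (n - k) * M)) := by
        exact mul_le_mul_right (ENNReal.tsum_le_tsum fun n => mul_le_mul_right (h1 n) _) _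
    _ = ENNReal.ofReal (Real.exp (-(mu univ).toReal)) *
        (((c : ℝ≥0∞)⁻¹ * M) * ∑' n : ℕ, ((n.factorial : ℝ≥0∞))⁻¹ *
          ((n.descFactorial k : ℝ≥0∞) * (mu univ) ^ (n - k))) := by
        rw [← ENNReal.tsum_mul_left (a := (c : ℝ≥0∞)⁻¹ * M)]
        congr 1
        refine tsum_congr fun n => ?_
        ring
    _ = (c : ℝ≥0∞)⁻¹ * M * (ENNReal.ofReal (Real.exp (-(mu univ).toReal)) *
        ENNReal.ofReal (Real.exp (mu univ).toReal)) := by
        rw [h3]
        ring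
    _ = (c : ℝ≥0∞)⁻¹ * M := by rw [h4, mul_one]

end Pool.Agent.Helper6.HD
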