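import Pool.Agent.Helper6.HD.Defs

/-!
# PIECE HD-P3: counting the ordered bad pairs
-/

open MeasureTheory Set
open scoped ENNReal

namespace Pool.Agent.Helper6.HD

open Pool.Agent.Helper97.BG

/-- The property of `N + N` points. -/
def PP {d : ℕ} (a R φ : ℝ) (N : ℕ) (z : Sph d) (x : Fin N ⊕ Fin N → Sph d) : Prop :=
  (∀ i, x (Sum.inl i) ∈ Sb R φ z) ∧ (∀ j, -x (Sum.inr j) ∈ Sb R φ z) ∧
    ∀ i j, a ≤ ‖(x (Sum.inl i) : V d) + x (Sum.inr j)‖

theorem measurableSet_PP {d : ℕ} (a R φ : ℝ) (N : ℕ) (z : Sph d) :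
    MeasurableSet {x | PP a R φ N z x} := by
  have hSb : MeasurableSet (Sb R φ z) := by
    have : IsClosed (Sb R φ z) := by
      have hc : Continuous fun x : Sph d => ‖(x : V d) - z‖ := by fun_prop
      exact (isClosed_le continuous_const hc).inter (isClosed_le hc continuous_const)
    exact this.measurableSet
  have hneg : Measurable fun x : Sph d => -x := continuous_neg.measurable
  have e : {x | PP a R φ N z x} = (⋂ i : Fin N, (fun x : Fin N ⊕ Fin N → Sph d =>
      x (Sum.inl i)) ⁻¹' Sb R φ z) ∩ ((⋂ j : Fin N, (fun x : Fin N ⊕ Fin N → Sph d =>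
      -x (Sum.inr j)) ⁻¹' Sb R φ z) ∩ ⋂ i : Fin N, ⋂ j : Fin N,
        {x : Fin N ⊕ Fin N → Sph d | a ≤ ‖(x (Sum.inl i) : V d) + x (Sum.inr j)‖}) := by
    ext x
    simp only [PP, mem_ofPred_eq, mem_inter_iff, mem_iInter, mem_preimage]
  rw [e]
  have h3 : ∀ i j : Fin N, MeasurableSet
      {x : Fin N ⊕ Fin N → Sph d | a ≤ ‖(x (Sum.inl i) : V d) + x (Sum.inr j)‖} := by
    intro i j
    have hc : Continuous fun x : Fin N ⊕ Fin N → Sph d =>
        ‖(x (Sum.inl i) : V d) + x (Sum.inr j)‖ := by fun_prop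
    exact (isClosed_le continuous_const hc).measurableSet
  refine (MeasurableSet.iInter fun i => (measurable_pi_apply (Sum.inl i)) hSb).inter
    ((MeasurableSet.iInter fun j => (hneg.comp (measurable_pi_apply (Sum.inr j))) hSb).inter ?_)
  exact MeasurableSet.iInter fun i => MeasurableSet.iInter fun j => h3 i j

private theorem P3_disj {d : ℕ} {R φ : ℝ} (hR : 0 < R) (hR1 : R < 1) (z x : Sph d)
    (h1 : x ∈ Sb R φ z) (h2 : -x ∈ Sb R φ z) : False := by
  have hx : ‖(x : V d)‖ = 1 := by simp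
  have e : (2 : ℝ) • (x : V d) = ((x : V d) - z) - (((-x : Sph d) : V d) - z) := by
    rw [two_smul, show ((-x : Sph d) : V d) = -(x : V d) from rfl]
    abel
  have h3 : ‖(2 : ℝ) • (x : V d)‖ = 2 := by rw [norm_smul, hx]; norm_num
  have h4 : ‖(2 : ℝ) • (x : V d)‖ ≤ (1 - R ^ 2) * R + (1 - R ^ 2) * R := by
    rw [e]
    exact (norm_sub_le _ _).trans (add_le_add h1.2 h2.2)
  have h5 : (1 - R ^ 2) * R < 1 := by nlinarith [sq_nonneg R, mul_pos hR hR]
  linarith

private theorem P3_idx {d n : ℕ} (X : Fin n → Sph d) {I : Set (Sph d)} {N : ℕ}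
    (hI : I ⊆ Set.range X) (hN : I.ncard = N) :
    ∃ f : Fin N → Fin n, (∀ i, X (f i) ∈ I) ∧ Function.Injective fun i => X (f i) := by
  have hfin : I.Finite := (Set.finite_range X).subset hI
  have : Finite I := hfin
  have hc : Nat.card I = N := hN
  let e : Fin N ≃ I := (Finite.equivFinOfCardEq hc).symm
  choose g hg using fun y : I => hI y.2
  refine ⟨fun i => g (e i), fun i => ?_, fun i j hij => ?_⟩
  · rw [hg]
    exact (e i).2
  · simp only [hg] at hij
    exact e.injective (Subtype.ext hij)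

/-- `I`, `J` are disjoint: `x ∈ Sb`, `-x ∈ Sb` would give `2 = ‖(x - z) - (x + z)‖ ≤ 2 (1-R²) R <
2`. Choose for the points of `I` and of `J` indices (injectively), enumerated by `Fin N`. For
every pair of permutations `(σ, τ)` of `Fin N` the map `inl i ↦ idx I (σ i)`,
`inr j ↦ idx J (τ j)` is an embedding with the property `PP`; these `(N!)²` embeddings are
distinct. -/
theorem pair_count {d : ℕ} {a R φ : ℝ} (hR : 0 < R) (hR1 : R < 1) (z : Sph d) {N : ℕ}
    {n : ℕ} (X : Fin n → Sph d) (h : BadPair a R φ N z (Set.range X)) :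
    (((N.factorial) ^ 2 : ℕ) : ℝ≥0∞) ≤
      ∑ ρ : Fin N ⊕ Fin N ↪ Fin n, ind (PP a R φ N z fun i => X (ρ i)) := by
  classical
  obtain ⟨I, J, hI, hJ, hIN, hJN, hIS, hJS, hIJ⟩ := h
  obtain ⟨f, hf1, hf2⟩ := P3_idx X hI hIN
  obtain ⟨g, hg1, hg2⟩ := P3_idx X hJ hJN
  let F : Fin N ⊕ Fin N → Fin n := Sum.elim f g
  have hF : Function.Injective F := by
    intro s t hst
    rcases s with i | i <;> rcases t with j | j
    · have : f i = f j := hst
      rw [hf2 (by simp only [this] : (fun i => X (f i)) i = (fun i => X (f i)) j)]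
    · exfalso
      have : f i = g j := hst
      exact P3_disj hR hR1 z (X (f i)) (hIS (hf1 i)) (by rw [this]; exact hJS _ (hg1 j))
    · exfalso
      have : g i = f j := hst
      exact P3_disj hR hR1 z (X (f j)) (hIS (hf1 j)) (by rw [← this]; exact hJS _ (hg1 i))
    · have : g i = g j := hst
      rw [hg2 (by simp only [this] : (fun i => X (g i)) i = (fun i => X (g i)) j)]
  let T : Equiv.Perm (Fin N) × Equiv.Perm (Fin N) → (Fin N ⊕ Fin N ↪ Fin n) := fun p =>
    (Equiv.sumCongr p.1 p.2).toEmbedding.trans ⟨F, hF⟩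
  have hT : Function.Injective T := by
    intro p q hpq
    have h1 : ∀ s, F (Equiv.sumCongr p.1 p.2 s) = F (Equiv.sumCongr q.1 q.2 s) := fun s =>
      congrArg (fun e : Fin N ⊕ Fin N ↪ Fin n => e s) hpq
    refine Prod.ext ?_ ?_
    · ext1 i
      have := hF (h1 (Sum.inl i))
      simpa using this
    · ext1 i
      have := hF (h1 (Sum.inr i))
      simpa using this
  have hPP : ∀ p, PP a R φ N z fun i => X (T p i) := by
    intro p
    refine ⟨fun i => hIS (hf1 _), fun j => hJS _ (hg1 _), fun i j => hIJ _ (hf1 _) _ (hg1 _)⟩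
  calc (((N.factorial) ^ 2 : ℕ) : ℝ≥0∞)
      = ∑ p : Equiv.Perm (Fin N) × Equiv.Perm (Fin N), (1 : ℝ≥0∞) := by
        rw [Finset.sum_const, nsmul_eq_mul, mul_one, Finset.card_univ, Fintype.card_prod,
          Fintype.card_perm, Fintype.card_fin, sq]
    _ = ∑ p : Equiv.Perm (Fin N) × Equiv.Perm (Fin N),
          ind (PP a R φ N z fun i => X (T p i)) := by
        refine Finset.sum_congr rfl fun p _ => ?_
        unfold ind
        rw [if_pos (hPP p)]
    _ = ∑ ρ ∈ Finset.univ.image T, ind (PP a R φ N z fun i => X (ρ i)) := by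
        rw [Finset.sum_image fun p _ q _ h => hT h]
    _ ≤ ∑ ρ : Fin N ⊕ Fin N ↪ Fin n, ind (PP a R φ N z fun i => X (ρ i)) :=
        Finset.sum_le_sum_of_subset (Finset.subset_univ _)

end Pool.Agent.Helper6.HD
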