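import Pool.Agent.Helper6.HD.S3

/-!
# PIECE HD-S5: comparison of `Lam` on the sphere and in the tangent space
-/

open MeasureTheory Set
open scoped ENNReal

namespace Pool.Agent.Helper6.HD

open Pool.Agent.Helper97.BG

private theorem S5_pi_le {ι : Type*} [Fintype ι] {S : Type*} [MeasurableSpace S] {ν μ : Measure S}
    [SigmaFinite ν] (h : ν ≤ μ) :
    (Measure.pi fun _ : ι => ν) ≤ Measure.pi fun _ : ι => μ := by
  rw [Measure.le_iff]
  intro s hs
  conv_rhs => rw [Measure.pi, toMeasure_apply _ _ hs]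
  have h1 : (Measure.pi fun _ : ι => ν).toOuterMeasure ≤
      OuterMeasure.pi fun _ : ι => μ.toOuterMeasure := by
    rw [OuterMeasure.le_pi]
    intro t _
    change (Measure.pi fun _ : ι => ν) (pi univ t) ≤ ∏ i, μ (t i)
    rw [Measure.pi_pi]
    exact Finset.prod_le_prod' fun i _ => h (t i)
  exact h1 s

private theorem S5_pi_smul {ι : Type*} [Fintype ι] {S : Type*} [MeasurableSpace S] {μ : Measure S}
    [IsFiniteMeasure μ] {c : ℝ≥0∞} (hc : c ≠ ∞) :
    (Measure.pi fun _ : ι => c • μ) = c ^ Fintype.card ι • Measure.pi fun _ : ι => μ := by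
  have : IsFiniteMeasure (c • μ) := Measure.smul_finite μ hc
  refine Measure.pi_eq fun s _ => ?_
  rw [Measure.smul_apply, Measure.pi_pi, smul_eq_mul]
  simp only [Measure.smul_apply, smul_eq_mul]
  rw [Finset.prod_mul_distrib, Finset.prod_const, Finset.card_univ]

private theorem S5_meas {S : Type*} [MeasurableSpace S] {adj : S → S → Prop}
    (hadj : MeasurableSet {p : S × S | adj p.1 p.2}) (N : ℕ) :
    Measurable fun p : (Fin N → S) × (Fin N → S) => ind (∀ i j, ¬ adj (p.1 i) (p.2 j)) := by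
  have h1 : MeasurableSet {p : (Fin N → S) × (Fin N → S) | ∀ i j, ¬ adj (p.1 i) (p.2 j)} := by
    have e : {p : (Fin N → S) × (Fin N → S) | ∀ i j, ¬ adj (p.1 i) (p.2 j)} =
        ⋂ i, ⋂ j, (fun p : (Fin N → S) × (Fin N → S) => (p.1 i, p.2 j)) ⁻¹'
          {p : S × S | adj p.1 p.2}ᶜ := by
      ext p
      simp
    rw [e]
    refine MeasurableSet.iInter fun i => MeasurableSet.iInter fun j => ?_
    exact (((measurable_pi_apply i).comp measurable_fst).prodMk
      ((measurable_pi_apply j).comp measurable_snd)) hadj.compl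
  classical
  unfold ind
  exact Measurable.ite h1 measurable_const measurable_const

/-- Domination of the product measures (`Measure.pi_mono`-type argument or induction through
`lintegral`), change of variables by `T` in each coordinate (`Measure.pi_map_pi`,
`lintegral_map`). -/
theorem Lam_mono {S T : Type*} [MeasurableSpace S] [MeasurableSpace T] (ν : Measure S)
    (ν' : Measure T) [IsFiniteMeasure ν] [IsFiniteMeasure ν'] {c : ℝ≥0∞} (hc : c ≠ ∞) {f : T → S}
    (hf : Measurable f) (hν : ν ≤ c • ν'.map f) {adj : S → S → Prop} {adj' : T → T → Prop}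
    (hadj : MeasurableSet {p : S × S | adj p.1 p.2}) (h : ∀ u v, adj' u v → adj (f u) (f v))
    (N : ℕ) : Lam ν N adj ≤ c ^ (2 * N) * Lam ν' N adj' := by
  have : IsFiniteMeasure (ν'.map f) := Measure.isFiniteMeasure_map ν' f
  have : IsFiniteMeasure (c • ν'.map f) := Measure.smul_finite _ hc
  have hF : Measurable fun (x : Fin N → T) (i : Fin N) => f (x i) :=
    measurable_pi_lambda _ fun i => hf.comp (measurable_pi_apply i)
  have hpi : (Measure.pi fun _ : Fin N => ν) ≤
      c ^ N • (Measure.pi fun _ : Fin N => ν').map (fun x i => f (x i)) := by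
    refine (S5_pi_le hν).trans ?_
    rw [S5_pi_smul hc, Fintype.card_fin, Measure.pi_map_pi fun _ => hf.aemeasurable]
  have hg := S5_meas hadj N
  have hg1 : ∀ x : Fin N → S, Measurable fun y : Fin N → S => ind (∀ i j, ¬ adj (x i) (y j)) :=
    fun x => hg.comp measurable_prodMk_left
  have hle : ∀ x y : Fin N → T, ind (∀ i j, ¬ adj (f (x i)) (f (y j))) ≤
      ind (∀ i j, ¬ adj' (x i) (y j)) := by
    intro x y
    unfold ind
    split_ifs with h1 h2
    · exact le_rfl
    · exact absurd (fun i j h3 => h1 i j (h _ _ h3)) h2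
    · exact zero_le
    · exact le_rfl
  have hin : ∀ x : Fin N → S, ∫⁻ y : Fin N → S, ind (∀ i j, ¬ adj (x i) (y j))
      ∂(Measure.pi fun _ => ν) ≤ c ^ N * ∫⁻ y : Fin N → T, ind (∀ i j, ¬ adj (x i) (f (y j)))
      ∂(Measure.pi fun _ => ν') := by
    intro x
    refine (lintegral_mono' hpi le_rfl).trans ?_
    rw [lintegral_smul_measure, lintegral_map (hg1 x) hF, smul_eq_mul]
  have hm : Measurable fun x : Fin N → S => ∫⁻ y : Fin N → T, ind (∀ i j, ¬ adj (x i) (f (y j)))
      ∂(Measure.pi fun _ => ν') := by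
    have h1 : Measurable fun p : (Fin N → S) × (Fin N → T) =>
        ind (∀ i j, ¬ adj (p.1 i) (f (p.2 j))) :=
      hg.comp (measurable_fst.prodMk (hF.comp measurable_snd))
    exact h1.lintegral_prod_right'
  unfold Lam
  calc ∫⁻ x : Fin N → S, ∫⁻ y : Fin N → S, ind (∀ i j, ¬ adj (x i) (y j))
        ∂(Measure.pi fun _ => ν) ∂(Measure.pi fun _ => ν)
      ≤ ∫⁻ x : Fin N → S, c ^ N * ∫⁻ y : Fin N → T, ind (∀ i j, ¬ adj (x i) (f (y j)))
        ∂(Measure.pi fun _ => ν') ∂(Measure.pi fun _ => ν) := lintegral_mono hin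
    _ = c ^ N * ∫⁻ x : Fin N → S, ∫⁻ y : Fin N → T, ind (∀ i j, ¬ adj (x i) (f (y j)))
        ∂(Measure.pi fun _ => ν') ∂(Measure.pi fun _ => ν) := lintegral_const_mul _ hm
    _ ≤ c ^ N * (c ^ N * ∫⁻ x : Fin N → T, ∫⁻ y : Fin N → T,
        ind (∀ i j, ¬ adj (f (x i)) (f (y j)))
        ∂(Measure.pi fun _ => ν') ∂(Measure.pi fun _ => ν')) := by
        refine mul_le_mul_right ?_ _
        refine (lintegral_mono' hpi le_rfl).trans ?_
        rw [lintegral_smul_measure, lintegral_map hm hF, smul_eq_mul]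
    _ ≤ c ^ N * (c ^ N * ∫⁻ x : Fin N → T, ∫⁻ y : Fin N → T, ind (∀ i j, ¬ adj' (x i) (y j))
        ∂(Measure.pi fun _ => ν') ∂(Measure.pi fun _ => ν')) := by
        refine mul_le_mul_right (mul_le_mul_right ?_ _) _
        exact lintegral_mono fun x => lintegral_mono fun y => hle x y
    _ = c ^ (2 * N) * ∫⁻ x : Fin N → T, ∫⁻ y : Fin N → T, ind (∀ i j, ¬ adj' (x i) (y j))
        ∂(Measure.pi fun _ => ν') ∂(Measure.pi fun _ => ν') := by
        rw [two_mul, pow_add, mul_assoc]

private theorem S5_cont {d : ℕ} (z : Sph d) : Continuous fun x : Sph d => ‖(x : V d) - z‖ :=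
  (continuous_subtype_val.sub continuous_const).norm

theorem measurableSet_Sb {d : ℕ} (R φ : ℝ) (z : Sph d) : MeasurableSet (Sb R φ z) := by
  have h := (S5_cont z).measurable
  exact (measurableSet_le measurable_const h).inter (measurableSet_le h measurable_const)

theorem measurableSet_Ss {d : ℕ} (R φ : ℝ) (z : Sph d) : MeasurableSet (Ss R φ z) := by
  have h := (S5_cont z).measurable
  exact (measurableSet_le measurable_const h).inter (measurableSet_le h measurable_const)

/-- `ch U ⁻¹' Sb ⊆ shell`: `‖x - z‖ ≤ ‖u‖ ≤ ‖x - z‖ (1 + ‖x - z‖²)` and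
`(1 - R²) R (1 + R²) ≤ R`. -/
theorem ch_Sb {d : ℕ} {R φ : ℝ} (hR : 0 < R) (hR2 : R ≤ 1 / 2) (hφ : 0 < φ) (hφ4 : φ ≤ 1 / 4)
    {z : Sph d} {U : V d ≃ₗᵢ[ℝ] V d} (hU : U (pole d) = z) : ch U ⁻¹' Sb R φ z ⊆ shell d R φ := by
  intro u hu
  obtain ⟨h1, h2⟩ := hu
  have h3 := dist_ch_pole U u
  have h4 := norm_le_of_dist U u
  rw [hU] at h3 h4
  set D := ‖(ch U u : V d) - z‖ with hD
  have hD0 : 0 ≤ D := norm_nonneg _
  have hDR : D ≤ R := by nlinarith [mul_pos hR (mul_pos hR hR)]
  have h5 := h4 (by linarith)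
  refine ⟨h1.trans h3, h5.trans ?_⟩
  have h6 : D ^ 2 ≤ R ^ 2 := pow_le_pow_left₀ hD0 hDR 2
  calc D * (1 + D ^ 2) ≤ ((1 - R ^ 2) * R) * (1 + R ^ 2) :=
        mul_le_mul h2 (by linarith) (by positivity) (hD0.trans h2)
    _ = R - R * (R ^ 2) ^ 2 := by ring
    _ ≤ R := by nlinarith [mul_nonneg hR.le (sq_nonneg (R ^ 2))]

private theorem S5_fin_sig (d : ℕ) : IsFiniteMeasure (sig d) := by
  constructor
  unfold sig
  rw [Measure.smul_apply, smul_eq_mul]
  refine ENNReal.mul_lt_top ?_ (measure_lt_top _ _)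
  rw [ENNReal.inv_lt_top, toSphere_univ]
  exact ENNReal.ofReal_pos.2 (area_pos d)

private theorem S5_fin_shell (d : ℕ) (R φ : ℝ) :
    IsFiniteMeasure ((volume : Measure (Eu d)).restrict (shell d R φ)) := by
  constructor
  rw [Measure.restrict_apply_univ]
  refine lt_of_le_of_lt (measure_mono (t := Metric.closedBall (0 : Eu d) R) ?_)
    measure_closedBall_lt_top
  intro u hu
  rw [mem_closedBall_zero_iff]
  exact hu.2

/-- `Lam_mono` with `f = ch U`, `ν' = volume.restrict shell`, `c = ofReal (lam / area d)`: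
for measurable `B`, `lam sig (B ∩ Sb) ≤ (lam/area) volume (ch U ⁻¹' (B ∩ Sb))` (`ch_up`) and
`ch_Sb`; `dist_ch_ch`. -/
theorem Lam_sph {d : ℕ} {R φ a lam : ℝ} (hR : 0 < R) (hR2 : R ≤ 1 / 2) (hφ : 0 < φ)
    (hφ4 : φ ≤ 1 / 4) (hlam : 0 ≤ lam) (z : Sph d) (N : ℕ) :
    Lam ((ENNReal.ofReal lam • sig d).restrict (Sb R φ z)) N
      (fun x y => ‖(x : V d) - y‖ < a) ≤
      ENNReal.ofReal (lam / area d) ^ (2 * N) *
        Lam (volume.restrict (shell d R φ)) N (fun u v => ‖u - v‖ < a) := by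
  obtain ⟨U, hU⟩ := exists_U z
  have := S5_fin_sig d
  have := S5_fin_shell d R φ
  have : IsFiniteMeasure (ENNReal.ofReal lam • sig d) :=
    Measure.smul_finite _ ENNReal.ofReal_ne_top
  have hmc : Measurable (ch U : Eu d → Sph d) := (continuous_ch U).measurable
  refine Lam_mono _ _ ENNReal.ofReal_ne_top hmc ?_ ?_ ?_ N
  · rw [Measure.le_iff]
    intro B hB
    have hBS : MeasurableSet (B ∩ Sb R φ z) := hB.inter (measurableSet_Sb R φ z)
    have hpos : ∀ x ∈ B ∩ Sb R φ z, 0 < inner ℝ (x : V d) (U (pole d)) := by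
      rintro x ⟨-, -, h2⟩
      have hx : ‖(x : V d)‖ = 1 := by simp
      have hz : ‖(z : V d)‖ = 1 := by simp
      have h3 := norm_sub_sq_real (x : V d) (z : V d)
      rw [hx, hz] at h3
      rw [hU]
      have hD0 : 0 ≤ ‖(x : V d) - z‖ := norm_nonneg _
      have hDR : ‖(x : V d) - z‖ ≤ R := by nlinarith [mul_pos hR (mul_pos hR hR)]
      nlinarith
    have h1 := ch_up U hBS hpos
    rw [Measure.restrict_apply hB, Measure.smul_apply, smul_eq_mul, Measure.smul_apply, smul_eq_mul,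
      Measure.map_apply hmc hB, Measure.restrict_apply (hmc hB)]
    calc ENNReal.ofReal lam * sig d (B ∩ Sb R φ z)
        ≤ ENNReal.ofReal lam * (ENNReal.ofReal (1 / area d) * volume (ch U ⁻¹' (B ∩ Sb R φ z))) :=
          mul_le_mul_right h1 _
      _ = ENNReal.ofReal (lam / area d) * volume (ch U ⁻¹' (B ∩ Sb R φ z)) := by
          rw [← mul_assoc, ← ENNReal.ofReal_mul hlam, mul_one_div]
      _ ≤ ENNReal.ofReal (lam / area d) * volume (ch U ⁻¹' B ∩ shell d R φ) := by
          refine mul_le_mul_right (measure_mono ?_) _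
          rw [preimage_inter]
          exact inter_subset_inter_right _ (ch_Sb hR hR2 hφ hφ4 hU)
  · have h1 : Continuous fun p : Sph d × Sph d => ‖(p.1 : V d) - p.2‖ :=
      ((continuous_subtype_val.comp continuous_fst).sub
        (continuous_subtype_val.comp continuous_snd)).norm
    exact measurableSet_lt h1.measurable measurable_const
  · intro u v huv
    exact lt_of_le_of_lt (dist_ch_ch U u v) huv

end Pool.Agent.Helper6.HD
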