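import Pool.Agent.Helper6.HD.Defs

/-!
# PIECE HD-S6: the uniform measure is invariant under the antipodal map
-/

open MeasureTheory Set
open scoped ENNReal Pointwise

namespace Pool.Agent.Helper6.HD

open Pool.Agent.Helper97.BG

/-- `Measure.toSphere_apply'` for `B` and `-B`: `Ioo 0 1 • (-B) = -(Ioo 0 1 • B)` and the volume
is invariant under `x ↦ -x`. -/
theorem sig_neg (d : ℕ) : MeasurePreserving (fun x : Sph d => -x) (sig d) (sig d) := by
  have hm : Measurable fun x : Sph d => -x := continuous_neg.measurable
  refine ⟨hm, ?_⟩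
  ext s hs
  rw [Measure.map_apply hm hs]
  have key : (volume : Measure (V d)).toSphere ((fun x : Sph d => -x) ⁻¹' s) =
      (volume : Measure (V d)).toSphere s := by
    rw [Measure.toSphere_apply' _ (hm hs), Measure.toSphere_apply' _ hs]
    have e1 : (Subtype.val '' ((fun x : Sph d => -x) ⁻¹' s) : Set (V d)) =
        -(Subtype.val '' s : Set (V d)) := by
      ext y
      constructor
      · rintro ⟨x, hx, rfl⟩
        exact ⟨-x, hx, rfl⟩
      · rintro ⟨x, hx, hxy⟩
        refine ⟨-x, ?_, ?_⟩
        · show - -x ∈ s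
          rw [neg_neg]
          exact hx
        · show -(x : V d) = y
          rw [hxy, neg_neg]
    rw [e1]
    have e2 : Ioo (0 : ℝ) 1 • (-(Subtype.val '' s : Set (V d))) =
        -(Ioo (0 : ℝ) 1 • (Subtype.val '' s : Set (V d))) := by
      ext y
      simp only [Set.mem_neg, Set.mem_smul]
      constructor
      · rintro ⟨a, ha, z, hz, rfl⟩
        exact ⟨a, ha, -z, hz, by simp⟩
      · rintro ⟨a, ha, z, hz, hy⟩
        refine ⟨a, ha, -z, by rw [neg_neg]; exact hz, ?_⟩
        rw [smul_neg, hy, neg_neg]
    rw [e2, Measure.measure_neg]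
  simp only [sig, Measure.smul_apply, key]

end Pool.Agent.Helper6.HD
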