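import Pool.Agent.Helper6.HD.P3
import Pool.Agent.Helper6.HD.S5
import Pool.Agent.Helper6.HD.S6

/-!
# PIECE HD-P4: the measure of the bad pairs is `Lam`
-/

open MeasureTheory Set
open scoped ENNReal

namespace Pool.Agent.Helper6.HD

open Pool.Agent.Helper97.BG

private theorem P4_sig_finite (d : ℕ) : IsFiniteMeasure (sig d) := by
  unfold sig
  have h1 : (volume : Measure (V d)).toSphere univ ≠ 0 := by
    rw [Ne, Measure.measure_univ_eq_zero]
    exact Measure.toSphere_ne_zero _
  constructor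
  rw [Measure.smul_apply, smul_eq_mul]
  exact ENNReal.mul_lt_top (ENNReal.inv_lt_top.mpr (pos_iff_ne_zero.mpr h1)) (measure_lt_top _ _)

private theorem P4_ind_eq {X : Type*} (p : X → Prop) :
    (fun x => ind (p x)) = {x | p x}.indicator 1 := by
  classical
  funext x
  unfold ind
  by_cases h : p x
  · simp [h]
  · simp [h]

private theorem P4_meas_ind {X : Type*} [MeasurableSpace X] {p : X → Prop}
    (hp : MeasurableSet {x | p x}) : Measurable fun x => ind (p x) := by
  rw [P4_ind_eq]
  exact measurable_one.indicator hp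

private theorem P4_neg_meas (d : ℕ) : Measurable fun x : Sph d => -x := continuous_neg.measurable

/-- `(Fin N ⊕ Fin N → S) ≃ (Fin N → S) × (Fin N → S)`
(`measurePreserving_sumPiEquivProdPi`), replace the second group by its negatives (`sig_neg`),
and `∫ over tuples in Sb` is the integral for the restricted measure (`Measure.restrict_pi_pi`).
`a ≤ ‖x + y‖ ↔ ¬ ‖x - (-y)‖ < a`. -/
theorem PP_le {d : ℕ} (a R φ : ℝ) (N : ℕ) (z : Sph d) {c : ℝ≥0∞} (hc : c ≠ ∞) :
    (Measure.pi fun _ : Fin N ⊕ Fin N => c • sig d) {x | PP a R φ N z x} ≤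
      Lam ((c • sig d).restrict (Sb R φ z)) N (fun x y => ‖(x : V d) - y‖ < a) := by
  classical
  have := P4_sig_finite d
  set μ : Measure (Sph d) := c • sig d with hμ
  have : IsFiniteMeasure μ := by
    constructor
    rw [hμ, Measure.smul_apply, smul_eq_mul]
    exact ENNReal.mul_lt_top (lt_top_iff_ne_top.mpr hc) (measure_lt_top _ _)
  set ν : Measure (Fin N → Sph d) := Measure.pi fun _ => μ with hν
  have hSb := measurableSet_Sb (d := d) R φ z
  have hP : MeasurableSet (Set.univ.pi fun _ : Fin N => Sb R φ z) := MeasurableSet.univ_pi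
    fun _ => hSb
  -- negation preserves `ν`
  have hneg : MeasurePreserving (fun (y : Fin N → Sph d) i => -(y i)) ν ν :=
    measurePreserving_pi (fun _ => μ) (fun _ => μ) fun _ => (sig_neg d).smul_measure c
  -- the relation
  have hQm : MeasurableSet {p : (Fin N → Sph d) × (Fin N → Sph d) |
      ∀ i j, ¬ ‖((p.1 i : Sph d) : V d) - p.2 j‖ < a} := by
    rw [Set.ofPred_forall]
    refine MeasurableSet.iInter fun i => ?_
    rw [Set.ofPred_forall]
    refine MeasurableSet.iInter fun j => ?_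
    have h1 : Measurable fun p : (Fin N → Sph d) × (Fin N → Sph d) =>
        ‖((p.1 i : Sph d) : V d) - p.2 j‖ := by fun_prop
    exact (measurableSet_lt h1 measurable_const).compl
  have hTm : MeasurableSet {p : (Fin N → Sph d) × (Fin N → Sph d) |
      (∀ i, p.1 i ∈ Sb R φ z) ∧ (∀ j, p.2 j ∈ Sb R φ z) ∧
        ∀ i j, ¬ ‖((p.1 i : Sph d) : V d) - p.2 j‖ < a} := by
    have h1 : MeasurableSet ((fun p : (Fin N → Sph d) × (Fin N → Sph d) => p.1) ⁻¹'
        (Set.univ.pi fun _ : Fin N => Sb R φ z)) := measurable_fst hP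
    have h2 : MeasurableSet ((fun p : (Fin N → Sph d) × (Fin N → Sph d) => p.2) ⁻¹'
        (Set.univ.pi fun _ : Fin N => Sb R φ z)) := measurable_snd hP
    have h3 := h1.inter (h2.inter hQm)
    convert h3 using 1
    ext p
    simp [Set.mem_pi]
  have hPP := measurableSet_PP (d := d) a R φ N z
  have hstep1 : (Measure.pi fun _ : Fin N ⊕ Fin N => μ) {x | PP a R φ N z x} =
      ∫⁻ x, ∫⁻ y, ind ((∀ i, x i ∈ Sb R φ z) ∧ (∀ j, y j ∈ Sb R φ z) ∧
        ∀ i j, ¬ ‖((x i : Sph d) : V d) - y j‖ < a) ∂ν ∂ν := by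
    have hmp := (measurePreserving_sumPiEquivProdPi (X := fun _ : Fin N ⊕ Fin N => Sph d)
      (fun _ => μ))
    have hmp2 : MeasurePreserving (Prod.map id (fun (y : Fin N → Sph d) i => -(y i)))
        (ν.prod ν) (ν.prod ν) := (MeasurePreserving.id ν).prod hneg
    have hcomp := hmp2.comp hmp
    have hset : {x : Fin N ⊕ Fin N → Sph d | PP a R φ N z x} =
        (Prod.map id (fun (y : Fin N → Sph d) i => -(y i)) ∘
          (MeasurableEquiv.sumPiEquivProdPi (fun _ : Fin N ⊕ Fin N => Sph d))) ⁻¹'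
        {p : (Fin N → Sph d) × (Fin N → Sph d) |
          (∀ i, p.1 i ∈ Sb R φ z) ∧ (∀ j, p.2 j ∈ Sb R φ z) ∧
          ∀ i j, ¬ ‖((p.1 i : Sph d) : V d) - p.2 j‖ < a} := by
      ext x
      simp only [PP, Set.mem_preimage, Function.comp_apply, Set.mem_ofPred_eq]
      have e1 : ∀ i, (Prod.map id (fun (y : Fin N → Sph d) i => -(y i))
          ((MeasurableEquiv.sumPiEquivProdPi (fun _ : Fin N ⊕ Fin N => Sph d)) x)).1 i =
          x (Sum.inl i) := fun i => rfl
      have e2 : ∀ i, (Prod.map id (fun (y : Fin N → Sph d) i => -(y i))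
          ((MeasurableEquiv.sumPiEquivProdPi (fun _ : Fin N ⊕ Fin N => Sph d)) x)).2 i =
          -x (Sum.inr i) := fun i => rfl
      simp only [e1, e2, not_lt]
      have e3 : ∀ i j, ((x (Sum.inl i) : Sph d) : V d) - ((-x (Sum.inr j) : Sph d) : V d) =
          (x (Sum.inl i) : V d) + x (Sum.inr j) := by
        intro i j
        rw [coe_neg_sphere, sub_neg_eq_add]
      simp only [e3]
    rw [hset, hcomp.measure_preimage hTm.nullMeasurableSet, ← lintegral_indicator_one hTm,
      ← P4_ind_eq, lintegral_prod _ (P4_meas_ind hTm).aemeasurable]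
  rw [hstep1]
  unfold Lam
  rw [← Measure.restrict_pi_pi (μ := fun _ : Fin N => μ) (s := fun _ => Sb R φ z), ← hν,
    ← lintegral_indicator hP]
  apply le_of_eq
  congr 1
  funext x
  by_cases hx : x ∈ Set.univ.pi fun _ : Fin N => Sb R φ z
  · rw [Set.indicator_of_mem hx, ← lintegral_indicator hP]
    congr 1
    funext y
    by_cases hy : y ∈ Set.univ.pi fun _ : Fin N => Sb R φ z
    · rw [Set.indicator_of_mem hy]
      congr 1
      have hx' : ∀ i, x i ∈ Sb R φ z := fun i => hx i (Set.mem_univ i)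
      have hy' : ∀ i, y i ∈ Sb R φ z := fun i => hy i (Set.mem_univ i)
      exact propext ⟨fun h => h.2.2, fun h => ⟨hx', hy', h⟩⟩
    · rw [Set.indicator_of_notMem hy]
      unfold ind
      rw [if_neg]
      exact fun h => hy fun i _ => h.2.1 i
  · rw [Set.indicator_of_notMem hx]
    have h0 : ∀ y : Fin N → Sph d, ind ((∀ i, x i ∈ Sb R φ z) ∧ (∀ j, y j ∈ Sb R φ z) ∧
        ∀ i j, ¬ ‖((x i : Sph d) : V d) - y j‖ < a) = 0 := by
      intro y
      unfold ind
      rw [if_neg]
      exact fun h => hx fun i _ => h.1 i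
    simp only [h0, lintegral_zero]

end Pool.Agent.Helper6.HD
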