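import Pool.Agent.Helper6.HD.Defs
import Pool.Agent.Helper97.BG.St.P6

/-!
# PIECE HD-P5: independence over disjoint regions
-/

open MeasureTheory Set
open scoped ENNReal

namespace Pool.Agent.Helper6.HD

open Pool.Agent.Helper97.BG

/-- `Poi_split mu hD`: for `A ⊆ Dᶜ`, `B ⊆ D` (a.e., `Poi_restrict_mono`) `f (A ∪ B) = f B` and
`g (A ∪ B) = g A`, so `Poi mu (f g) = Poi (mu|Dᶜ) g * Poi (mu|D) f` (`Poi_const_mul`), and the
same with `g = 1`, `f = 1`. -/
theorem Poi_mul {S : Type*} [MeasurableSpace S] (mu : Measure S) [IsFiniteMeasure mu] {D : Set S}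
    (hD : MeasurableSet D) {f g : Set S → ℝ≥0∞} (hf : MS f) (hg : MS g)
    (hfD : ∀ A, f A = f (A ∩ D)) (hgD : ∀ A, g A = g (A \ D)) :
    Poi mu (fun A => f A * g A) = Poi mu f * Poi mu g := by
  have hfg : MS (fun A => f A * g A) := fun n => (hf n).mul (hg n)
  have h1 : Poi mu g = Poi (mu.restrict Dᶜ) g := Poi_local mu hD hg hgD
  have h2 : Poi mu f = Poi (mu.restrict D) f := by
    have h3 := Poi_local mu hD.compl hf (fun A => by
      rw [hfD A]
      congr 1
      ext x
      simp)
    rwa [compl_compl] at h3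
  rw [Poi_split mu hD hfg, h1, h2, ← Poi_const_mul _ hg]
  have h4 : ∀ A : Set S, A ⊆ Dᶜ → Poi (mu.restrict D) (fun B => f (A ∪ B) * g (A ∪ B)) =
      Poi (mu.restrict D) f * g A := by
    intro A hA
    rw [mul_comm, ← Poi_const_mul _ hf]
    have h5 : ∀ B : Set S, B ⊆ D → f (A ∪ B) * g (A ∪ B) = g A * f B := by
      intro B hB
      have e1 : (A ∪ B) ∩ D = B ∩ D := by
        ext x
        constructor
        · rintro ⟨hx | hx, hxD⟩
          · exact absurd hxD (hA hx)
          · exact ⟨hx, hxD⟩
        · rintro ⟨hx, hxD⟩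
          exact ⟨Or.inr hx, hxD⟩
      have e2 : (A ∪ B) \ D = A \ D := by
        ext x
        constructor
        · rintro ⟨hx | hx, hxD⟩
          · exact ⟨hx, hxD⟩
          · exact absurd (hB hx) hxD
        · rintro ⟨hx, hxD⟩
          exact ⟨Or.inl hx, hxD⟩
      rw [hfD (A ∪ B), hgD (A ∪ B), e1, e2, ← hfD, ← hgD, mul_comm]
    apply le_antisymm
    · exact Poi_restrict_mono mu hD fun B _ hB => (h5 B hB).le
    · exact Poi_restrict_mono mu hD fun B _ hB => (h5 B hB).ge
  apply le_antisymm
  · exact Poi_restrict_mono mu hD.compl fun A _ hA => (h4 A hA).le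
  · exact Poi_restrict_mono mu hD.compl fun A _ hA => (h4 A hA).ge

private theorem P5_ind_and (p q : Prop) : ind (p ∧ q) = ind p * ind q := by
  unfold ind
  by_cases hp : p <;> by_cases hq : q <;> simp [hp, hq]

/-- Induction on `L` with `Poi_mul`. -/
theorem Poi_indep {S ι : Type*} [MeasurableSpace S] (mu : Measure S) [IsFiniteMeasure mu]
    (D : ι → Set S) (E : ι → Set S → Prop) (hD : ∀ l, MeasurableSet (D l))
    (hE : ∀ l, MS (fun A => ind (E l A))) (hloc : ∀ l A, E l A ↔ E l (A ∩ D l)) (p : ℝ≥0∞)
    (L : Finset ι) (hdis : ∀ l ∈ L, ∀ l' ∈ L, l ≠ l' → Disjoint (D l) (D l'))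
    (hp : ∀ l ∈ L, Poi mu (fun A => ind (E l A)) ≤ p) :
    Poi mu (fun A => ind (∀ l ∈ L, E l A)) ≤ p ^ L.card := by
  classical
  have hMS : ∀ L : Finset ι, MS (fun A => ind (∀ l ∈ L, E l A)) := by
    intro L
    induction L using Finset.induction_on with
    | empty =>
      intro n
      simp [ind]
    | insert l L hl ih =>
      have e : (fun A : Set S => ind (∀ l' ∈ insert l L, E l' A)) =
          fun A => ind (E l A) * ind (∀ l' ∈ L, E l' A) := by
        funext A
        rw [← P5_ind_and]
        congr 1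
        simp
      rw [e]
      exact fun n => (hE l n).mul (ih n)
  induction L using Finset.induction_on with
  | empty =>
    have e : (fun A : Set S => ind (∀ l ∈ (∅ : Finset ι), E l A)) = fun _ => 1 := by
      funext A
      simp [ind]
    rw [e, Poi_const]
    simp
  | insert l L hl ih =>
    have e : (fun A : Set S => ind (∀ l' ∈ insert l L, E l' A)) =
        fun A => ind (E l A) * ind (∀ l' ∈ L, E l' A) := by
      funext A
      rw [← P5_ind_and]
      congr 1
      simp
    rw [e, Finset.card_insert_of_notMem hl, pow_succ, mul_comm (p ^ _) p]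
    rw [Poi_mul mu (hD l) (hE l) (hMS L)]
    · apply mul_le_mul' (hp l (Finset.mem_insert_self _ _))
      exact ih (fun a ha b hb => hdis a (Finset.mem_insert_of_mem ha) b
        (Finset.mem_insert_of_mem hb)) (fun a ha => hp a (Finset.mem_insert_of_mem ha))
    · intro A
      congr 1
      exact propext (hloc l A)
    · intro A
      congr 1
      apply propext
      refine forall₂_congr fun l' hl' => ?_
      have hne : l ≠ l' := by
        rintro rfl
        exact hl hl'
      have hd := hdis l (Finset.mem_insert_self _ _) l' (Finset.mem_insert_of_mem hl') hne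
      have e2 : (A \ D l) ∩ D l' = A ∩ D l' := by
        ext x
        constructor
        · rintro ⟨⟨hx, -⟩, hx'⟩
          exact ⟨hx, hx'⟩
        · rintro ⟨hx, hx'⟩
          exact ⟨⟨hx, fun h => Set.disjoint_left.1 hd h hx'⟩, hx'⟩
      rw [hloc l' A, hloc l' (A \ D l), e2]

end Pool.Agent.Helper6.HD
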