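import Pool.Agent.Helper6.HD.Defs
import Pool.Agent.Helper97.BG.St.P6

/-!
# PIECE HD-P6: lower tail of the number of points in a region
-/

open MeasureTheory Set
open scoped ENNReal

namespace Pool.Agent.Helper6.HD

open Pool.Agent.Helper97.BG

private theorem P6_ind_true {p : Prop} (h : p) : ind p = 1 := if_pos h

private theorem P6_ind_false {p : Prop} (h : ¬ p) : ind p = 0 := if_neg h

private theorem P6_ind_le (p : Prop) : ind p ≤ 1 := by
  by_cases h : p
  · rw [P6_ind_true h]
  · rw [P6_ind_false h]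
    exact zero_le_one

private theorem P6_card {S : Type*} {D : Set S} (K n : ℕ) (X : Fin n → S) :
    K ≤ (range X ∩ D).ncard ↔
      ∃ σ : Fin K ↪ Fin n, (∀ i, X (σ i) ∈ D) ∧ ∀ i j, i ≠ j → X (σ i) ≠ X (σ j) := by
  classical
  have hfin : (range X ∩ D).Finite := (finite_range X).inter_of_left D
  constructor
  · intro h
    have : Fintype (range X ∩ D : Set S) := hfin.fintype
    have h1 : Fintype.card (Fin K) ≤ Fintype.card (range X ∩ D : Set S) := by
      rw [Fintype.card_fin, ← Nat.card_eq_fintype_card, Nat.card_coe_set_eq]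
      exact h
    obtain ⟨e⟩ := Function.Embedding.nonempty_of_card_le h1
    have h2 : ∀ i, ∃ j, X j = (e i : S) := fun i => (e i).2.1
    choose σ hσ using h2
    have hinj : ∀ i j, i ≠ j → X (σ i) ≠ X (σ j) := by
      intro i j hij h3
      rw [hσ, hσ] at h3
      exact hij (e.injective (Subtype.ext h3))
    refine ⟨⟨σ, ?_⟩, ?_, hinj⟩
    · intro i j hij
      by_contra hne
      exact hinj i j hne (by rw [hij])
    · intro i
      change X (σ i) ∈ D
      rw [hσ]
      exact (e i).2.2
  · rintro ⟨σ, h1, h2⟩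
    have h3 : (range fun i => X (σ i)) ⊆ range X ∩ D := by
      rintro _ ⟨i, rfl⟩
      exact ⟨⟨σ i, rfl⟩, h1 i⟩
    have h4 : Function.Injective fun i => X (σ i) := by
      intro i j hij
      by_contra hne
      exact h2 i j hne hij
    have h5 := ncard_le_ncard h3 hfin
    have h6 : (range fun i => X (σ i)).ncard = K := by
      rw [← image_univ, ncard_image_of_injective _ h4, ncard_univ, Nat.card_eq_fintype_card,
        Fintype.card_fin]
    omega

/-- `ind ((range X ∩ D).ncard < K)` is a measurable function of `X`: the complement is the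
union over injections `σ : Fin K ↪ Fin n` of `{X | ∀ i, X (σ i) ∈ D, and the X (σ i) are
different}`. -/
theorem MS_low {S : Type*} [MeasurableSpace S] [MeasurableEq S] {D : Set S}
    (hD : MeasurableSet D) (K : ℕ) : MS (fun A : Set S => ind ((A ∩ D).ncard < K)) := by
  classical
  intro n
  have h1 : MeasurableSet {X : Fin n → S | (range X ∩ D).ncard < K} := by
    have h2 : {X : Fin n → S | (range X ∩ D).ncard < K} =
        (⋃ σ : Fin K ↪ Fin n, {X : Fin n → S | (∀ i, X (σ i) ∈ D) ∧
          ∀ i j, i ≠ j → X (σ i) ≠ X (σ j)})ᶜ := by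
      ext X
      rw [mem_compl_iff, mem_iUnion, mem_ofPred_eq, ← not_le, P6_card]
      rfl
    rw [h2]
    refine (MeasurableSet.iUnion fun σ => ?_).compl
    have h3 : {X : Fin n → S | (∀ i, X (σ i) ∈ D) ∧ ∀ i j, i ≠ j → X (σ i) ≠ X (σ j)} =
        (⋂ i, {X : Fin n → S | X (σ i) ∈ D}) ∩
          ⋂ i, ⋂ j, ⋂ _ : i ≠ j, {X : Fin n → S | X (σ i) = X (σ j)}ᶜ := by
      ext X
      simp only [mem_inter_iff, mem_iInter, mem_compl_iff, mem_ofPred_eq, ne_eq]
    rw [h3]
    refine MeasurableSet.inter (MeasurableSet.iInter fun i => ?_) (MeasurableSet.iInter fun i =>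
      MeasurableSet.iInter fun j => MeasurableSet.iInter fun _ => MeasurableSet.compl ?_)
    · exact measurable_pi_apply (σ i) hD
    · exact measurableSet_eq_fun (measurable_pi_apply _) (measurable_pi_apply _)
  have h4 : (fun X : Fin n → S => ind ((range X ∩ D).ncard < K)) =
      {X : Fin n → S | (range X ∩ D).ncard < K}.indicator fun _ => (1 : ℝ≥0∞) := by
    funext X
    by_cases h : (range X ∩ D).ncard < K
    · have h5 : X ∈ {X : Fin n → S | (range X ∩ D).ncard < K} := h
      rw [P6_ind_true h, indicator_of_mem h5]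
    · have h5 : X ∉ {X : Fin n → S | (range X ∩ D).ncard < K} := h
      rw [P6_ind_false h, indicator_of_notMem h5]
  change Measurable fun X : Fin n → S => ind ((range X ∩ D).ncard < K)
  rw [h4]
  exact measurable_const.indicator h1

/-- almost surely the points are distinct -/
private theorem P6_injective {S : Type*} [MeasurableSpace S] [MeasurableEq S]
    (ν : Measure S) [SigmaFinite ν] [NullSingletonClass ν] (n : ℕ) :
    ∀ᵐ p : Fin n → S ∂(Measure.pi fun _ : Fin n => ν), Function.Injective p := by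
  rcases n with _ | n
  · exact Filter.Eventually.of_forall fun p i => i.elim0
  have key : ∀ i : Fin (n + 1), ∀ k : Fin n,
      ∀ᵐ p : Fin (n + 1) → S ∂(Measure.pi fun _ : Fin (n + 1) => ν), p i ≠ p (i.succAbove k) := by
    intro i k
    have hmp := measurePreserving_piFinSuccAbove (fun _ : Fin (n + 1) => ν) i
    have hS : MeasurableSet {z : S × (Fin n → S) | z.1 = z.2 k} :=
      measurableSet_eq_fun measurable_fst ((measurable_pi_apply k).comp measurable_snd)
    rw [ae_iff]
    have hpre : {p : Fin (n + 1) → S | ¬ (p i ≠ p (i.succAbove k))} =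
        (MeasurableEquiv.piFinSuccAbove (fun _ : Fin (n + 1) => S) i) ⁻¹'
          {z : S × (Fin n → S) | z.1 = z.2 k} := by
      ext p
      simp only [ne_eq, not_not, mem_ofPred_eq, mem_preimage]
      rfl
    rw [hpre, hmp.measure_preimage hS.nullMeasurableSet]
    rw [Measure.prod_apply_symm hS]
    simp only [lintegral_eq_zero_iff' (measurable_measure_prodMk_right hS).aemeasurable]
    filter_upwards with q
    have : (fun x => (x, q)) ⁻¹' {z : S × (Fin n → S) | z.1 = z.2 k} = {q k} := by
      ext x; simp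
    rw [this]
    simp
  have hall : ∀ᵐ p : Fin (n + 1) → S ∂(Measure.pi fun _ : Fin (n + 1) => ν),
      ∀ i : Fin (n + 1), ∀ k : Fin n, p i ≠ p (i.succAbove k) := by
    rw [ae_all_iff]
    intro i
    rw [ae_all_iff]
    exact key i
  filter_upwards [hall] with p hp
  intro a b hab
  by_contra hne
  obtain ⟨k, hk⟩ := Fin.exists_succAbove_eq (Ne.symm hne)
  exact hp a k (by rw [hk]; exact hab)

private theorem P6_tup_zero {S : Type*} [MeasurableSpace S] [MeasurableEq S]
    (ν : Measure S) [IsFiniteMeasure ν] [NullSingletonClass ν] {K n : ℕ} (hn : K ≤ n) :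
    tup ν n (fun B => ind (B.ncard < K)) = 0 := by
  unfold tup
  rw [← lintegral_zero (μ := Measure.pi fun _ : Fin n => ν)]
  apply lintegral_congr_ae
  filter_upwards [P6_injective ν n] with X hX
  apply P6_ind_false
  rw [← image_univ, ncard_image_of_injective _ hX, ncard_univ, Nat.card_eq_fintype_card,
    Fintype.card_fin]
  omega

private theorem P6_bound {S : Type*} [MeasurableSpace S] [MeasurableEq S]
    (ν : Measure S) [IsFiniteMeasure ν] [NullSingletonClass ν] (K : ℕ)
    (hK : (8 * K : ℝ≥0∞) ≤ ν univ) :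
    Poi ν (fun B => ind (B.ncard < K)) ≤ ENNReal.ofReal (Real.exp (-(K : ℝ))) := by
  have hm : ν univ ≠ ∞ := measure_ne_top ν univ
  set m : ℝ := (ν univ).toReal with hmdef
  have hm8 : 8 * (K : ℝ) ≤ m := by
    have h1 := ENNReal.toReal_mono hm hK
    simpa using h1
  have h1 : ∀ n : ℕ, ((n.factorial : ℝ≥0∞))⁻¹ * tup ν n (fun B => ind (B.ncard < K)) ≤
      ENNReal.ofReal (Real.exp (2 * K)) *
        (((n.factorial : ℝ≥0∞))⁻¹ * (ν univ * ENNReal.ofReal (Real.exp (-2))) ^ n) := by
    intro n
    rcases lt_or_ge n K with hn | hn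
    · have h2 : tup ν n (fun B => ind (B.ncard < K)) ≤ ν univ ^ n := by
        refine (tup_mono ν n (g := fun _ => 1) fun B _ => P6_ind_le _).trans ?_
        rw [tup_const, one_mul]
      have h3 : ν univ ^ n ≤ ENNReal.ofReal (Real.exp (2 * K)) *
          (ν univ * ENNReal.ofReal (Real.exp (-2))) ^ n := by
        rw [mul_pow, ← ENNReal.ofReal_pow (Real.exp_pos _).le, ← Real.exp_nat_mul,
          mul_left_comm, ← ENNReal.ofReal_mul (Real.exp_pos _).le, ← Real.exp_add]
        have h4 : (1 : ℝ≥0∞) ≤ ENNReal.ofReal (Real.exp (2 * K + n * -2)) := by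
          rw [ENNReal.one_le_ofReal]
          apply Real.one_le_exp
          have h5 : (n : ℝ) ≤ K := by exact_mod_cast hn.le
          linarith
        calc ν univ ^ n = ν univ ^ n * 1 := (mul_one _).symm
          _ ≤ _ := mul_le_mul_right h4 _
      calc ((n.factorial : ℝ≥0∞))⁻¹ * tup ν n (fun B => ind (B.ncard < K))
          ≤ ((n.factorial : ℝ≥0∞))⁻¹ * (ENNReal.ofReal (Real.exp (2 * K)) *
            (ν univ * ENNReal.ofReal (Real.exp (-2))) ^ n) :=
            mul_le_mul_right (h2.trans h3) _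
        _ = _ := by ring
    · rw [P6_tup_zero ν hn, mul_zero]
      exact zero_le
  unfold Poi Pool.Agent.Helper97.BG.em
  have h2 : ENNReal.ofReal (Real.exp (-(ν univ).toReal)) *
      ∑' n : ℕ, ((n.factorial : ℝ≥0∞))⁻¹ * tup ν n (fun B => ind (B.ncard < K)) ≤
      ENNReal.ofReal (Real.exp (-(ν univ).toReal)) * (ENNReal.ofReal (Real.exp (2 * K)) *
        ENNReal.ofReal (Real.exp (ν univ * ENNReal.ofReal (Real.exp (-2))).toReal)) := by
    rw [← Pool.Agent.Helper97.BG.p4_exp _ (ENNReal.mul_ne_top hm ENNReal.ofReal_ne_top)]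
    exact mul_le_mul_right
      ((ENNReal.tsum_le_tsum h1).trans (le_of_eq ENNReal.tsum_mul_left)) _
  refine h2.trans ?_
  rw [← ENNReal.ofReal_mul (Real.exp_pos _).le, ← Real.exp_add,
    ← ENNReal.ofReal_mul (Real.exp_pos _).le, ← Real.exp_add]
  apply ENNReal.ofReal_le_ofReal
  apply Real.exp_le_exp.2
  rw [ENNReal.toReal_mul, ENNReal.toReal_ofReal (Real.exp_pos _).le, ← hmdef]
  have h3 : Real.exp (-2) ≤ 1 / 2 := by
    have h4 : (2 : ℝ) ≤ Real.exp 2 := by
      have := Real.add_one_le_exp (2 : ℝ)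
      linarith
    rw [Real.exp_neg, one_div]
    exact inv_anti₀ (by norm_num) h4
  have h5 : 0 ≤ m := ENNReal.toReal_nonneg
  have h6 : m * Real.exp (-2) ≤ m * (1 / 2) := mul_le_mul_of_nonneg_left h3 h5
  have h7 : (0 : ℝ) ≤ K := Nat.cast_nonneg K
  linarith

/-- `Poi_split mu hD`: the functional only sees `B ⊆ D`; for almost all tuples the points are
different (`NullSingletonClass`), so with `m = mu D` the left side is
`e^(-m) ∑_{n < K} m^n/n! ≤ e^(-m) ∑_n e^(2(K - n)) m^n/n! = exp (2K - m (1 - e^(-2))) ≤ exp (-K)`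
as `m ≥ 8 K`. -/
theorem Poi_low {S : Type*} [MeasurableSpace S] [MeasurableEq S] (mu : Measure S)
    [IsFiniteMeasure mu] [NullSingletonClass mu] {D : Set S} (hD : MeasurableSet D) (K : ℕ)
    (hK : (8 * K : ℝ≥0∞) ≤ mu D) :
    Poi mu (fun A => ind ((A ∩ D).ncard < K)) ≤ ENNReal.ofReal (Real.exp (-(K : ℝ))) := by
  rw [Poi_split mu hD (MS_low hD K)]
  rw [← Poi_const (mu.restrict Dᶜ) (ENNReal.ofReal (Real.exp (-(K : ℝ))))]
  refine Poi_restrict_mono mu hD.compl fun A _ hA => ?_
  have h1 : Poi (mu.restrict D) (fun B => ind (((A ∪ B) ∩ D).ncard < K)) ≤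
      Poi (mu.restrict D) (fun B => ind (B.ncard < K)) := by
    refine Poi_restrict_mono mu hD fun B _ hB => le_of_eq ?_
    congr 2
    congr 1
    ext x
    constructor
    · rintro ⟨hx | hx, hx'⟩
      · exact absurd hx' (hA hx)
      · exact hx
    · intro hx
      exact ⟨Or.inr hx, hB hx⟩
  refine h1.trans (P6_bound _ K ?_)
  rw [Measure.restrict_apply_univ]
  exact hK

end Pool.Agent.Helper6.HD
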