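import Pool.Agent.Helper6.HD.P6
import Pool.Agent.Helper6.HD.S5

/-!
# PIECE HD-P7: measurability and locality of the bad events
-/

open MeasureTheory Set
open scoped ENNReal

namespace Pool.Agent.Helper6.HD

open Pool.Agent.Helper97.BG

private theorem p7_coe_neg {d : ℕ} (y : Sph d) : ((-y : Sph d) : V d) = -(y : V d) := rfl

private theorem p7_range_iff {d : ℕ} (a R φ : ℝ) (N : ℕ) (z : Sph d) {n : ℕ} (X : Fin n → Sph d) :
    BadPair a R φ N z (Set.range X) ↔ ∃ σ τ : Fin N → Fin n,
      (∀ i j, i ≠ j → X (σ i) ≠ X (σ j)) ∧ (∀ i j, i ≠ j → X (τ i) ≠ X (τ j)) ∧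
      (∀ i, X (σ i) ∈ Sb R φ z) ∧ (∀ i, -(X (τ i)) ∈ Sb R φ z) ∧
      ∀ i j, a ≤ ‖((X (σ i) : Sph d) : V d) + (X (τ j) : Sph d)‖ := by
  constructor
  · rintro ⟨I, J, hI, hJ, cI, cJ, sI, sJ, hIJ⟩
    have hfin : (Set.range X).Finite := Set.finite_range X
    have fI := hfin.subset hI
    have fJ := hfin.subset hJ
    have := fI.to_subtype
    have := fJ.to_subtype
    have eI : Fin N ≃ I := (Finite.equivFinOfCardEq (by rw [← cI]; rfl)).symm
    have eJ : Fin N ≃ J := (Finite.equivFinOfCardEq (by rw [← cJ]; rfl)).symm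
    choose σ hσ using fun i : Fin N => hI (eI i).2
    choose τ hτ using fun i : Fin N => hJ (eJ i).2
    refine ⟨σ, τ, fun i j hij h => ?_, fun i j hij h => ?_, fun i => ?_, fun i => ?_,
      fun i j => ?_⟩
    · rw [hσ, hσ] at h
      exact hij (eI.injective (Subtype.ext h))
    · rw [hτ, hτ] at h
      exact hij (eJ.injective (Subtype.ext h))
    · rw [hσ]
      exact sI (eI i).2
    · rw [hτ]
      exact sJ _ (eJ i).2
    · rw [hσ, hτ]
      exact hIJ _ (eI i).2 _ (eJ j).2
  · rintro ⟨σ, τ, h1, h2, h3, h4, h5⟩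
    refine ⟨Set.range fun i => X (σ i), Set.range fun i => X (τ i), ?_, ?_, ?_, ?_, ?_, ?_, ?_⟩
    · rintro _ ⟨i, rfl⟩
      exact ⟨σ i, rfl⟩
    · rintro _ ⟨i, rfl⟩
      exact ⟨τ i, rfl⟩
    · rw [← Set.image_univ, Set.ncard_image_of_injective, Set.ncard_univ, Nat.card_fin]
      intro i j h
      by_contra hij
      exact h1 i j hij h
    · rw [← Set.image_univ, Set.ncard_image_of_injective, Set.ncard_univ, Nat.card_fin]
      intro i j h
      by_contra hij
      exact h2 i j hij h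
    · rintro _ ⟨i, rfl⟩
      exact h3 i
    · rintro _ ⟨i, rfl⟩
      exact h4 i
    · rintro _ ⟨i, rfl⟩ _ ⟨j, rfl⟩
      exact h5 i j

private theorem p7_neg_cont (d : ℕ) : Continuous (fun y : Sph d => -y) :=
  Continuous.subtype_mk (continuous_subtype_val.neg) _

private theorem p7_meas_pair {d : ℕ} (a R φ : ℝ) (N : ℕ) (z : Sph d) (n : ℕ) :
    MeasurableSet {X : Fin n → Sph d | BadPair a R φ N z (Set.range X)} := by
  have h : {X : Fin n → Sph d | BadPair a R φ N z (Set.range X)} =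
      ⋃ σ : Fin N → Fin n, ⋃ τ : Fin N → Fin n,
        ((⋂ i, ⋂ j, {X : Fin n → Sph d | i ≠ j → X (σ i) ≠ X (σ j)}) ∩
          ((⋂ i, ⋂ j, {X : Fin n → Sph d | i ≠ j → X (τ i) ≠ X (τ j)}) ∩
            ((⋂ i, {X : Fin n → Sph d | X (σ i) ∈ Sb R φ z}) ∩
              ((⋂ i, {X : Fin n → Sph d | -(X (τ i)) ∈ Sb R φ z}) ∩
                ⋂ i, ⋂ j, {X : Fin n → Sph d | a ≤ ‖((X (σ i) : Sph d) : V d) +
                  (X (τ j) : Sph d)‖})))) := by
    ext X
    simp only [Set.mem_ofPred_eq, Set.mem_iUnion, Set.mem_inter_iff, Set.mem_iInter]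
    exact p7_range_iff a R φ N z X
  rw [h]
  have hne : ∀ (i j : Fin N) (σ : Fin N → Fin n),
      MeasurableSet {X : Fin n → Sph d | i ≠ j → X (σ i) ≠ X (σ j)} := by
    intro i j σ
    by_cases hij : i = j
    · have : {X : Fin n → Sph d | i ≠ j → X (σ i) ≠ X (σ j)} = Set.univ := by
        ext X
        simp [hij]
      rw [this]
      exact MeasurableSet.univ
    · have : {X : Fin n → Sph d | i ≠ j → X (σ i) ≠ X (σ j)} =
          {X : Fin n → Sph d | X (σ i) = X (σ j)}ᶜ := by
        ext X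
        simp only [Set.mem_ofPred_eq, Set.mem_compl_iff]
        exact ⟨fun h => h hij, fun h _ => h⟩
      rw [this]
      have c1 : Continuous fun X : Fin n → Sph d => X (σ i) := continuous_apply _
      have c2 : Continuous fun X : Fin n → Sph d => X (σ j) := continuous_apply _
      exact (isClosed_eq c1 c2).measurableSet.compl
  refine MeasurableSet.iUnion fun σ => MeasurableSet.iUnion fun τ => ?_
  refine MeasurableSet.inter (MeasurableSet.iInter fun i => MeasurableSet.iInter fun j =>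
    hne i j σ) (MeasurableSet.inter (MeasurableSet.iInter fun i => MeasurableSet.iInter fun j =>
    hne i j τ) (MeasurableSet.inter (MeasurableSet.iInter fun i => ?_)
    (MeasurableSet.inter (MeasurableSet.iInter fun i => ?_)
    (MeasurableSet.iInter fun i => MeasurableSet.iInter fun j => ?_))))
  · exact measurable_pi_apply (σ i) (measurableSet_Sb R φ z)
  · exact ((p7_neg_cont d).measurable.comp (measurable_pi_apply (τ i))) (measurableSet_Sb R φ z)
  · have hcont : Continuous fun X : Fin n → Sph d =>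
        ‖((X (σ i) : Sph d) : V d) + (X (τ j) : Sph d)‖ := by
      fun_prop
    exact measurableSet_le measurable_const hcont.measurable

/-- `BadPair a R φ N z (range X)` iff there are `σ τ : Fin N ↪ Fin n` with `X ∘ σ`, `X ∘ τ`
injective, values in `Sb`, `-Sb` and no edges: a finite union of measurable sets (`N ≥ 1`). Then
`MS_low`. -/
theorem MS_BadZ {d : ℕ} (a R φ : ℝ) (N k : ℕ) (z : Sph d) :
    MS (fun A : Set (Sph d) => ind (BadZ a R φ N k z A)) := by
  classical
  intro n
  have h1 := p7_meas_pair a R φ N z n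
  have h2 : MeasurableSet {X : Fin n → Sph d | Low R φ (k * N) z (Set.range X)} := by
    have h3 := MS_low (measurableSet_Ss R φ z) (k * N) n
    have h4 := h3 (measurableSet_singleton (1 : ℝ≥0∞))
    have h5 : (fun X : Fin n → Sph d => ind ((Set.range X ∩ Ss R φ z).ncard < k * N)) ⁻¹' {1} =
        {X : Fin n → Sph d | Low R φ (k * N) z (Set.range X)} := by
      ext X
      simp only [Set.mem_preimage, Set.mem_singleton_iff, Set.mem_ofPred_eq]
      unfold Low ind
      split_ifs with h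
      · simp [h]
      · simp [h]
    rwa [h5] at h4
  have h6 : (fun X : Fin n → Sph d => ind (BadZ a R φ N k z (Set.range X))) =
      Set.indicator ({X : Fin n → Sph d | BadPair a R φ N z (Set.range X)} ∪
        {X : Fin n → Sph d | Low R φ (k * N) z (Set.range X)}) (fun _ => (1 : ℝ≥0∞)) := by
    funext X
    by_cases h : BadZ a R φ N k z (Set.range X)
    · rw [Set.indicator_of_mem (by exact h)]
      simp [ind, h]
    · rw [Set.indicator_of_notMem (by exact h)]
      simp [ind, h]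
  rw [h6]
  exact measurable_const.indicator (h1.union h2)

private theorem p7_Sb {d : ℕ} {R φ : ℝ} (hR : 0 < R) {z x : Sph d} (hx : x ∈ Sb R φ z) :
    ‖(x : V d) - z‖ < 2 * R := by
  have h := hx.2
  nlinarith [mul_pos (mul_pos hR hR) hR]

private theorem p7_Ss {d : ℕ} {R φ : ℝ} (hR : 0 < R) {z x : Sph d} (hx : x ∈ Ss R φ z) :
    ‖(x : V d) - z‖ < 2 * R := by
  have h := hx.2
  have h1 : (0 : ℝ) ≤ 1 / d := by positivity
  nlinarith [mul_nonneg h1 hR.le]

/-- All the points which matter are in `Dg z (2 R)`: `Sb`, `-Sb`, `Ss` are contained in it. -/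
theorem BadZ_local {d : ℕ} {a R φ : ℝ} (hR : 0 < R) (N k : ℕ) (z : Sph d) (A : Set (Sph d)) :
    BadZ a R φ N k z A ↔ BadZ a R φ N k z (A ∩ Dg z (2 * R)) := by
  have h1 : BadPair a R φ N z A ↔ BadPair a R φ N z (A ∩ Dg z (2 * R)) := by
    constructor
    · rintro ⟨I, J, hI, hJ, cI, cJ, sI, sJ, hIJ⟩
      refine ⟨I, J, fun x hx => ⟨hI hx, ?_⟩, fun y hy => ⟨hJ hy, ?_⟩, cI, cJ, sI, sJ, hIJ⟩
      · exact lt_of_le_of_lt (min_le_left _ _) (p7_Sb hR (sI hx))
      · have h := p7_Sb hR (sJ y hy)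
        have e : ‖((-y : Sph d) : V d) - z‖ = ‖(y : V d) + z‖ := by
          rw [p7_coe_neg, ← norm_neg]
          congr 1
          abel
        rw [e] at h
        exact lt_of_le_of_lt (min_le_right _ _) h
    · rintro ⟨I, J, hI, hJ, h⟩
      exact ⟨I, J, fun x hx => (hI hx).1, fun y hy => (hJ hy).1, h⟩
  have h2 : Low R φ (k * N) z A ↔ Low R φ (k * N) z (A ∩ Dg z (2 * R)) := by
    have e : A ∩ Dg z (2 * R) ∩ Ss R φ z = A ∩ Ss R φ z := by
      ext x
      constructor
      · rintro ⟨⟨hx, -⟩, hs⟩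
        exact ⟨hx, hs⟩
      · rintro ⟨hx, hs⟩
        exact ⟨⟨hx, lt_of_le_of_lt (min_le_left _ _) (p7_Ss hR hs)⟩, hs⟩
    unfold Low
    rw [e]
  unfold BadZ
  rw [← h1, ← h2]

end Pool.Agent.Helper6.HD
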