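import Pool.Agent.Helper6.HD.S4
import Pool.Agent.Helper6.HD.S5

/-!
# PIECE HD-S7: the measure of the small shell
-/

open MeasureTheory Set
open scoped ENNReal

namespace Pool.Agent.Helper6.HD

open Pool.Agent.Helper97.BG

private theorem S7_pow {d : ℕ} (hd : 2 ≤ d) : (1 : ℝ) / 8 ≤ (1 - 1 / d) ^ d := by
  have hd0 : (2 : ℝ) ≤ d := by exact_mod_cast hd
  have h1 : (1 : ℝ) / d ≤ 1 / 2 := div_le_div_of_nonneg_left zero_le_one (by norm_num) hd0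
  have h1' : (0 : ℝ) < 1 / d := by positivity
  have hb : ∀ m : ℕ, 1 + (m : ℝ) * (-(1 / d)) ≤ (1 - 1 / d) ^ m := by
    intro m
    have h := one_add_mul_le_pow (a := -(1 / (d : ℝ))) (by linarith) m
    rwa [← sub_eq_add_neg] at h
  have h2 := hb (d / 2)
  have h3 := hb (d - d / 2)
  have e : d = d / 2 + (d - d / 2) := by omega
  have e2 : (1 - 1 / (d : ℝ)) ^ d = (1 - 1 / (d : ℝ)) ^ (d / 2) * (1 - 1 / (d : ℝ)) ^ (d - d / 2) := by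
    rw [← pow_add, ← e]
  have c1 : ((d / 2 : ℕ) : ℝ) ≤ d / 2 := by
    rw [le_div_iff₀ (by norm_num)]
    exact_mod_cast (show (d / 2) * 2 ≤ d by omega)
  have c2 : ((d - d / 2 : ℕ) : ℝ) ≤ (d + 1) / 2 := by
    rw [le_div_iff₀ (by norm_num)]
    exact_mod_cast (show (d - d / 2) * 2 ≤ d + 1 by omega)
  have d1 : ((d / 2 : ℕ) : ℝ) * (1 / d) ≤ 1 / 2 := by
    calc ((d / 2 : ℕ) : ℝ) * (1 / d) ≤ (d / 2) * (1 / d) := mul_le_mul_of_nonneg_right c1 h1'.le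
      _ = 1 / 2 := by field_simp
  have d2 : ((d - d / 2 : ℕ) : ℝ) * (1 / d) ≤ 3 / 4 := by
    calc ((d - d / 2 : ℕ) : ℝ) * (1 / d) ≤ ((d + 1) / 2) * (1 / d) :=
          mul_le_mul_of_nonneg_right c2 h1'.le
      _ = 1 / 2 + (1 / d) / 2 := by field_simp
      _ ≤ 3 / 4 := by linarith
  rw [e2]
  have g1 : (1 : ℝ) / 2 ≤ (1 - 1 / (d : ℝ)) ^ (d / 2) := by linarith
  have g2 : (1 : ℝ) / 4 ≤ (1 - 1 / (d : ℝ)) ^ (d - d / 2) := by linarith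
  calc (1 : ℝ) / 8 = 1 / 2 * (1 / 4) := by norm_num
    _ ≤ _ := mul_le_mul g1 g2 (by norm_num) (by linarith)

private theorem S7_R (d : ℕ) : ∃ R₀ : ℝ, 0 < R₀ ∧ R₀ ≤ 1 / 2 ∧ ∀ R : ℝ, 0 ≤ R → R ≤ R₀ →
    (1 + 4 * R ^ 2) ^ (d + 1) ≤ 5 / 4 := by
  have h1 : Continuous fun R : ℝ => (1 + 4 * R ^ 2) ^ (d + 1) := by fun_prop
  have h2 := h1.tendsto 0
  have h3 : ∀ᶠ R in nhds (0 : ℝ), (1 + 4 * R ^ 2) ^ (d + 1) < 5 / 4 :=
    h2.eventually (gt_mem_nhds (by norm_num))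
  rw [Metric.eventually_nhds_iff] at h3
  obtain ⟨ε, hε, h⟩ := h3
  refine ⟨min (ε / 2) (1 / 2), by positivity, min_le_right _ _, fun R h0 hR => ?_⟩
  refine (h ?_).le
  have h4 := hR.trans (min_le_left _ _)
  rw [Real.dist_eq, sub_zero, abs_of_nonneg h0]
  linarith

/-- `Ss` contains `{‖x - z‖ < (1 - 1/d) R} \ {‖x - z‖ ≤ (1 - φ²/2) R}`. By `sig_ball_ge` and
`sig_ball_le` its measure is at least
`(v/area) R^d ((1 - 1/d)^d (1 + 4R²)^(-(d+1)) - (1 - φ²/2)^d (1 + R²)^d)`,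
`(1 - 1/d)^d ≥ 1/4` (`d ≥ 2`), and for small `R` (depending on `d`) `(1 + 4R²)^(d+1) ≤ 5/4`,
`(1 + R²)^d ≤ 2`: at least `(1/5 - 2/128) ≥ 1/16`. -/
theorem Ss_ge {d : ℕ} (hd : 2 ≤ d) : ∃ R₀ : ℝ, 0 < R₀ ∧ ∀ (R φ : ℝ) (z : Sph d), 0 < R → R ≤ R₀ →
    0 < φ → φ ≤ 1 / 4 → (1 - φ ^ 2 / 2) ^ d ≤ 1 / 128 →
    ENNReal.ofReal (vb d / area d * R ^ d / 16) ≤ sig d (Ss R φ z) := by
  obtain ⟨R₀, h0, h12, hR₀⟩ := S7_R d
  refine ⟨R₀, h0, fun R φ z hR hRR hφ hφ4 hp => ?_⟩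
  have hd0 : (2 : ℝ) ≤ d := by exact_mod_cast hd
  have hd1 : (1 : ℝ) / d ≤ 1 / 2 := div_le_div_of_nonneg_left zero_le_one (by norm_num) hd0
  have hd2 : (0 : ℝ) < 1 / d := by positivity
  have hφ2 : φ ^ 2 / 2 ≤ 1 / 2 := by nlinarith
  have hφ3 : 0 < φ ^ 2 / 2 := by positivity
  obtain ⟨a, ha⟩ : ∃ a : ℝ, a = 1 - 1 / d := ⟨_, rfl⟩
  obtain ⟨b, hb⟩ : ∃ b : ℝ, b = 1 - φ ^ 2 / 2 := ⟨_, rfl⟩
  have ha0 : 0 < a := by linarith
  have ha1 : a ≤ 1 := by linarith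
  have hb0 : 0 < b := by linarith
  have hb1 : b ≤ 1 := by linarith
  have haR : 0 < a * R := by positivity
  have hbR : 0 < b * R := by positivity
  have haR' : a * R ≤ R := mul_le_of_le_one_left hR.le ha1
  have hbR' : b * R ≤ R := mul_le_of_le_one_left hR.le hb1
  have g1 := sig_ball_ge (by omega : 1 ≤ d) z haR (by linarith)
  have g2 := sig_ball_le (by omega : 1 ≤ d) z hbR (by linarith)
  have hsub : {x : Sph d | ‖(x : V d) - z‖ < a * R} \ {x | ‖(x : V d) - z‖ ≤ b * R} ⊆ Ss R φ z := by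
    rintro x ⟨hx1, hx2⟩
    have hx1' : ‖(x : V d) - z‖ < a * R := hx1
    have hx2' : ¬ ‖(x : V d) - z‖ ≤ b * R := hx2
    rw [not_le] at hx2'
    refine ⟨?_, ?_⟩
    · rw [← hb]
      exact hx2'.le
    · rw [← ha]
      exact hx1'.le
  refine le_trans ?_ (measure_mono hsub)
  refine le_trans ?_ le_measure_sdiff
  refine le_trans ?_ (tsub_le_tsub g1 g2)
  have hv := vb_pos d
  have har := area_pos d
  have hc : 0 < vb d / area d := by positivity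
  rw [← ENNReal.ofReal_sub _ (by positivity)]
  apply ENNReal.ofReal_le_ofReal
  have hRd : 0 < R ^ d := by positivity
  have hpa : (1 : ℝ) / 8 ≤ a ^ d := by
    rw [ha]
    exact S7_pow hd
  have k0 := hR₀ R hR.le hRR
  have k1 : 4 / 5 ≤ (1 / (1 + 4 * (a * R) ^ 2)) ^ (d + 1) := by
    rw [one_div, inv_pow]
    have h5 : (1 + 4 * (a * R) ^ 2) ^ (d + 1) ≤ 5 / 4 := hR₀ _ haR.le (haR'.trans hRR)
    have h6 := inv_anti₀ (by positivity) h5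
    norm_num at h6 ⊢
    exact h6
  have k2 : (1 + (b * R) ^ 2) ^ d ≤ 5 / 4 := by
    refine le_trans ?_ k0
    calc (1 + (b * R) ^ 2) ^ d ≤ (1 + 4 * R ^ 2) ^ d := by
          refine pow_le_pow_left₀ (by positivity) ?_ d
          nlinarith
      _ ≤ (1 + 4 * R ^ 2) ^ (d + 1) := pow_le_pow_right₀ (by nlinarith) (by omega)
  have hbd : b ^ d ≤ 1 / 128 := by rw [hb]; exact hp
  have e1 : vb d / area d * (a * R) ^ d * (1 / (1 + 4 * (a * R) ^ 2)) ^ (d + 1) =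
      vb d / area d * R ^ d * (a ^ d * (1 / (1 + 4 * (a * R) ^ 2)) ^ (d + 1)) := by
    rw [mul_pow]
    ring
  have e2 : vb d / area d * (b * R * (1 + (b * R) ^ 2)) ^ d =
      vb d / area d * R ^ d * (b ^ d * (1 + (b * R) ^ 2) ^ d) := by
    rw [mul_pow, mul_pow b R d]
    ring
  rw [e1, e2, ← mul_sub, mul_div_assoc]
  have m1 : 1 / 8 * (4 / 5) ≤ a ^ d * (1 / (1 + 4 * (a * R) ^ 2)) ^ (d + 1) :=
    mul_le_mul hpa k1 (by norm_num) (by positivity)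
  have m2 : b ^ d * (1 + (b * R) ^ 2) ^ d ≤ 1 / 128 * (5 / 4) :=
    mul_le_mul hbd k2 (by positivity) (by norm_num)
  rw [mul_assoc]
  have m3 : (1 : ℝ) / 16 ≤ a ^ d * (1 / (1 + 4 * (a * R) ^ 2)) ^ (d + 1) -
      b ^ d * (1 + (b * R) ^ 2) ^ d := by
    have : (1 : ℝ) / 16 ≤ 1 / 8 * (4 / 5) - 1 / 128 * (5 / 4) := by norm_num
    linarith
  have m4 : R ^ d / 16 ≤ R ^ d * (a ^ d * (1 / (1 + 4 * (a * R) ^ 2)) ^ (d + 1) -
      b ^ d * (1 + (b * R) ^ 2) ^ d) := by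
    rw [div_eq_mul_one_div]
    exact mul_le_mul_of_nonneg_left m3 hRd.le
  exact mul_le_mul_of_nonneg_left m4 hc.le

end Pool.Agent.Helper6.HD
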