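import Pool.Agent.Helper6.HD.P2
import Pool.Agent.Helper6.HD.P4
import Pool.Agent.Helper6.HD.P7
import Pool.Agent.Helper6.HD.S7
import Pool.Agent.Helper97.BG.St.V1

/-!
# PIECE HD-P8: the probability of a bad centre
-/

open MeasureTheory Set
open scoped ENNReal

namespace Pool.Agent.Helper6.HD

open Pool.Agent.Helper97.BG

private theorem P8_ind_or (p q : Prop) : ind (p ∨ q) ≤ ind q + ind p := by
  unfold ind
  by_cases hp : p
  · simp [hp]
  · by_cases hq : q
    · simp [hp, hq]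
    · simp [hp, hq]

/-- `ind (BadZ) ≤ ind (BadPair) + ind (Low)`. `BadPair`: `Poi_mecke_le` with `ι = Fin N ⊕ Fin N`,
`c = (N!)²` (`pair_count`), `PP_le`, `Lam_sph`, and the hypothesis `hL`. `Low`: `Poi_low`, `K = kN`,
`hS` gives `8 k N ≤ mu (Ss)`. -/
theorem badZ_le {d : ℕ} (hd : 2 ≤ d) {a R φ lam : ℝ} {N k : ℕ} (hR : 0 < R) (hR2 : R ≤ 1 / 2)
    (hφ : 0 < φ) (hφ4 : φ ≤ 1 / 4) (hlam : 0 < lam) (hk : 1 ≤ k) (hN : 1 ≤ N) (z : Sph d)
    (hS : ENNReal.ofReal (vb d / area d * R ^ d / 16) ≤ sig d (Ss R φ z))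
    (hm : 128 * (k : ℝ) * N ≤ lam / area d * (vb d * R ^ d))
    (hL : ENNReal.ofReal (lam / area d) ^ (2 * N) * Lam (volume.restrict (shell d R φ)) N
        (fun u v => ‖u - v‖ < a) ≤
        (N.factorial : ℝ≥0∞) ^ 2 * ENNReal.ofReal (2 * Real.exp (-(N : ℝ)))) :
    Poi (ENNReal.ofReal lam • sig d) (fun A => ind (BadZ a R φ N k z A)) ≤
      ENNReal.ofReal (3 * Real.exp (-(N : ℝ))) := by
  have hsigns : NullSingletonClass (sig d) := sig_null (by omega)
  have hns : NullSingletonClass (ENNReal.ofReal lam • sig d) :=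
    ⟨fun x => by rw [Measure.smul_apply, measure_singleton, smul_zero]⟩
  have hfin : IsFiniteMeasure (ENNReal.ofReal lam • sig d) :=
    Measure.smul_finite _ ENNReal.ofReal_ne_top
  have hlow : Poi (ENNReal.ofReal lam • sig d) (fun A => ind (Low R φ (k * N) z A)) ≤
      ENNReal.ofReal (Real.exp (-(N : ℝ))) := by
    have h1 : (8 * ((k * N : ℕ) : ℝ≥0∞) : ℝ≥0∞) ≤ (ENNReal.ofReal lam • sig d) (Ss R φ z) := by
      rw [Measure.smul_apply, smul_eq_mul]
      refine le_trans ?_ (mul_le_mul_right hS _)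
      rw [← ENNReal.ofReal_mul hlam.le]
      have h2 : (8 * ((k * N : ℕ) : ℝ≥0∞) : ℝ≥0∞) = ENNReal.ofReal (8 * ((k : ℝ) * N)) := by
        rw [ENNReal.ofReal_mul (by norm_num), ENNReal.ofReal_mul (by positivity),
          ENNReal.ofReal_natCast, ENNReal.ofReal_natCast, Nat.cast_mul]
        norm_num
      rw [h2]
      refine ENNReal.ofReal_le_ofReal ?_
      have h3 : lam * (vb d / area d * R ^ d / 16) = lam / area d * (vb d * R ^ d) / 16 := by ring
      rw [h3]
      linarith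
    refine (Poi_low _ (measurableSet_Ss R φ z) (k * N) h1).trans ?_
    refine ENNReal.ofReal_le_ofReal (Real.exp_le_exp.2 ?_)
    have h4 : (N : ℝ) ≤ ((k * N : ℕ) : ℝ) := by
      exact_mod_cast Nat.le_mul_of_pos_left N (by omega)
    linarith
  have hfac : ((N.factorial ^ 2 : ℕ) : ℝ≥0∞) ≠ 0 := by
    exact_mod_cast pow_ne_zero 2 N.factorial_ne_zero
  have hfac' : ((N.factorial ^ 2 : ℕ) : ℝ≥0∞) ≠ ∞ := ENNReal.natCast_ne_top _
  have hpair : Poi (ENNReal.ofReal lam • sig d) (fun A => ind (BadPair a R φ N z A)) ≤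
      ENNReal.ofReal (2 * Real.exp (-(N : ℝ))) := by
    refine (Poi_mecke_le (ENNReal.ofReal lam • sig d) (measurableSet_PP a R φ N z)
      (E := BadPair a R φ N z) (N.factorial ^ 2) (pow_pos N.factorial_pos 2)
      (fun n X h => pair_count hR (by linarith) z X h)).trans ?_
    calc ((N.factorial ^ 2 : ℕ) : ℝ≥0∞)⁻¹ *
          (Measure.pi fun _ : Fin N ⊕ Fin N => ENNReal.ofReal lam • sig d) {x | PP a R φ N z x}
        ≤ ((N.factorial ^ 2 : ℕ) : ℝ≥0∞)⁻¹ * (((N.factorial ^ 2 : ℕ) : ℝ≥0∞) *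
          ENNReal.ofReal (2 * Real.exp (-(N : ℝ)))) := by
          refine mul_le_mul_right ?_ _
          refine (PP_le a R φ N z ENNReal.ofReal_ne_top).trans ?_
          refine (Lam_sph hR hR2 hφ hφ4 hlam.le z N).trans (hL.trans (le_of_eq ?_))
          rw [Nat.cast_pow]
      _ = ENNReal.ofReal (2 * Real.exp (-(N : ℝ))) := by
          rw [← mul_assoc, ENNReal.inv_mul_cancel hfac hfac', one_mul]
  calc Poi (ENNReal.ofReal lam • sig d) (fun A => ind (BadZ a R φ N k z A))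
      ≤ Poi (ENNReal.ofReal lam • sig d)
        (fun A => ind (Low R φ (k * N) z A) + ind (BadPair a R φ N z A)) :=
        Poi_mono _ fun A _ => P8_ind_or _ _
    _ = Poi (ENNReal.ofReal lam • sig d) (fun A => ind (Low R φ (k * N) z A)) +
        Poi (ENNReal.ofReal lam • sig d) (fun A => ind (BadPair a R φ N z A)) :=
        Poi_add_fun _ (MS_low (measurableSet_Ss R φ z) (k * N)) _
    _ ≤ ENNReal.ofReal (Real.exp (-(N : ℝ))) + ENNReal.ofReal (2 * Real.exp (-(N : ℝ))) :=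
        add_le_add hlow hpair
    _ = ENNReal.ofReal (3 * Real.exp (-(N : ℝ))) := by
        rw [← ENNReal.ofReal_add (Real.exp_pos _).le (by positivity)]
        congr 1
        ring

end Pool.Agent.Helper6.HD
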