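import Pool.Agent.Helper6.HD.Defs

/-!
# PIECE HD-Q1: counting chains in the net
-/

open MeasureTheory Set
open scoped ENNReal

namespace Pool.Agent.Helper6.HD

/-- Induction on `M` (`Fin.snoc`/`Fin.init`). -/
theorem chain_count {X : Type*} [DecidableEq X] (H : Finset X) (r : X → X → Prop)
    [DecidableRel r] (Nh : ℕ) (hN : ∀ z ∈ H, (H.filter fun h => r z h).card ≤ Nh) (M : ℕ) :
    ((Fintype.piFinset fun _ : Fin (M + 1) => H).filter fun t =>
      ∀ l : Fin M, r (t l.castSucc) (t l.succ)).card ≤ H.card * Nh ^ M := by
  classical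
  induction M with
  | zero =>
    refine (Finset.card_filter_le _ _).trans ?_
    rw [Fintype.card_piFinset]
    simp
  | succ M ih =>
    set S := (Fintype.piFinset fun _ : Fin (M + 1) => H).filter fun t =>
      ∀ l : Fin M, r (t l.castSucc) (t l.succ) with hS
    have hsub : ((Fintype.piFinset fun _ : Fin (M + 1 + 1) => H).filter fun t =>
        ∀ l : Fin (M + 1), r (t l.castSucc) (t l.succ)) ⊆
        S.biUnion fun t' => (H.filter fun h => r (t' (Fin.last M)) h).image
          fun h => (Fin.snoc (α := fun _ => X) t' h : Fin (M + 1 + 1) → X) := by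
      intro t ht
      rw [Finset.mem_filter, Fintype.mem_piFinset] at ht
      obtain ⟨h1, h2⟩ := ht
      rw [Finset.mem_biUnion]
      refine ⟨Fin.init (α := fun _ => X) t, ?_, ?_⟩
      · rw [hS, Finset.mem_filter, Fintype.mem_piFinset]
        refine ⟨fun i => h1 _, fun l => ?_⟩
        have h3 := h2 l.castSucc
        rw [Fin.succ_castSucc] at h3
        exact h3
      · rw [Finset.mem_image]
        refine ⟨t (Fin.last (M + 1)), ?_, Fin.snoc_init_self t⟩
        rw [Finset.mem_filter]
        refine ⟨h1 _, ?_⟩
        have h3 := h2 (Fin.last M)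
        rw [Fin.succ_last] at h3
        exact h3
    refine (Finset.card_le_card hsub).trans ?_
    refine (Finset.card_biUnion_le_card_mul S _ Nh fun t' ht' => ?_).trans ?_
    · refine Finset.card_image_le.trans (hN _ ?_)
      rw [hS, Finset.mem_filter, Fintype.mem_piFinset] at ht'
      exact ht'.1 _
    · rw [pow_succ, ← mul_assoc]
      exact Nat.mul_le_mul_right _ ih

end Pool.Agent.Helper6.HD
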