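import Pool.Agent.Helper6.HD.T2

/-!
# PIECE HD-T4: a colouring gives a chain of bad centres
-/

open MeasureTheory Set
open scoped ENNReal

namespace Pool.Agent.Helper6.HD

open Pool.Agent.Helper97.BG

/-- Let `c` be the colouring. `topo` with `ρ = rh d R = R/(4d)`, `bad z ↔ BadZ a R φ N k z A`,
`heavy i z ↔ N ≤ (A ∩ Ss R φ z ∩ c ⁻¹' {i}).ncard`. `h1`: `A ∩ Ss` has at least `k N` points, so
some colour has at least `N` of them. `h2`: choose `I ⊆ A ∩ Ss R φ z ∩ c⁻¹ i`,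
`J ⊆ A ∩ Ss R φ z' ∩ c⁻¹ i` with `N` points: `I ⊆ Sb R φ z` and `-y ∈ Sb R φ z` for `y ∈ J`, since
`|‖-y - z‖ - ‖y - z'‖| ≤ ‖z + z'‖ ≤ R/(2d)`, `(1 - 1/d) R + R/(2d) ≤ (1 - R²) R` and
`(1 - φ²/2) R - R/(2d) ≥ (1 - φ²) R`; no edge between `I` and `J` because the colour is the same.
So `BadPair`, against `¬ bad z`. -/
theorem chain_of_col {d k : ℕ} {a R φ : ℝ} {N : ℕ} (hd : 1 ≤ d) (hk : 1 ≤ k) (hkd : k ≤ d)
    (hR : 0 < R) (hR2 : R ^ 2 ≤ 1 / (2 * d)) (hφ : 1 / (d : ℝ) ≤ φ ^ 2) (hφ4 : φ ≤ 1 / 4)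
    (H : Finset (Sph d)) (hcov : ∀ x : Sph d, ∃ h ∈ H, ‖(x : V d) - h‖ ≤ rh d R)
    {A : Set (Sph d)} (hA : A.Finite) (hcol : Col a k A) :
    ∃ (m : ℕ) (w : ℕ → Sph d),
      (∀ j ≤ m, ∃ z ∈ H, BadZ a R φ N k z A ∧ (w j = z ∨ w j = -z)) ∧
      (∀ j < m, ‖(w j : V d) - w (j + 1)‖ ≤ 2 * rh d R) ∧ w m = -w 0 := by
  classical
  obtain ⟨c, hc⟩ := hcol
  have hd0 : (0 : ℝ) < d := by exact_mod_cast hd
  have hρ : 0 < rh d R := by
    unfold rh
    positivity
  have hR2' : R ^ 2 * R ≤ 1 / (2 * d) * R := mul_le_mul_of_nonneg_right hR2 hR.le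
  have hφ' : 1 / (d : ℝ) * R ≤ φ ^ 2 * R := mul_le_mul_of_nonneg_right hφ hR.le
  have e1 : 1 / (2 * (d : ℝ)) = 1 / (d : ℝ) / 2 := by
    field_simp
  have e2 : 2 * rh d R = 1 / (d : ℝ) * R / 2 := by
    unfold rh
    field_simp
    norm_num
  have hdR : 0 ≤ 1 / (d : ℝ) * R := by positivity
  rw [e1] at hR2'
  refine topo hk hkd H hρ hcov (fun z => BadZ a R φ N k z A)
    (fun i z => N ≤ (A ∩ Ss R φ z ∩ c ⁻¹' {i}).ncard) ?_ ?_
  · intro z _ hz
    have hlow : k * N ≤ (A ∩ Ss R φ z).ncard := by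
      by_contra h
      push Not at h
      exact hz (Or.inr h)
    have hfin : (A ∩ Ss R φ z).Finite := hA.subset inter_subset_left
    rw [ncard_eq_toFinset_card _ hfin] at hlow
    obtain ⟨i, -, hi⟩ := Finset.exists_le_card_fiber_of_mul_le_card_of_maps_to
      (s := hfin.toFinset) (t := (Finset.univ : Finset (Fin k))) (f := c) (n := N)
      (fun x _ => Finset.mem_univ _) ⟨⟨0, hk⟩, Finset.mem_univ _⟩
      (by rw [Finset.card_univ, Fintype.card_fin]; exact hlow)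
    refine ⟨i, hi.trans (le_of_eq ?_)⟩
    rw [← ncard_coe_finset]
    congr 1
    ext x
    simp
    tauto
  · intro z _ z' _ hz _ hzz i hi
    obtain ⟨hi1, hi2⟩ := hi
    obtain ⟨I, hI, hIN⟩ := exists_subset_card_eq hi1
    obtain ⟨J, hJ, hJN⟩ := exists_subset_card_eq hi2
    rw [e2] at hzz
    apply hz
    refine Or.inl ⟨I, J, fun x hx => (hI hx).1.1, fun x hx => (hJ hx).1.1, hIN, hJN, ?_, ?_, ?_⟩
    · intro x hx
      obtain ⟨h1, h2⟩ := (hI hx).1.2
      constructor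
      · refine le_trans ?_ h1
        nlinarith
      · refine h2.trans ?_
        nlinarith
    · intro y hy
      obtain ⟨h1, h2⟩ := (hJ hy).1.2
      have h3 : ‖((-y : Sph d) : V d) - z‖ ≤ ‖(y : V d) - z'‖ + ‖(z : V d) + z'‖ := by
        have h4 := norm_add_le (-((y : V d) - z')) (-((z : V d) + z'))
        rw [norm_neg, norm_neg] at h4
        have e3 : -((y : V d) - z') + -((z : V d) + z') = ((-y : Sph d) : V d) - z := by
          rw [coe_neg_sphere]
          abel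
        rwa [e3] at h4
      have h4 : ‖(y : V d) - z'‖ ≤ ‖((-y : Sph d) : V d) - z‖ + ‖(z : V d) + z'‖ := by
        have h5 := norm_add_le (-(((-y : Sph d) : V d) - z)) (-((z : V d) + z'))
        rw [norm_neg, norm_neg] at h5
        have e3 : -(((-y : Sph d) : V d) - z) + -((z : V d) + z') = (y : V d) - z' := by
          rw [coe_neg_sphere]
          abel
        rwa [e3] at h5
      constructor
      · nlinarith
      · nlinarith
    · intro x hx y hy
      by_contra h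
      push Not at h
      have h1 : c x = i := (hI hx).2
      have h2 : c y = i := (hJ hy).2
      exact hc x (hI hx).1.1 y (hJ hy).1.1 h (h1.trans h2.symm)

end Pool.Agent.Helper6.HD
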