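import Pool.Agent.Helper6.HD.T3
import Pool.Agent.Helper6.HD.T4

/-!
# PIECE HD-Q2: separated bad centres from a colouring
-/

open MeasureTheory Set
open scoped ENNReal

namespace Pool.Agent.Helper6.HD

open Pool.Agent.Helper97.BG

private theorem Q2_nrm_left {d : ℕ} (x y : Sph d) : nrm (-x) y = nrm x y := by
  unfold nrm
  have h : ((-x : Sph d) : V d) = -(x : V d) := rfl
  rw [h, sub_neg_eq_add, ← sub_eq_add_neg, min_comm]

private theorem Q2_nrm_right {d : ℕ} (x y : Sph d) : nrm x (-y) = nrm x y := by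
  unfold nrm
  have h : ((-y : Sph d) : V d) = -(y : V d) := rfl
  have h1 : -(y : V d) - x = -((y : V d) + x) := by abel
  have h2 : -(y : V d) + x = -((y : V d) - x) := by abel
  rw [h, h1, h2, norm_neg, norm_neg, min_comm]

private theorem Q2_nrm {d : ℕ} {x y x' y' : Sph d} (hx : x = x' ∨ x = -x')
    (hy : y = y' ∨ y = -y') : nrm x y = nrm x' y' := by
  rcases hx with rfl | rfl <;> rcases hy with rfl | rfl
  · rfl
  · rw [Q2_nrm_right]
  · rw [Q2_nrm_left]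
  · rw [Q2_nrm_left, Q2_nrm_right]

/-- For `A` finite with `Col a k A` take the chain of `chain_of_col`, extract (`hops` with
`D = 4 R`, `s = 2 rh d R ≤ R`) indices `v l`, and choose `t l ∈ H` bad with `w (v l) = ± t l`
(`nrm` does not see the signs): a map `t : Fin (M+1) → H` with `nrm (t l) (t (l+1)) ≤ 5 R` and
`nrm (t l) (t l') ≥ 4 R` for `l ≠ l'`, all `t l` bad. -/
theorem exists_t {d k : ℕ} {a R φ : ℝ} {N : ℕ} (hd : 1 ≤ d) (hk : 1 ≤ k) (hkd : k ≤ d)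
    (hR : 0 < R) (hR1 : R ≤ 2 / 5) (hR2 : R ^ 2 ≤ 1 / (2 * d)) (hφ : 1 / (d : ℝ) ≤ φ ^ 2)
    (hφ4 : φ ≤ 1 / 4) (H : Finset (Sph d))
    (hcov : ∀ x : Sph d, ∃ h ∈ H, ‖(x : V d) - h‖ ≤ rh d R) (M : ℕ)
    (hM : (M + 1) * (5 * R) ≤ 1) {A : Set (Sph d)} (hA : A.Finite) (hcol : Col a k A) :
    ∃ t : Fin (M + 1) → Sph d, (∀ l, t l ∈ H) ∧ (∀ l, BadZ a R φ N k (t l) A) ∧
      (∀ l l', l ≠ l' → 4 * R ≤ nrm (t l) (t l')) ∧
      ∀ l : Fin M, nrm (t l.castSucc) (t l.succ) ≤ 5 * R := by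
  obtain ⟨m, w, h1, h2, h3⟩ := chain_of_col (N := N) hd hk hkd hR hR2 hφ hφ4 H hcov hA hcol
  have hd' : (1 : ℝ) ≤ d := by exact_mod_cast hd
  have hs0 : 0 ≤ 2 * rh d R := by
    unfold rh
    positivity
  have hsR : 2 * rh d R ≤ R := by
    unfold rh
    have h4 : (2 : ℝ) * (R / (4 * d)) = R / (2 * d) := by
      field_simp
      ring
    rw [h4]
    exact div_le_self hR.le (by linarith)
  have hM' : ((M : ℝ) + 1) * (4 * R + 2 * rh d R) ≤ 1 := by
    refine le_trans (mul_le_mul_of_nonneg_left ?_ (by positivity)) hM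
    linarith
  obtain ⟨v, hv1, hv2, hv3⟩ := hops (M := M) w hs0 (hsR.trans hR1) (by positivity : 0 < 4 * R)
    h2 h3 hM'
  choose t ht1 ht2 ht3 using fun l => h1 (v l) (hv1 l)
  refine ⟨t, ht1, ht2, ?_, ?_⟩
  · intro l l' hl
    rw [← Q2_nrm (ht3 l) (ht3 l')]
    exact hv2 l l' hl
  · intro l
    rw [← Q2_nrm (ht3 l.castSucc) (ht3 l.succ)]
    have := hv3 l
    linarith

end Pool.Agent.Helper6.HD
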