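import Pool.Agent.Helper6.HD.Q2
import Pool.Agent.Helper6.HD.P5
import Pool.Agent.Helper6.HD.P7
import Pool.Agent.Helper6.HD.Q1

/-!
# PIECE HD-Q2b: the probability that a colouring exists
-/

open MeasureTheory Set
open scoped ENNReal

namespace Pool.Agent.Helper6.HD

open Pool.Agent.Helper97.BG

private theorem Q2b_comm {d : ℕ} (x y : Sph d) : nrm x y = nrm y x := by
  unfold nrm
  rw [norm_sub_rev (y : V d) x, add_comm (y : V d) x]

private theorem Q2b_Dg {d : ℕ} (x : Sph d) (r : ℝ) : MeasurableSet (Dg x r) := by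
  have h : IsOpen (Dg x r) := by
    unfold Dg nrm
    have hc : Continuous fun v : Sph d => (v : V d) := continuous_subtype_val
    exact isOpen_lt (((hc.sub continuous_const).norm).min ((hc.add continuous_const).norm))
      continuous_const
  exact h.measurableSet

private theorem Q2b_sum {S τ : Type*} [MeasurableSpace S] (mu : Measure S) [IsFiniteMeasure mu]
    (f : τ → Set S → ℝ≥0∞) (hf : ∀ t, MS (f t)) (s : Finset τ) :
    Poi mu (fun A => ∑ t ∈ s, f t A) = ∑ t ∈ s, Poi mu (f t) := by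
  classical
  induction s using Finset.induction_on with
  | empty =>
    simp only [Finset.sum_empty]
    exact Poi_const mu 0
  | insert t s ht ih =>
    rw [Finset.sum_insert ht, ← ih, ← Poi_add_fun mu (hf t)]
    congr 1
    funext A
    rw [Finset.sum_insert ht]

private theorem Q2b_ind {ι : Type*} [Fintype ι] (P : ι → Prop) :
    ind (∀ l, P l) = ∏ l, ind (P l) := by
  classical
  unfold ind
  by_cases h : ∀ l, P l
  · rw [if_pos h, Finset.prod_congr rfl fun l _ => if_pos (h l), Finset.prod_const_one]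
  · rw [if_neg h]
    push Not at h
    obtain ⟨l, hl⟩ := h
    rw [Finset.prod_eq_zero (Finset.mem_univ l)]
    rw [if_neg hl]

private theorem Q2b_MS {S ι : Type*} [MeasurableSpace S] [Fintype ι] (E : ι → Set S → Prop)
    (h : ∀ l, MS (fun A => ind (E l A))) : MS (fun A => ind (∀ l, E l A)) := by
  intro n
  have h1 : (fun X : Fin n → S => ind (∀ l, E l (Set.range X))) =
      fun X => ∏ l, ind (E l (Set.range X)) := by
    funext X
    exact Q2b_ind _
  rw [h1]
  exact Finset.measurable_prod _ fun l _ => h l n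

/-- Union bound over the `t` of `exists_t` (`chain_count`): `ind (Col a k A) ≤
∑ t, ind (∀ l, BadZ (t l) A)`, `Poi_add_fun` for finite sums (`MS_BadZ` for finite
conjunctions), and for every `t` with `nrm (t l) (t l') ≥ 4 R`: `Poi_indep` with `ι = Fin (M+1)`,
`D l = Dg (t l) (2 R)` (disjoint by `nrm_triangle`), `BadZ_local`. -/
theorem col_prob {d k : ℕ} {a R φ : ℝ} {N : ℕ} (hd : 1 ≤ d) (hk : 1 ≤ k) (hkd : k ≤ d)
    (hR : 0 < R) (hR1 : R ≤ 2 / 5) (hR2 : R ^ 2 ≤ 1 / (2 * d)) (hφ : 1 / (d : ℝ) ≤ φ ^ 2)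
    (hφ4 : φ ≤ 1 / 4) (H : Finset (Sph d))
    (hcov : ∀ x : Sph d, ∃ h ∈ H, ‖(x : V d) - h‖ ≤ rh d R) (M : ℕ)
    (hM : (M + 1) * (5 * R) ≤ 1) (mu : Measure (Sph d)) [IsFiniteMeasure mu] (p : ℝ≥0∞)
    (hp : ∀ z : Sph d, Poi mu (fun A => ind (BadZ a R φ N k z A)) ≤ p) (Nh : ℕ)
    (hNh : ∀ z : Sph d, (H.filter fun h => nrm z h ≤ 5 * R).card ≤ Nh) :
    Poi mu (fun A => ind (Col a k A)) ≤ H.card * (Nh : ℝ≥0∞) ^ M * p ^ (M + 1) := by
  classical
  set T : Finset (Fin (M + 1) → Sph d) :=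
    (Fintype.piFinset fun _ : Fin (M + 1) => H).filter fun t =>
      ∀ l : Fin M, nrm (t l.castSucc) (t l.succ) ≤ 5 * R with hT
  have hTcard : T.card ≤ H.card * Nh ^ M :=
    chain_count H (fun x y => nrm x y ≤ 5 * R) Nh (fun z _ => hNh z) M
  set T' : Finset (Fin (M + 1) → Sph d) :=
    T.filter fun t => ∀ l l', l ≠ l' → 4 * R ≤ nrm (t l) (t l') with hT'
  have hT'card : T'.card ≤ H.card * Nh ^ M := (Finset.card_filter_le _ _).trans hTcard
  have h1 : Poi mu (fun A => ind (Col a k A)) ≤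
      Poi mu (fun A => ∑ t ∈ T', ind (∀ l, BadZ a R φ N k (t l) A)) := by
    refine Poi_mono mu fun A hA => ?_
    by_cases hcol : Col a k A
    · obtain ⟨t, ht1, ht2, ht3, ht4⟩ :=
        exists_t hd hk hkd hR hR1 hR2 hφ hφ4 H hcov M hM hA hcol (N := N)
      have htT : t ∈ T' := by
        rw [hT', Finset.mem_filter, hT, Finset.mem_filter, Fintype.mem_piFinset]
        exact ⟨⟨ht1, ht4⟩, ht3⟩
      have h2 : ind (Col a k A) ≤ ind (∀ l, BadZ a R φ N k (t l) A) := by
        unfold ind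
        rw [if_pos hcol, if_pos ht2]
      exact h2.trans (Finset.single_le_sum
        (f := fun t : Fin (M + 1) → Sph d => ind (∀ l, BadZ a R φ N k (t l) A))
        (fun _ _ => zero_le) htT)
    · have h2 : ind (Col a k A) = 0 := by
        unfold ind
        rw [if_neg hcol]
      rw [h2]
      exact zero_le
  refine h1.trans ?_
  rw [Q2b_sum mu (fun (t : Fin (M + 1) → Sph d) A => ind (∀ l, BadZ a R φ N k (t l) A))
    (fun t => Q2b_MS _ fun l => MS_BadZ a R φ N k (t l))]
  have h3 : ∀ t ∈ T', Poi mu (fun A => ind (∀ l, BadZ a R φ N k (t l) A)) ≤ p ^ (M + 1) := by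
    intro t ht
    rw [hT', Finset.mem_filter] at ht
    have h4 := Poi_indep mu (fun l => Dg (t l) (2 * R)) (fun l A => BadZ a R φ N k (t l) A)
      (fun l => Q2b_Dg (t l) (2 * R)) (fun l => MS_BadZ a R φ N k (t l))
      (fun l A => BadZ_local hR N k (t l) A) p Finset.univ
      (fun l _ l' _ hne => by
        rw [Set.disjoint_left]
        intro v hv hv'
        have h5 := ht.2 l l' hne
        have h6 := nrm_triangle (t l) v (t l')
        have h7 : nrm (t l) v < 2 * R := hv
        have h8 : nrm (t l') v < 2 * R := hv'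
        rw [Q2b_comm] at h8
        linarith)
      (fun l _ => hp (t l))
    rw [Finset.card_univ, Fintype.card_fin] at h4
    simpa using h4
  calc ∑ t ∈ T', Poi mu (fun A => ind (∀ l, BadZ a R φ N k (t l) A))
      ≤ ∑ _t ∈ T', p ^ (M + 1) := Finset.sum_le_sum h3
    _ = (T'.card : ℝ≥0∞) * p ^ (M + 1) := by rw [Finset.sum_const, nsmul_eq_mul]
    _ ≤ ((H.card * Nh ^ M : ℕ) : ℝ≥0∞) * p ^ (M + 1) := by
        gcongr
    _ = H.card * (Nh : ℝ≥0∞) ^ M * p ^ (M + 1) := by
        push_cast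
        rfl

end Pool.Agent.Helper6.HD
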