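import Pool.Agent.Helper6.HD.S4
import Pool.Agent.Helper97.BG.St.G5

/-!
# PIECE HD-S8: nets on the sphere
-/

open MeasureTheory Set
open scoped ENNReal

namespace Pool.Agent.Helper6.HD

open Pool.Agent.Helper97.BG

private theorem S8_exp {d : ℕ} (hd : 1 ≤ d) {x : ℝ} (hx : 0 ≤ x) (hx1 : x ≤ 1 / (16 * (d : ℝ) ^ 2)) :
    (1 + x) ^ (d + 1) ≤ 2 := by
  have hd' : (1 : ℝ) ≤ d := by exact_mod_cast hd
  have h1 : 1 + x ≤ Real.exp x := by
    have := Real.add_one_le_exp x
    linarith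
  have h2 : (1 + x) ^ (d + 1) ≤ Real.exp (((d + 1 : ℕ) : ℝ) * x) := by
    rw [Real.exp_nat_mul]
    exact pow_le_pow_left₀ (by positivity) h1 _
  refine h2.trans ?_
  rw [← Real.le_log_iff_exp_le (by norm_num : (0 : ℝ) < 2)]
  have h3 : ((d + 1 : ℕ) : ℝ) * x ≤ 1 / 8 := by
    push_cast
    calc ((d : ℝ) + 1) * x ≤ ((d : ℝ) + 1) * (1 / (16 * (d : ℝ) ^ 2)) := by gcongr
      _ ≤ (2 * (d : ℝ) ^ 2) * (1 / (16 * (d : ℝ) ^ 2)) := by
          gcongr
          nlinarith
      _ = 1 / 8 := by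
          field_simp
          norm_num
  have h4 := Real.log_two_gt_d9
  linarith

private theorem S8_low {d : ℕ} (hd : 1 ≤ d) {R : ℝ} (hR : 0 < R) (hR1 : R ≤ 1) (p : Sph d) :
    ENNReal.ofReal (vb d / area d * (R / (8 * d)) ^ d / 2) ≤
      sig d (Metric.ball p (R / (8 * d))) := by
  have hd' : (1 : ℝ) ≤ d := by exact_mod_cast hd
  have hr : 0 < R / (8 * d) := by positivity
  have hr2 : R / (8 * d) ≤ 1 / 2 := by
    rw [div_le_iff₀ (by positivity)]
    linarith
  have h1 := sig_ball_ge hd p hr hr2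
  have h2 : Metric.ball p (R / (8 * d)) = {x : Sph d | ‖(x : V d) - p‖ < R / (8 * d)} := by
    ext x
    rw [Metric.mem_ball, g5_dist, Set.mem_ofPred_eq]
  rw [h2]
  refine le_trans (ENNReal.ofReal_le_ofReal ?_) h1
  have h3 : (1 + 4 * (R / (8 * d)) ^ 2) ^ (d + 1) ≤ 2 := by
    refine S8_exp hd (by positivity) ?_
    have h4 : 4 * (R / (8 * (d : ℝ))) ^ 2 = R ^ 2 * (1 / (16 * (d : ℝ) ^ 2)) := by
      field_simp
      norm_num
    rw [h4]
    have h5 : R ^ 2 ≤ 1 := by nlinarith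
    exact mul_le_of_le_one_left (by positivity) h5
  have h6 : (1 : ℝ) / 2 ≤ (1 / (1 + 4 * (R / (8 * d)) ^ 2)) ^ (d + 1) := by
    rw [one_div_pow]
    exact one_div_le_one_div_of_le (by positivity) h3
  have h7 : 0 ≤ vb d / area d * (R / (8 * d)) ^ d := by
    have := vb_pos d
    have := area_pos d
    positivity
  calc vb d / area d * (R / (8 * d)) ^ d / 2
      = vb d / area d * (R / (8 * d)) ^ d * (1 / 2) := by ring
    _ ≤ vb d / area d * (R / (8 * d)) ^ d * (1 / (1 + 4 * (R / (8 * d)) ^ 2)) ^ (d + 1) := by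
        gcongr

private theorem S8_up {d : ℕ} (hd : 1 ≤ d) {R : ℝ} (hR : 0 < R) (hR1 : R ≤ 1 / 20) (z : Sph d) :
    sig d {x : Sph d | ‖(x : V d) - z‖ ≤ 26 / 5 * R} ≤
      ENNReal.ofReal (vb d / area d * (6 * R) ^ d) := by
  have h1 := sig_ball_le hd z (r := 26 / 5 * R) (by positivity) (by linarith)
  refine h1.trans (ENNReal.ofReal_le_ofReal ?_)
  have h2 : 26 / 5 * R * (1 + (26 / 5 * R) ^ 2) ≤ 6 * R := by
    have h3 : (26 / 5 * R) ^ 2 ≤ 1 / 10 := by nlinarith
    nlinarith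
  have h4 := vb_pos d
  have h5 := area_pos d
  have h6 : 0 ≤ 26 / 5 * R * (1 + (26 / 5 * R) ^ 2) := by positivity
  gcongr

private theorem S8_univ (d : ℕ) : sig d univ = 1 := by
  unfold sig
  rw [Measure.smul_apply, smul_eq_mul, toSphere_univ]
  have h := area_pos d
  exact ENNReal.inv_mul_cancel (by simpa using h) ENNReal.ofReal_ne_top

private theorem S8_card {n : ℕ} {c C : ℝ} (hC : 0 ≤ C)
    (h : (n : ℝ≥0∞) * ENNReal.ofReal c ≤ ENNReal.ofReal C) : (n : ℝ) * c ≤ C := by
  rw [← ENNReal.ofReal_natCast, ← ENNReal.ofReal_mul (by positivity),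
    ENNReal.ofReal_le_ofReal_iff hC] at h
  exact h

/-- Take a maximal set `H` of points with mutual distances `≥ ρ = rh d R = R/(4d)` (finite by
compactness; compare `Pool.Agent.Helper97.BG.exists_H`, which may be used with `a = 8 ρ`). The
open balls of radius `ρ/2` around its points are disjoint and have measure at least
`(v/area) (ρ/2)^d / 2` for small `R` (`sig_ball_ge`). Those around the `h` with `nrm z h ≤ 5 R` are
in `{‖x - z‖ ≤ 5.2 R} ∪ {‖x + z‖ ≤ 5.2 R}`, of measure at most `4 (v/area) (5.2 R)^d`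
(`sig_ball_le`): at most `8 (41.6 d)^d` such `h`. -/
theorem exists_net {d : ℕ} (hd : 2 ≤ d) : ∃ R₀ : ℝ, 0 < R₀ ∧ ∀ R : ℝ, 0 < R → R ≤ R₀ →
    ∃ H : Finset (Sph d), (∀ x : Sph d, ∃ h ∈ H, ‖(x : V d) - h‖ ≤ rh d R) ∧
      (∀ z : Sph d, (H.filter fun h => nrm z h ≤ 5 * R).card ≤ 8 * (48 * d) ^ d) ∧
      (H.card : ℝ) ≤ 2 * (area d / vb d) * (8 * d / R) ^ d := by
  have hd1 : 1 ≤ d := by omega
  have hd' : (2 : ℝ) ≤ d := by exact_mod_cast hd
  have hvb := vb_pos d
  have har := area_pos d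
  refine ⟨1 / 20, by norm_num, fun R hR hR0 => ?_⟩
  have hρ : 0 < rh d R := by
    unfold rh
    positivity
  have hρ2 : 2 * (R / (8 * d)) = rh d R := by
    unfold rh
    field_simp
    norm_num
  obtain ⟨H, hH1, hH2⟩ := exists_H d (a := 8 * rh d R) (by positivity)
  have e8 : 8 * rh d R / 8 = rh d R := by ring
  rw [e8] at hH1 hH2
  have hlo := S8_low hd1 hR (by linarith)
  have hq : 0 < (R / (8 * (d : ℝ))) ^ d := by positivity
  refine ⟨H, fun x => ?_, fun z => ?_, ?_⟩
  · obtain ⟨h, hh, hx⟩ := hH1 x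
    exact ⟨h, hh, hx.le⟩
  · obtain ⟨z', hz'⟩ : ∃ z' : Sph d, (z' : V d) = -(z : V d) := ⟨⟨-(z : V d), by simp⟩, rfl⟩
    have hp := g5_pack (sig d) (ρ := R / (8 * d)) (H.filter fun h => nrm z h ≤ 5 * R)
      ({x : Sph d | ‖(x : V d) - z‖ ≤ 26 / 5 * R} ∪ {x : Sph d | ‖(x : V d) - z'‖ ≤ 26 / 5 * R})
      hlo (fun p hp q hq hpq => by
        rw [hρ2]
        exact hH2 p (Finset.mem_filter.1 hp).1 q (Finset.mem_filter.1 hq).1 hpq) (by
        intro p hp x hx
        rw [Metric.mem_ball, g5_dist] at hx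
        have h1 : R / (8 * (d : ℝ)) ≤ R / 5 := by
          apply div_le_div_of_nonneg_left hR.le (by norm_num)
          linarith
        have h2 : nrm z p ≤ 5 * R := (Finset.mem_filter.1 hp).2
        unfold nrm at h2
        rcases min_le_iff.1 h2 with h3 | h3
        · left
          change ‖(x : V d) - z‖ ≤ 26 / 5 * R
          have h4 : (x : V d) - z = ((x : V d) - p) + ((p : V d) - z) := by abel
          rw [h4]
          refine (norm_add_le _ _).trans ?_
          linarith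
        · right
          change ‖(x : V d) - z'‖ ≤ 26 / 5 * R
          have h4 : (x : V d) - z' = ((x : V d) - p) + ((p : V d) + z) := by
            rw [hz']
            abel
          rw [h4]
          refine (norm_add_le _ _).trans ?_
          linarith)
    have hup : sig d ({x : Sph d | ‖(x : V d) - z‖ ≤ 26 / 5 * R} ∪
        {x : Sph d | ‖(x : V d) - z'‖ ≤ 26 / 5 * R}) ≤
        ENNReal.ofReal (2 * (vb d / area d * (6 * R) ^ d)) := by
      refine (measure_union_le _ _).trans ?_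
      rw [two_mul, ENNReal.ofReal_add (by positivity) (by positivity)]
      exact add_le_add (S8_up hd1 hR hR0 z) (S8_up hd1 hR hR0 z')
    have h1 := S8_card (by positivity) (hp.trans hup)
    have h2 : (6 * R) ^ d = (48 * (d : ℝ)) ^ d * (R / (8 * d)) ^ d := by
      rw [← mul_pow]
      congr 1
      field_simp
      norm_num
    rw [h2] at h1
    have hκ : 0 < vb d / area d * (R / (8 * (d : ℝ))) ^ d := by positivity
    have h3 : ((H.filter fun h => nrm z h ≤ 5 * R).card : ℝ) ≤ 4 * (48 * (d : ℝ)) ^ d := by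
      by_contra hcon
      push Not at hcon
      have h4 := mul_lt_mul_of_pos_right hcon hκ
      have h5 : ((H.filter fun h => nrm z h ≤ 5 * R).card : ℝ) *
          (vb d / area d * (R / (8 * (d : ℝ))) ^ d / 2) =
          (((H.filter fun h => nrm z h ≤ 5 * R).card : ℝ) *
          (vb d / area d * (R / (8 * (d : ℝ))) ^ d)) / 2 := by ring
      have h6 : 2 * (vb d / area d * ((48 * (d : ℝ)) ^ d * (R / (8 * d)) ^ d)) =
          (4 * (48 * (d : ℝ)) ^ d * (vb d / area d * (R / (8 * (d : ℝ))) ^ d)) / 2 := by ring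
      rw [h5, h6] at h1
      linarith
    have h7 : ((H.filter fun h => nrm z h ≤ 5 * R).card : ℝ) ≤ ((8 * (48 * d) ^ d : ℕ) : ℝ) := by
      push_cast
      have h8 : 0 ≤ (48 * (d : ℝ)) ^ d := by positivity
      linarith
    exact_mod_cast h7
  · have hp := g5_pack (sig d) (ρ := R / (8 * d)) H univ hlo (fun p hp q hq hpq => by
        rw [hρ2]
        exact hH2 p hp q hq hpq) (fun _ _ => subset_univ _)
    rw [S8_univ, ← ENNReal.ofReal_one] at hp
    have h1 := S8_card (by norm_num) hp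
    have h2 : (H.card : ℝ) * (vb d / area d * (R / (8 * (d : ℝ))) ^ d / 2) =
        (H.card : ℝ) / (2 * (area d / vb d) * (8 * d / R) ^ d) := by
      rw [div_pow, div_pow]
      field_simp
    rw [h2, div_le_one (by positivity)] at h1
    exact h1

end Pool.Agent.Helper6.HD
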