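import Pool.Agent.Helper6.HD.Q2b
import Pool.Agent.Helper6.HD.P8
import Pool.Agent.Helper6.HD.S8
import Pool.Agent.Helper6.HD.E11

/-!
# PIECE HD-Q3: the quantitative bound for the Poisson process
-/

open MeasureTheory Set
open scoped ENNReal

namespace Pool.Agent.Helper6.HD

open Pool.Agent.Helper97.BG

private theorem Q3_fin (d : ℕ) : IsFiniteMeasure (sig d) := by
  constructor
  unfold sig
  rw [Measure.smul_apply, smul_eq_mul, ENNReal.inv_mul_cancel]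
  · exact ENNReal.one_lt_top
  · rw [Ne, Measure.measure_univ_eq_zero]
    exact Measure.toSphere_ne_zero _
  · exact measure_ne_top _ _

private theorem Q3_M {R : ℝ} (hR : 0 < R) (hR1 : R ≤ 1 / 10) :
    ∃ M : ℕ, ((M : ℝ) + 1) * (5 * R) ≤ 1 ∧
      (1 / 2 : ℝ) ^ M ≤ 4 * (1 / 2) ^ (1 / (5 * R) : ℝ) := by
  have h5 : 0 < 5 * R := by positivity
  have h1 : (2 : ℝ) ≤ 1 / (5 * R) := by
    rw [le_div_iff₀ h5]
    linarith
  have h2 : 2 ≤ ⌊1 / (5 * R)⌋₊ := Nat.le_floor (by exact_mod_cast h1)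
  have h3 : ((⌊1 / (5 * R)⌋₊ : ℕ) : ℝ) ≤ 1 / (5 * R) := Nat.floor_le (by positivity)
  have h4 : 1 / (5 * R) < (⌊1 / (5 * R)⌋₊ : ℝ) + 1 := Nat.lt_floor_add_one _
  refine ⟨⌊1 / (5 * R)⌋₊ - 1, ?_, ?_⟩
  · rw [Nat.cast_sub (by omega)]
    push_cast
    rw [sub_add_cancel, ← le_div_iff₀ h5]
    exact h3
  · have h6 : (1 / 2 : ℝ) ^ (⌊1 / (5 * R)⌋₊ - 1) =
        (1 / 2 : ℝ) ^ (((⌊1 / (5 * R)⌋₊ - 1 : ℕ) : ℝ)) := (Real.rpow_natCast _ _).symm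
    have h7 : (4 : ℝ) * (1 / 2) ^ (1 / (5 * R) : ℝ) = (1 / 2) ^ (1 / (5 * R) - 2 : ℝ) := by
      rw [Real.rpow_sub (by norm_num)]
      norm_num
      ring
    rw [h6, h7]
    refine Real.rpow_le_rpow_of_exponent_ge (by norm_num) (by norm_num) ?_
    rw [Nat.cast_sub (by omega)]
    push_cast
    linarith

/-- `R₀` the minimum of the constants of `Ss_ge` and `exists_net`, of `1/10` and of
`√(1/(2d))`. Take `N` from `loc` (with `lam / area d`), `p = 3 exp (-N)` (`badZ_le`), the net `H`,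
`Nh = 8 (48 d)^d`, `M = ⌊1/(5R)⌋₊ - 1`. `num3` gives the conditions on `φ`. `num4`: `Nh p ≤ 1/2`.
So the bound of `col_prob` is at most `|H| (1/2)^M ≤ C R^(-d) (1/2)^(1/(5R) - 2)`. -/
theorem quant {d k : ℕ} {φ : ℝ} (hd : 2 ≤ d) (hk : 1 ≤ k) (hkd : k ≤ d) (hφ : 0 < φ)
    (hφ4 : φ ≤ 1 / 4) (h : 10000 * Real.log d ≤ φ ^ 6 * d) :
    ∃ R₀ C : ℝ, 0 < R₀ ∧ 0 < C ∧ ∀ (R lam : ℝ), 0 < R → R ≤ R₀ → 0 < lam →
      (1 + 8 * φ ^ 2) ^ d ≤ lam / area d * (vb d * (R * (φ * (1 + 2 * φ ^ 2))) ^ d) →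
      Poi (ENNReal.ofReal lam • sig d)
        (fun A => ind (Col (R * (φ * (1 + 2 * φ ^ 2))) k A)) ≤
        ENNReal.ofReal (C * (1 / R) ^ d * (1 / 2) ^ (1 / (5 * R) : ℝ)) := by
  obtain ⟨n1, n2, n3⟩ := num3 hd hφ hφ4 h
  obtain ⟨R1, hR1, hS⟩ := Ss_ge hd
  obtain ⟨R2, hR2, hH⟩ := exists_net hd
  have hd0 : (2 : ℝ) ≤ d := by exact_mod_cast hd
  have hv := vb_pos d
  have ha := area_pos d
  have hsq : 0 < Real.sqrt (1 / (2 * d)) := Real.sqrt_pos.2 (by positivity)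
  refine ⟨min (min R1 R2) (min (1 / 10) (Real.sqrt (1 / (2 * d)))),
    8 * (area d / vb d) * (8 * d) ^ d, ?_, ?_, ?_⟩
  · exact lt_min (lt_min hR1 hR2) (lt_min (by norm_num) hsq)
  · have : (0 : ℝ) < (8 * (d : ℝ)) ^ d := by positivity
    have : (0 : ℝ) < area d / vb d := by positivity
    positivity
  intro R lam hR hRR hlam hyp
  have hRa : R ≤ R1 := hRR.trans ((min_le_left _ _).trans (min_le_left _ _))
  have hRb : R ≤ R2 := hRR.trans ((min_le_left _ _).trans (min_le_right _ _))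
  have hRc : R ≤ 1 / 10 := hRR.trans ((min_le_right _ _).trans (min_le_left _ _))
  have hRd : R ≤ Real.sqrt (1 / (2 * d)) := hRR.trans ((min_le_right _ _).trans (min_le_right _ _))
  have hRe : R ^ 2 ≤ 1 / (2 * d) := (Real.le_sqrt' hR).1 hRd
  have hl : 0 < lam / area d := by positivity
  obtain ⟨N, hN1, hN2, hN3, hN4⟩ := loc hd hk hkd hR hφ hφ4 h hl hyp
  have hp : ∀ z : Sph d, Poi (ENNReal.ofReal lam • sig d)
      (fun A => ind (BadZ (R * (φ * (1 + 2 * φ ^ 2))) R φ N k z A)) ≤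
      ENNReal.ofReal (3 * Real.exp (-(N : ℝ))) := fun z =>
    badZ_le hd hR (by linarith) hφ hφ4 hlam hk hN1 z (hS R φ z hR hRa hφ hφ4 n1) hN2 hN4
  obtain ⟨H, hc1, hc2, hc3⟩ := hH R hR hRb
  have hf : IsFiniteMeasure (sig d) := Q3_fin d
  have hf2 : IsFiniteMeasure (ENNReal.ofReal lam • sig d) :=
    Measure.smul_finite _ ENNReal.ofReal_ne_top
  obtain ⟨M, hM1, hM2⟩ := Q3_M hR hRc
  have hφ2 : 1 / (d : ℝ) ≤ φ ^ 2 := n3.trans (by nlinarith [sq_nonneg φ])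
  have key := col_prob (a := R * (φ * (1 + 2 * φ ^ 2))) (by omega) hk hkd hR (by linarith) hRe
    hφ2 hφ4 H hc1 M hM1 (ENNReal.ofReal lam • sig d) _ hp (8 * (48 * d) ^ d) hc2
  refine key.trans ?_
  have n4 := num4 (by omega : 1000 ≤ d) hN3
  obtain ⟨p, hpd⟩ : ∃ p : ℝ, p = 3 * Real.exp (-(N : ℝ)) := ⟨_, rfl⟩
  obtain ⟨Nh, hNh⟩ : ∃ Nh : ℕ, Nh = 8 * (48 * d) ^ d := ⟨_, rfl⟩
  have hNhr : (Nh : ℝ) = 8 * (48 * (d : ℝ)) ^ d := by
    rw [hNh]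
    push_cast
    ring
  rw [← hpd, ← hNhr] at n4
  rw [← hpd, ← hNh]
  have hp0 : 0 < p := by
    rw [hpd]
    positivity
  have hNh1 : (1 : ℝ) ≤ Nh := by
    have : 1 ≤ Nh := by
      rw [hNh]
      have : 0 < 8 * (48 * d) ^ d := by
        have : 0 < 48 * d := by omega
        positivity
      omega
    exact_mod_cast this
  have hp1 : p ≤ 1 := by nlinarith
  have e : (H.card : ℝ≥0∞) * (Nh : ℝ≥0∞) ^ M * ENNReal.ofReal p ^ (M + 1) =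
      ENNReal.ofReal ((H.card : ℝ) * (Nh : ℝ) ^ M * p ^ (M + 1)) := by
    rw [ENNReal.ofReal_mul (by positivity), ENNReal.ofReal_mul (by positivity),
      ENNReal.ofReal_pow (by positivity), ENNReal.ofReal_pow hp0.le, ENNReal.ofReal_natCast,
      ENNReal.ofReal_natCast]
  rw [e]
  apply ENNReal.ofReal_le_ofReal
  have g1 : (Nh : ℝ) ^ M * p ^ (M + 1) ≤ (1 / 2) ^ M := by
    calc (Nh : ℝ) ^ M * p ^ (M + 1) = ((Nh : ℝ) * p) ^ M * p := by rw [mul_pow, pow_succ]; ring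
      _ ≤ (1 / 2) ^ M * 1 :=
        mul_le_mul (pow_le_pow_left₀ (by positivity) n4 M) hp1 hp0.le (by positivity)
      _ = (1 / 2) ^ M := mul_one _
  have g2 : (Nh : ℝ) ^ M * p ^ (M + 1) ≤ 4 * (1 / 2) ^ (1 / (5 * R) : ℝ) := g1.trans hM2
  have hq : (0 : ℝ) < area d / vb d := by positivity
  calc (H.card : ℝ) * (Nh : ℝ) ^ M * p ^ (M + 1) = (H.card : ℝ) * ((Nh : ℝ) ^ M * p ^ (M + 1)) := by
        ring
    _ ≤ (2 * (area d / vb d) * (8 * d / R) ^ d) * (4 * (1 / 2) ^ (1 / (5 * R) : ℝ)) :=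
        mul_le_mul hc3 g2 (by positivity) (by positivity)
    _ = 8 * (area d / vb d) * (8 * d) ^ d * (1 / R) ^ d * (1 / 2) ^ (1 / (5 * R) : ℝ) := by
        rw [div_eq_mul_one_div (8 * (d : ℝ)) R, mul_pow]
        ring

end Pool.Agent.Helper6.HD
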