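import Pool.Agent.Helper6.HD.S3
import Pool.Agent.Helper97.BG.Final3

/-!
# PIECE HD-Q4: two limits
-/

open MeasureTheory Set Filter Topology
open scoped ENNReal

namespace Pool.Agent.Helper6.HD

open Pool.Agent.Helper97.BG

/-- The limit: with `β n = (1 + ε) rho d n^(-1/d)`, `a = 2 sin (β/2)`, `R = a/(φ (1 + 2φ²))`,
`lam = 3 n/4`: the hypothesis of `quant` holds for large `n`, because the right side is
`(3/4) (1 + ε)^d (sin (β/2)/(β/2))^d`, `8 φ² = ε/2` and `(1 + ε)^d/(1 + ε/2)^d ≥ (1 + ε/4)^d ≥ 2`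
(`ε d ≥ 4`). -/
theorem hyp_eventually {d : ℕ} {ε φ : ℝ} (hd : 2 ≤ d) (hε : 0 < ε) (hε1 : ε ≤ 1)
    (hφ : 0 < φ) (hφε : 16 * φ ^ 2 = ε) (hdε : 4 ≤ ε * d) :
    ∀ᶠ n : ℕ in atTop, (1 + 8 * φ ^ 2) ^ d ≤ (3 / 4 * (n : ℝ)) / area d *
      (vb d * (2 * Real.sin ((1 + ε) * rho d * (n : ℝ) ^ (-(1 : ℝ) / d) / 2)) ^ d) := by
  have hv := vb_pos d
  have har := area_pos d
  have hrho : 0 < rho d := by
    unfold rho
    positivity
  have hrd : rho d ^ d = area d / vb d := by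
    unfold rho
    rw [← Real.rpow_natCast, ← Real.rpow_mul (by positivity)]
    have h1 : (1 : ℝ) / d * (d : ℝ) = 1 := by
      have : (d : ℝ) ≠ 0 := by positivity
      field_simp
    rw [h1, Real.rpow_one]
  have hlim0 : Tendsto (fun n : ℕ => (1 + ε) * rho d / 2 * (n : ℝ) ^ (-(1 : ℝ) / d)) atTop (𝓝 0) :=
    f2_tendsto_rpow (by omega) _
  have hlim1 : Tendsto (fun n : ℕ => 3 / 4 * (1 + ε) ^ d *
      (Real.sinc ((1 + ε) * rho d / 2 * (n : ℝ) ^ (-(1 : ℝ) / d))) ^ d) atTop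
      (𝓝 (3 / 4 * (1 + ε) ^ d)) := by
    have h1 := ((Real.continuous_sinc.tendsto 0).comp hlim0).pow d
    have h2 := h1.const_mul (3 / 4 * (1 + ε) ^ d)
    rw [Real.sinc_zero, one_pow, mul_one] at h2
    exact h2
  have hstr : (1 + 8 * φ ^ 2) ^ d < 3 / 4 * (1 + ε) ^ d := by
    have e1 : 1 + 8 * φ ^ 2 = 1 + ε / 2 := by linarith
    rw [e1]
    have e2 : (1 + ε / 2) * (1 + ε / 4) ≤ 1 + ε := by nlinarith
    have e3 : ((1 + ε / 2) * (1 + ε / 4)) ^ d ≤ (1 + ε) ^ d :=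
      pow_le_pow_left₀ (by positivity) e2 d
    rw [mul_pow] at e3
    have e4 : 1 + (d : ℝ) * (ε / 4) ≤ (1 + ε / 4) ^ d := one_add_mul_le_pow (by linarith) d
    have e5 : 2 ≤ (1 + ε / 4) ^ d := by linarith
    have e6 : 0 < (1 + ε / 2) ^ d := by positivity
    nlinarith
  filter_upwards [hlim1.eventually (lt_mem_nhds hstr), eventually_ge_atTop 1] with n hn hn1
  refine hn.le.trans (le_of_eq ?_)
  have hn0 : (0 : ℝ) < n := by exact_mod_cast hn1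
  have hp : 0 < (n : ℝ) ^ (-(1 : ℝ) / d) := Real.rpow_pos_of_pos hn0 _
  obtain ⟨x, hx⟩ : ∃ x : ℝ, x = (n : ℝ) ^ (-(1 : ℝ) / d) := ⟨_, rfl⟩
  have hxd : x ^ d = (n : ℝ)⁻¹ := by
    rw [hx]
    exact f2_rpow_inv (by omega) hn0
  rw [← hx] at hp ⊢
  obtain ⟨t, ht⟩ : ∃ t : ℝ, t = (1 + ε) * rho d / 2 * x := ⟨_, rfl⟩
  have ht0 : 0 < t := by
    rw [ht]
    positivity
  have e0 : (1 + ε) * rho d * x / 2 = t := by
    rw [ht]
    ring
  rw [← ht, e0, Real.sinc_of_ne_zero ht0.ne']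
  have e1 : (2 * t) ^ d = (1 + ε) ^ d * (area d / vb d) * (n : ℝ)⁻¹ := by
    rw [← hrd, ← hxd, ← mul_pow, ← mul_pow, ht]
    congr 1
    ring
  have e2 : 2 * Real.sin t = 2 * t * (Real.sin t / t) := by
    field_simp
  rw [e2, mul_pow (2 * t), e1]
  field_simp

/-- Tail of the Poisson weights: `pois_hi` with `lam = 3n/4`, `N = n + 1`. -/
theorem pw_tail (c : ℝ) (hc : 0 ≤ c) (hc1 : c < 1) :
    Tendsto (fun n : ℕ => ∑' k, pw (c * n) (n + 1 + k)) atTop (𝓝 0) := by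
  have hc2 : 0 < 1 - c := by linarith
  have hlim : Tendsto (fun n : ℕ => ENNReal.ofReal (1 / ((1 - c) ^ 2 * (n : ℝ)))) atTop (𝓝 0) := by
    have h1 : Tendsto (fun n : ℕ => (1 - c) ^ 2 * (n : ℝ)) atTop atTop :=
      Tendsto.const_mul_atTop (by positivity) tendsto_natCast_atTop_atTop
    have h2 := ENNReal.tendsto_ofReal (h1.const_div_atTop 1)
    rwa [ENNReal.ofReal_zero] at h2
  refine tendsto_of_tendsto_of_tendsto_of_le_of_le' tendsto_const_nhds hlim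
    (Eventually.of_forall fun _ => zero_le) ?_
  filter_upwards [eventually_ge_atTop 1] with n hn
  have hn0 : (0 : ℝ) < n := by exact_mod_cast hn
  have hcn : 0 ≤ c * n := by positivity
  have hlt : c * n < ((n + 1 : ℕ) : ℝ) := by
    push_cast
    nlinarith
  refine (pois_hi hcn hlt).trans (ENNReal.ofReal_le_ofReal ?_)
  have h3 : (1 - c) * n ≤ ((n + 1 : ℕ) : ℝ) - c * n := by
    push_cast
    linarith
  have h4 : ((1 - c) * n) ^ 2 ≤ (((n + 1 : ℕ) : ℝ) - c * n) ^ 2 :=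
    pow_le_pow_left₀ (by positivity) h3 2
  have h5 : c * n ≤ n := by nlinarith
  calc c * n / (((n + 1 : ℕ) : ℝ) - c * n) ^ 2 ≤ n / ((1 - c) * n) ^ 2 := by
        gcongr
    _ = 1 / ((1 - c) ^ 2 * (n : ℝ)) := by
        field_simp

end Pool.Agent.Helper6.HD
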