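import Pool.Agent.Helper6.HD.Q3
import Pool.Agent.Helper6.HD.Q4

/-!
# PIECE HD-Q5: the upper threshold
-/

open MeasureTheory Set Filter Topology
open scoped ENNReal

namespace Pool.Agent.Helper6.HD

open Pool.Agent.Helper97.BG

private theorem Q5_decay (d : ℕ) (C : ℝ) :
    Tendsto (fun x : ℝ => C * x ^ d * (1 / 2) ^ (x / 5 : ℝ)) atTop (𝓝 0) := by
  have h1 := tendsto_rpow_mul_exp_neg_mul_atTop_nhds_zero (d : ℝ) (Real.log 2 / 5)
    (by have := Real.log_pos (show (1 : ℝ) < 2 by norm_num); positivity)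
  have h2 := h1.const_mul C
  rw [mul_zero] at h2
  refine h2.congr fun x => ?_
  rw [Real.rpow_natCast]
  have h3 : (1 / 2 : ℝ) ^ (x / 5) = Real.exp (-(Real.log 2 / 5) * x) := by
    rw [Real.rpow_def_of_pos (by norm_num), one_div, Real.log_inv]
    congr 1
    ring
  rw [h3]
  ring

private theorem Q5_ind (p : Prop) : ind (¬ p) + ind p = 1 := by
  unfold ind
  by_cases h : p <;> simp [h]

/-- `φ = √ε/4`, `C = 40960000`: `φ⁶ d = ε³ d/4096 ≥ 10000 log d`. By monotonicity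
(`prob_mono_alpha`) replace `α n` by `β n = (1 + ε) rho d n^(-1/d)`. `prob_eq`, `depois_hi`
(`tup_notCol_mono`) with `lam = 3n/4`: `prob d n (β n) k ≥ Poi (¬ Col) - tail`, and
`Poi (¬ Col) = 1 - Poi (Col) → 1` by `quant` (`R → 0`, `x^d 2^(-x/5) → 0`). -/
theorem upper {d k : ℕ} {ε : ℝ} (hd : 2 ≤ d) (hk : 1 ≤ k) (hkd : k ≤ d) (hε : 0 < ε)
    (hε1 : ε ≤ 1) (h : 40960000 * Real.log d ≤ ε ^ 3 * d) : UpperAt d k ((1 + ε) * rho d) := by
  have hd0 : (2 : ℝ) ≤ d := by exact_mod_cast hd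
  set φ : ℝ := √ε / 4 with hφdef
  have hφ : 0 < φ := by positivity
  have hsq : √ε ^ 2 = ε := Real.sq_sqrt hε.le
  have hφ2 : 16 * φ ^ 2 = ε := by
    rw [hφdef, div_pow, hsq]
    ring
  have hφ4 : φ ≤ 1 / 4 := by
    have h1 : √ε ≤ 1 := Real.sqrt_le_one.2 hε1
    rw [hφdef]
    linarith
  have h6 : 10000 * Real.log d ≤ φ ^ 6 * d := by
    have h1 : φ ^ 6 = ε ^ 3 / 4096 := by
      calc φ ^ 6 = (16 * φ ^ 2) ^ 3 / 4096 := by ring
        _ = ε ^ 3 / 4096 := by rw [hφ2]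
    rw [h1]
    linarith
  have hlog : (1 / 2 : ℝ) ≤ Real.log d := by
    have h1 : Real.log 2 ≤ Real.log d := Real.log_le_log (by norm_num) hd0
    have h2 := Real.log_two_gt_d9
    linarith
  have hdε : 4 ≤ ε * d := by
    have h1 : ε ^ 3 ≤ ε := by
      calc ε ^ 3 = ε * (ε * ε) := by ring
        _ ≤ ε * (1 * 1) := by gcongr
        _ = ε := by ring
    have h2 : ε ^ 3 * d ≤ ε * d := mul_le_mul_of_nonneg_right h1 (by linarith)
    linarith
  obtain ⟨R₀, C, hR₀, hC, hq⟩ := quant hd hk hkd hφ hφ4 h6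
  have hev := hyp_eventually hd hε hε1 hφ hφ2 hdε
  intro ε' hε' α hα
  have hrho : 0 < rho d := by
    unfold rho
    exact Real.rpow_pos_of_pos (div_pos (area_pos d) (vb_pos d)) _
  set β : ℕ → ℝ := fun n => (1 + ε) * rho d * (n : ℝ) ^ (-(1 : ℝ) / d) with hβdef
  set a : ℕ → ℝ := fun n => 2 * Real.sin (β n / 2) with hadef
  set κ : ℝ := φ * (1 + 2 * φ ^ 2) with hκdef
  have hκ : 0 < κ := by positivity
  set R : ℕ → ℝ := fun n => a n / κ with hRdef
  have hβ0 : Tendsto β atTop (𝓝 0) := f2_tendsto_rpow (by omega) ((1 + ε) * rho d)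
  have ha0 : Tendsto a atTop (𝓝 0) := by
    have h1 : Tendsto (fun t : ℝ => 2 * Real.sin (t / 2)) (𝓝 0) (𝓝 (2 * Real.sin (0 / 2))) :=
      Continuous.tendsto (by fun_prop) 0
    have h2 : 2 * Real.sin (0 / 2) = 0 := by simp
    rw [h2] at h1
    exact h1.comp hβ0
  have hR0 : Tendsto R atTop (𝓝 0) := by
    have h1 := ha0.div_const κ
    rwa [zero_div] at h1
  have hβpos : ∀ n : ℕ, 1 ≤ n → 0 < β n := by
    intro n hn
    have h1 : (0 : ℝ) < n := by exact_mod_cast hn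
    have h2 : 0 < (n : ℝ) ^ (-(1 : ℝ) / d) := Real.rpow_pos_of_pos h1 _
    rw [hβdef]
    positivity
  have hβpi : ∀ᶠ n in atTop, β n < Real.pi := hβ0.eventually (gt_mem_nhds Real.pi_pos)
  have hRpos : ∀ᶠ n in atTop, 0 < R n := by
    filter_upwards [hβpi, eventually_ge_atTop 1] with n h1 h2
    have h3 := hβpos n h2
    refine div_pos ?_ hκ
    have h4 : 0 < Real.sin (β n / 2) := Real.sin_pos_of_pos_of_lt_pi (by linarith)
      (by have := Real.pi_pos; linarith)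
    rw [hadef]
    positivity
  have hRle : ∀ᶠ n in atTop, R n ≤ R₀ := (hR0.eventually (gt_mem_nhds hR₀)).mono fun n hn => hn.le
  set T : ℕ → ℝ≥0∞ := fun n => ∑' j, pw (3 / 4 * n) (n + 1 + j) with hTdef
  have hT0 : Tendsto T atTop (𝓝 0) := pw_tail (3 / 4) (by norm_num) (by norm_num)
  set Q : ℕ → ℝ≥0∞ := fun n =>
    Poi (ENNReal.ofReal (3 / 4 * (n : ℝ)) • sig d) (fun A => ind (Col (a n) k A)) with hQdef
  have hQle : ∀ᶠ n in atTop, Q n ≤
      ENNReal.ofReal (C * (1 / R n) ^ d * (1 / 2) ^ (1 / (5 * R n) : ℝ)) := by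
    filter_upwards [hRpos, hRle, hev, eventually_ge_atTop 1] with n h1 h2 h3 h4
    have h5 : (0 : ℝ) < n := by exact_mod_cast h4
    have h6 : R n * κ = a n := by
      rw [hRdef]
      field_simp
    have h7 := hq (R n) (3 / 4 * (n : ℝ)) h1 h2 (by positivity) (by
      rw [h6]
      exact h3)
    rw [h6] at h7
    exact h7
  have hbound : Tendsto (fun n => ENNReal.ofReal
      (C * (1 / R n) ^ d * (1 / 2) ^ (1 / (5 * R n) : ℝ))) atTop (𝓝 0) := by
    have h1 : Tendsto (fun n => (R n)⁻¹) atTop atTop := by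
      refine Tendsto.inv_tendsto_nhdsGT_zero ?_
      exact tendsto_nhdsWithin_iff.2 ⟨hR0, hRpos⟩
    have h2 := (Q5_decay d C).comp h1
    have h3 : Tendsto (fun n => C * (1 / R n) ^ d * (1 / 2) ^ (1 / (5 * R n) : ℝ)) atTop
        (𝓝 0) := by
      refine h2.congr fun n => ?_
      simp only [Function.comp]
      have h4 : (R n)⁻¹ / 5 = 1 / (5 * R n) := by
        rw [one_div, mul_inv]
        ring
      rw [h4, one_div (R n)]
    have h4 := ENNReal.tendsto_ofReal h3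
    rwa [ENNReal.ofReal_zero] at h4
  have hQ0 : Tendsto Q atTop (𝓝 0) :=
    tendsto_of_tendsto_of_tendsto_of_le_of_le' tendsto_const_nhds hbound
      (Eventually.of_forall fun _ => zero_le) hQle
  have hsum : Tendsto (fun n => (1 : ℝ≥0∞) - (Q n + T n)) atTop (𝓝 1) := by
    have h1 := hQ0.add hT0
    rw [add_zero] at h1
    have h2 := ENNReal.Tendsto.sub (tendsto_const_nhds (x := (1 : ℝ≥0∞))) h1
      (Or.inl ENNReal.one_ne_top)
    rwa [tsub_zero] at h2
  refine tendsto_of_tendsto_of_tendsto_of_le_of_le' hsum (tendsto_const_nhds (x := (1 : ℝ≥0∞)))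
    ?_ (Eventually.of_forall fun n => prob_le_one)
  filter_upwards [hβpi, eventually_ge_atTop 1] with n h1 h2
  have h3 := hβpos n h2
  have h4 : (0 : ℝ) < n := by exact_mod_cast h2
  have h5 : prob d n (β n) k ≤ prob d n (α n) k := by
    refine prob_mono_alpha d n k ?_
    refine le_trans ?_ (hα n h2).le
    have h6 : β n = 1 * ((1 + ε) * rho d) * (n : ℝ) ^ (-(1 : ℝ) / d) := by
      rw [hβdef]
      ring
    rw [h6]
    have h7 : 0 < (n : ℝ) ^ (-(1 : ℝ) / d) := Real.rpow_pos_of_pos h4 _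
    gcongr
    linarith
  refine le_trans ?_ h5
  rw [prob_eq d n (by omega) h3 h1.le]
  rw [tsub_le_iff_right]
  have h6 := depois_hi d (lam := 3 / 4 * (n : ℝ)) (by positivity)
    (MS_notCol (d := d) (a n) k) (fun m => tup_notCol_mono d (a n) k m)
    (fun A => f2_ind_le_one _) n
  have h7 : (1 : ℝ≥0∞) = Poi (ENNReal.ofReal (3 / 4 * (n : ℝ)) • sig d)
      (fun A => ind (¬ Col (a n) k A)) + Q n := by
    have h8 : IsFiniteMeasure (ENNReal.ofReal (3 / 4 * (n : ℝ)) • sig d) :=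
      Measure.smul_finite _ ENNReal.ofReal_ne_top
    rw [hQdef]
    simp only
    rw [← Poi_add_fun _ (MS_notCol (d := d) (a n) k)]
    simp only [Q5_ind]
    rw [Poi_const]
  calc (1 : ℝ≥0∞) = Poi (ENNReal.ofReal (3 / 4 * (n : ℝ)) • sig d)
        (fun A => ind (¬ Col (a n) k A)) + Q n := h7
    _ ≤ (tup (sig d) n (fun A => ind (¬ Col (a n) k A)) + T n) + Q n := by
        gcongr
    _ = tup (sig d) n (fun A => ind (¬ Col (2 * Real.sin (β n / 2)) k A)) + (Q n + T n) := by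
        rw [hadef]
        ring

end Pool.Agent.Helper6.HD
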