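import Pool.Agent.Helper6.HD.Defs

/-!
# PIECE HD-S1: geometry of the chart
-/

open MeasureTheory Set
open scoped ENNReal

namespace Pool.Agent.Helper6.HD

open Pool.Agent.Helper97.BG

private theorem norm_pole (d : ℕ) : ‖pole d‖ = 1 := by
  unfold pole
  simp

private theorem inner_pole {d : ℕ} (w : V d) : inner ℝ w (pole d) = w 0 := by
  unfold pole
  simp [EuclideanSpace.inner_single_right]

/-- For instance a reflection or `LinearIsometry` extension / orthonormal basis starting with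
`z`. -/
theorem exists_U {d : ℕ} (z : Sph d) : ∃ U : V d ≃ₗᵢ[ℝ] V d, U (pole d) = z := by
  have hz : ‖(z : V d)‖ = 1 := by simp
  exact ⟨Submodule.reflection (Submodule.span ℝ {pole d - (z : V d)})ᗮ,
    Submodule.reflection_sub (by rw [norm_pole, hz])⟩

theorem norm_lift_sq {d : ℕ} (u : Eu d) : ‖lift u‖ ^ 2 = 1 + ‖u‖ ^ 2 := by
  rw [EuclideanSpace.norm_sq_eq, EuclideanSpace.norm_sq_eq, Fin.sum_univ_succ]
  simp [lift_zero_coord, lift_succ]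

private theorem norm_lift_pos {d : ℕ} (u : Eu d) : 0 < ‖lift u‖ := norm_pos_iff.2 (lift_ne u)

private theorem one_le_norm_lift {d : ℕ} (u : Eu d) : 1 ≤ ‖lift u‖ := by
  have h := norm_lift_sq u
  have h2 := norm_lift_pos u
  nlinarith [sq_nonneg ‖u‖]

private theorem coe_ch {d : ℕ} (U : V d ≃ₗᵢ[ℝ] V d) (u : Eu d) :
    (ch U u : V d) = (‖lift u‖)⁻¹ • U (lift u) := rfl

/-- `⟪ch U u, U pole⟫ = 1 / ‖lift u‖`. -/
theorem inner_ch {d : ℕ} (U : V d ≃ₗᵢ[ℝ] V d) (u : Eu d) :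
    inner ℝ (ch U u : V d) (U (pole d)) = (‖lift u‖)⁻¹ := by
  rw [coe_ch, real_inner_smul_left, LinearIsometryEquiv.inner_map_map, inner_pole,
    lift_zero_coord, mul_one]

private theorem contr {d : ℕ} (p q : V d) (hp : 1 ≤ ‖p‖) (hq : 1 ≤ ‖q‖) :
    ‖‖p‖⁻¹ • p - ‖q‖⁻¹ • q‖ ≤ ‖p - q‖ := by
  have hp0 : 0 < ‖p‖ := by linarith
  have hq0 : 0 < ‖q‖ := by linarith
  have h1 := norm_sub_sq_real (‖p‖⁻¹ • p) (‖q‖⁻¹ • q)
  have h2 := norm_sub_sq_real p q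
  have hs := real_inner_le_norm p q
  rw [real_inner_smul_left, real_inner_smul_right, norm_smul, norm_smul, norm_inv, norm_norm,
    norm_inv, norm_norm, inv_mul_cancel₀ hp0.ne', inv_mul_cancel₀ hq0.ne'] at h1
  have h3 : ‖p‖⁻¹ * (‖q‖⁻¹ * inner ℝ p q) = (‖p‖ * ‖q‖)⁻¹ * inner ℝ p q := by
    rw [mul_inv]
    ring
  rw [h3] at h1
  have hab : 1 ≤ ‖p‖ * ‖q‖ := by nlinarith
  have hinv : (‖p‖ * ‖q‖)⁻¹ ≤ 1 := inv_le_one_of_one_le₀ hab
  have hc : (‖p‖ * ‖q‖)⁻¹ * (‖p‖ * ‖q‖) = 1 := inv_mul_cancel₀ (by positivity)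
  have h4 : (1 - (‖p‖ * ‖q‖)⁻¹) * inner ℝ p q ≤ (1 - (‖p‖ * ‖q‖)⁻¹) * (‖p‖ * ‖q‖) :=
    mul_le_mul_of_nonneg_left hs (by linarith)
  have h5 : ‖‖p‖⁻¹ • p - ‖q‖⁻¹ • q‖ ^ 2 ≤ ‖p - q‖ ^ 2 := by
    rw [h1, h2]
    nlinarith [sq_nonneg (‖p‖ - ‖q‖)]
  exact le_of_sq_le_sq h5 (norm_nonneg _)

private theorem lift_sub {d : ℕ} (u v : Eu d) : ‖lift u - lift v‖ = ‖u - v‖ := by
  have h : ‖lift u - lift v‖ ^ 2 = ‖u - v‖ ^ 2 := by
    rw [EuclideanSpace.norm_sq_eq, EuclideanSpace.norm_sq_eq, Fin.sum_univ_succ]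
    simp [lift_zero_coord, lift_succ]
  exact (sq_eq_sq₀ (norm_nonneg _) (norm_nonneg _)).1 h

/-- For `‖p‖, ‖q‖ ≥ 1`: `‖p/‖p‖ - q/‖q‖‖ ≤ ‖p - q‖`, since with `c = ⟪p, q⟫/(‖p‖ ‖q‖) ≤ 1` the
difference of the squares is `‖p‖² + ‖q‖² - 2 - 2c(‖p‖‖q‖ - 1) ≥ (‖p‖ - ‖q‖)²`. Take `p = lift u`,
`q = lift v`, `‖p - q‖ = ‖u - v‖`. -/
theorem dist_ch_ch {d : ℕ} (U : V d ≃ₗᵢ[ℝ] V d) (u v : Eu d) :
    ‖(ch U u : V d) - ch U v‖ ≤ ‖u - v‖ := by
  rw [coe_ch, coe_ch, ← map_smul, ← map_smul, ← map_sub, LinearIsometryEquiv.norm_map,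
    ← lift_sub u v]
  exact contr _ _ (one_le_norm_lift u) (one_le_norm_lift v)

private theorem lift_zero (d : ℕ) : lift (0 : Eu d) = pole d := by
  unfold lift pole
  ext i
  refine Fin.cases ?_ (fun i => ?_) i
  · simp
  · simp

private theorem ch_zero {d : ℕ} (U : V d ≃ₗᵢ[ℝ] V d) : (ch U 0 : V d) = U (pole d) := by
  rw [coe_ch, lift_zero, norm_pole, inv_one, one_smul]

/-- `dist_ch_ch` with `v = 0`: `ch U 0 = U pole`. -/
theorem dist_ch_pole {d : ℕ} (U : V d ≃ₗᵢ[ℝ] V d) (u : Eu d) :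
    ‖(ch U u : V d) - U (pole d)‖ ≤ ‖u‖ := by
  have h := dist_ch_ch U u 0
  rwa [ch_zero, sub_zero] at h

/-- `D² = 2 - 2/√(1+t²)` with `t = ‖u‖`, so `t² = (D² - D⁴/4)/(1 - D²/2)²`, and
`(1 - D²/4) ≤ 1 ≤ ((1 + D²)(1 - D²/2))²` for `D ≤ 1/2`. -/
theorem norm_le_of_dist {d : ℕ} (U : V d ≃ₗᵢ[ℝ] V d) (u : Eu d)
    (h : ‖(ch U u : V d) - U (pole d)‖ ≤ 1 / 2) :
    ‖u‖ ≤ ‖(ch U u : V d) - U (pole d)‖ * (1 + ‖(ch U u : V d) - U (pole d)‖ ^ 2) := by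
  have h1 := norm_sub_sq_real (ch U u : V d) (U (pole d))
  have hz : ‖(ch U u : V d)‖ = 1 := by simp
  rw [inner_ch, hz, LinearIsometryEquiv.norm_map, norm_pole] at h1
  have h2 := norm_lift_sq u
  have h3 := norm_lift_pos u
  set D := ‖(ch U u : V d) - U (pole d)‖ with hD
  have hD0 : 0 ≤ D := norm_nonneg _
  set L := ‖lift u‖ with hL
  have h4 : L * (1 - D ^ 2 / 2) = 1 := by
    have : 1 - D ^ 2 / 2 = L⁻¹ := by linarith
    rw [this]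
    exact mul_inv_cancel₀ h3.ne'
  have hx : D ^ 2 ≤ 1 / 4 := by nlinarith
  have hx0 : 0 ≤ D ^ 2 := sq_nonneg D
  have h5 : ‖u‖ ^ 2 * (1 - D ^ 2 / 2) ^ 2 = D ^ 2 - D ^ 4 / 4 := by
    have h6 : ‖u‖ ^ 2 = L ^ 2 - 1 := by linarith
    rw [h6]
    have h7 : L ^ 2 * (1 - D ^ 2 / 2) ^ 2 = 1 := by
      rw [← mul_pow, h4, one_pow]
    nlinarith
  have h8 : 1 ≤ (1 + D ^ 2) * (1 - D ^ 2 / 2) := by nlinarith
  have h9 : 1 ≤ ((1 + D ^ 2) * (1 - D ^ 2 / 2)) ^ 2 := one_le_pow₀ h8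
  have h10 : 0 < (1 - D ^ 2 / 2) ^ 2 := by
    have : 0 < 1 - D ^ 2 / 2 := by linarith
    positivity
  have h11 : ‖u‖ ^ 2 ≤ (D * (1 + D ^ 2)) ^ 2 := by
    have h12 : ‖u‖ ^ 2 * (1 - D ^ 2 / 2) ^ 2 ≤ (D * (1 + D ^ 2)) ^ 2 * (1 - D ^ 2 / 2) ^ 2 := by
      rw [h5]
      have h13 : (D * (1 + D ^ 2)) ^ 2 * (1 - D ^ 2 / 2) ^ 2 =
          D ^ 2 * ((1 + D ^ 2) * (1 - D ^ 2 / 2)) ^ 2 := by ring
      rw [h13]
      have h14 : D ^ 2 * 1 ≤ D ^ 2 * ((1 + D ^ 2) * (1 - D ^ 2 / 2)) ^ 2 :=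
        mul_le_mul_of_nonneg_left h9 hx0
      have h15 : 0 ≤ D ^ 4 := by positivity
      linarith
    exact le_of_mul_le_mul_right h12 h10
  exact le_of_sq_le_sq h11 (by positivity)

private theorem continuous_lift (d : ℕ) : Continuous (lift : Eu d → V d) := by
  unfold lift
  refine (PiLp.continuous_toLp 2 _).comp ?_
  refine continuous_pi fun i => ?_
  refine Fin.cases ?_ (fun i => ?_) i
  · simpa using continuous_const
  · simp only [Fin.cons_succ]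
    fun_prop

theorem continuous_ch {d : ℕ} (U : V d ≃ₗᵢ[ℝ] V d) : Continuous (ch U : Eu d → Sph d) := by
  refine Continuous.subtype_mk ?_ _
  have h1 : Continuous fun u : Eu d => ‖lift u‖ := (continuous_lift d).norm
  exact (h1.inv₀ fun u => (norm_lift_pos u).ne').smul (U.continuous.comp (continuous_lift d))

theorem ch_injective {d : ℕ} (U : V d ≃ₗᵢ[ℝ] V d) : Function.Injective (ch U : Eu d → Sph d) := by
  intro u v h
  have h1 := inner_ch U u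
  rw [h, inner_ch] at h1
  have h2 : (ch U u : V d) = (ch U v : V d) := by rw [h]
  rw [coe_ch, coe_ch, h1] at h2
  have h3 : U (lift u) = U (lift v) :=
    smul_right_injective _ (inv_ne_zero (norm_lift_pos u).ne') h2
  have h4 : lift u = lift v := U.injective h3
  ext i
  have h5 : lift u i.succ = lift v i.succ := by rw [h4]
  rwa [lift_succ, lift_succ] at h5

/-- `u i = (U⁻¹ x) (i+1) / (U⁻¹ x) 0`. -/
theorem exists_ch {d : ℕ} (U : V d ≃ₗᵢ[ℝ] V d) (x : Sph d)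
    (h : 0 < inner ℝ (x : V d) (U (pole d))) : ∃ u : Eu d, ch U u = x := by
  set w : V d := U.symm x with hw
  have hxw : U w = x := by rw [hw]; simp
  have hwn : ‖w‖ = 1 := by rw [hw, LinearIsometryEquiv.norm_map]; simp
  have h0 : 0 < w 0 := by
    rw [← inner_pole, ← LinearIsometryEquiv.inner_map_map U, hxw]
    exact h
  refine ⟨WithLp.toLp 2 fun i => w i.succ / w 0, ?_⟩
  have hl : lift (WithLp.toLp 2 fun i => w i.succ / w 0) = (w 0)⁻¹ • w := by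
    ext i
    refine Fin.cases ?_ (fun i => ?_) i
    · rw [lift_zero_coord, PiLp.smul_apply, smul_eq_mul, inv_mul_cancel₀ h0.ne']
    · rw [lift_succ, PiLp.smul_apply, smul_eq_mul]
      simp only
      rw [div_eq_inv_mul]
  apply Subtype.ext
  rw [coe_ch, hl, norm_smul, hwn, mul_one, norm_inv, Real.norm_of_nonneg h0.le, inv_inv, map_smul,
    smul_smul, mul_inv_cancel₀ h0.ne', one_smul, hxw]

end Pool.Agent.Helper6.HD
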