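import Pool.Agent.Helper6.HD.Defs

/-!
# PIECE HD-S2: the volume of the cone over a subset of the tangent plane
-/

open MeasureTheory Set
open scoped ENNReal

namespace Pool.Agent.Helper6.HD

open Pool.Agent.Helper97.BG

/-- the coordinates -/
private noncomputable def S2_e (d : ℕ) : V d → ℝ × (Fin d → ℝ) := fun x =>
  (x 0, fun i => x i.succ)

private theorem S2_mp (d : ℕ) :
    MeasurePreserving (S2_e d) (volume : Measure (V d)) (volume : Measure (ℝ × (Fin d → ℝ))) :=
  (volume_preserving_piFinSuccAbove (fun _ : Fin (d + 1) => ℝ) 0).comp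
    (PiLp.volume_preserving_ofLp (Fin (d + 1)))

/-- the cone in the coordinates -/
private def S2_B {d : ℕ} (σ : ℝ) (T : Set (Eu d)) : Set (ℝ × (Fin d → ℝ)) :=
  {p | 0 < p.1 ∧ p.1 < σ ∧ (WithLp.toLp 2 (p.1⁻¹ • p.2) : Eu d) ∈ T}

private theorem S2_meas {d : ℕ} (σ : ℝ) {T : Set (Eu d)} (hT : MeasurableSet T) :
    MeasurableSet (S2_B σ T) := by
  have h1 : Measurable fun p : ℝ × (Fin d → ℝ) => (WithLp.toLp 2 (p.1⁻¹ • p.2) : Eu d) :=
    (PiLp.volume_preserving_toLp (Fin d)).measurable.comp (measurable_fst.inv.smul measurable_snd)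
  exact (measurableSet_lt measurable_const measurable_fst).inter
    ((measurableSet_lt measurable_fst measurable_const).inter (h1 hT))

private theorem S2_int {d : ℕ} {σ : ℝ} (hσ : 0 ≤ σ) :
    ∫⁻ s in Ioo 0 σ, ENNReal.ofReal (s ^ d) = ENNReal.ofReal (σ ^ (d + 1) / (d + 1)) := by
  have h1 : ∫ s in (0 : ℝ)..σ, s ^ d = σ ^ (d + 1) / (d + 1) := by
    rw [integral_pow]
    simp
  rw [← h1, intervalIntegral.integral_of_le hσ, ← restrict_Ioo_eq_restrict_Ioc]
  refine (ofReal_integral_eq_lintegral_ofReal ?_ ?_).symm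
  · have h2 : IntegrableOn (fun s : ℝ => s ^ d) (Icc 0 σ) :=
      (continuous_pow d).continuousOn.integrableOn_Icc
    exact h2.mono_set Ioo_subset_Icc_self
  · exact (ae_restrict_iff' measurableSet_Ioo).2 (ae_of_all _ fun s hs => pow_nonneg hs.1.le d)

private theorem S2_vol {d : ℕ} {σ : ℝ} (hσ : 0 ≤ σ) {T : Set (Eu d)} (hT : MeasurableSet T) :
    volume (S2_B σ T) = ENNReal.ofReal (σ ^ (d + 1) / (d + 1)) * volume T := by
  set T' : Set (Fin d → ℝ) := (fun v => (WithLp.toLp 2 v : Eu d)) ⁻¹' T with hT'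
  have hvT : volume T' = volume T :=
    (PiLp.volume_preserving_toLp (Fin d)).measure_preimage hT.nullMeasurableSet
  have h1 : ∀ s : ℝ, volume (Prod.mk s ⁻¹' S2_B σ T) =
      (Ioo 0 σ).indicator (fun s => ENNReal.ofReal (s ^ d) * volume T) s := by
    intro s
    by_cases hs : s ∈ Ioo 0 σ
    · rw [indicator_of_mem hs]
      have h2 : Prod.mk s ⁻¹' S2_B σ T = (s⁻¹ • ·) ⁻¹' T' := by
        ext v
        simp only [S2_B, mem_preimage, mem_ofPred_eq, hT']
        exact ⟨fun h => h.2.2, fun h => ⟨hs.1, hs.2, h⟩⟩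
      have h3 : s⁻¹ ≠ 0 := inv_ne_zero hs.1.ne'
      rw [h2, Measure.addHaar_preimage_smul _ h3, hvT, Module.finrank_fintype_fun_eq_card,
        Fintype.card_fin, inv_pow, inv_inv, abs_of_nonneg (pow_nonneg hs.1.le d)]
    · rw [indicator_of_notMem hs]
      have h2 : Prod.mk s ⁻¹' S2_B σ T = ∅ := by
        ext v
        simp only [S2_B, mem_preimage, mem_ofPred_eq, mem_empty_iff_false, iff_false]
        exact fun h => hs ⟨h.1, h.2.1⟩
      rw [h2, measure_empty]
  rw [Measure.volume_eq_prod, Measure.prod_apply (S2_meas σ hT)]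
  simp only [h1]
  rw [lintegral_indicator measurableSet_Ioo, lintegral_mul_const _ (by fun_prop), S2_int hσ]

/-- `U` preserves the volume (`LinearIsometryEquiv.measurePreserving`), so `U = 1`. The
coordinates `V d ≃ ℝ × (Fin d → ℝ)` (`PiLp.volume_preserving_ofLp`,
`volume_preserving_piFinSuccAbove` at `0`) preserve the volume; the set becomes
`{(s, v) : 0 < s < σ, s⁻¹ v ∈ T}`, whose volume is `∫ s in (0, σ), s^d |T| ds = σ^(d+1)/(d+1) |T|`
(`Measure.prod_apply`, `Measure.addHaar_smul`). -/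
theorem vol_coneset {d : ℕ} (U : V d ≃ₗᵢ[ℝ] V d) {σ : ℝ} (hσ : 0 ≤ σ) {T : Set (Eu d)}
    (hT : MeasurableSet T) :
    volume {x : V d | ∃ (s : ℝ) (u : Eu d), 0 < s ∧ s < σ ∧ u ∈ T ∧ x = s • U (lift u)} =
      ENNReal.ofReal (σ ^ (d + 1) / (d + 1)) * volume T := by
  have h1 : {x : V d | ∃ (s : ℝ) (u : Eu d), 0 < s ∧ s < σ ∧ u ∈ T ∧ x = s • U (lift u)} =
      U.symm ⁻¹' (S2_e d ⁻¹' S2_B σ T) := by
    ext x
    simp only [mem_ofPred_eq, mem_preimage, S2_B, S2_e]
    constructor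
    · rintro ⟨s, u, hs, hs', hu, rfl⟩
      have h2 : U.symm (s • U (lift u)) = s • lift u := by
        rw [map_smul, LinearIsometryEquiv.symm_apply_apply]
      have h3 : (s • lift u : V d) 0 = s := by
        rw [PiLp.smul_apply, lift_zero_coord, smul_eq_mul, mul_one]
      have h4 : (fun i : Fin d => (s • lift u : V d) i.succ) = s • fun i : Fin d => u i := by
        funext i
        rw [PiLp.smul_apply, lift_succ]
        rfl
      rw [h2, h3, h4, smul_smul, inv_mul_cancel₀ hs.ne', one_smul]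
      exact ⟨hs, hs', hu⟩
    · rintro ⟨hs, hs', hu⟩
      refine ⟨_, _, hs, hs', hu, ?_⟩
      rw [← map_smul, ← LinearIsometryEquiv.symm_apply_eq]
      ext i
      rw [PiLp.smul_apply]
      refine Fin.cases ?_ (fun i => ?_) i
      · rw [lift_zero_coord, smul_eq_mul, mul_one]
      · rw [lift_succ]
        change _ = (U.symm x) 0 * (((U.symm x) 0)⁻¹ * (U.symm x) i.succ)
        rw [mul_inv_cancel_left₀ hs.ne']
  have h2 : MeasurableSet (S2_e d ⁻¹' S2_B σ T) := (S2_mp d).measurable (S2_meas σ hT)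
  rw [h1, U.symm.measurePreserving.measure_preimage h2.nullMeasurableSet,
    (S2_mp d).measure_preimage (S2_meas σ hT).nullMeasurableSet, S2_vol hσ hT]

end Pool.Agent.Helper6.HD
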