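import Pool.Agent.Helper6.HD.S1
import Pool.Agent.Helper6.HD.S2

/-!
# PIECE HD-S3: the uniform measure of the sphere in the chart
-/

open MeasureTheory Set
open scoped ENNReal Pointwise

namespace Pool.Agent.Helper6.HD

open Pool.Agent.Helper97.BG

theorem vb_pos (d : ℕ) : 0 < vb d :=
  ENNReal.toReal_pos (Metric.measure_ball_pos _ _ one_pos).ne' measure_ball_lt_top.ne

theorem area_pos (d : ℕ) : 0 < area d := by
  unfold area
  have := vb_pos (d + 1)
  positivity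

/-- `Measure.toSphere_apply_univ` and `finrank = d + 1`. -/
theorem toSphere_univ (d : ℕ) :
    (volume : Measure (V d)).toSphere univ = ENNReal.ofReal (area d) := by
  rw [Measure.toSphere_apply_univ, finrank_euclideanSpace, Fintype.card_fin, area, vb,
    ENNReal.ofReal_mul (by positivity), ENNReal.ofReal_toReal measure_ball_lt_top.ne]
  congr 1
  rw [show ((d : ℝ) + 1) = ((d + 1 : ℕ) : ℝ) by push_cast; ring, ENNReal.ofReal_natCast]

private theorem sig_eq (d : ℕ) {B : Set (Sph d)} (hB : MeasurableSet B) :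
    sig d B = ENNReal.ofReal (1 / area d) * (ENNReal.ofReal (d + 1) *
      volume (Ioo (0 : ℝ) 1 • ((↑) '' B : Set (V d)))) := by
  rw [sig, Measure.smul_apply, toSphere_univ, Measure.toSphere_apply' _ hB,
    finrank_euclideanSpace, Fintype.card_fin, smul_eq_mul, one_div,
    ENNReal.ofReal_inv_of_pos (area_pos d)]
  congr 2
  rw [show ((d : ℝ) + 1) = ((d + 1 : ℕ) : ℝ) by push_cast; ring, ENNReal.ofReal_natCast]

private theorem one_le_norm_lift {d : ℕ} (u : Eu d) : 1 ≤ ‖lift u‖ := by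
  have h := norm_lift_sq u
  have h1 := norm_nonneg (lift u)
  nlinarith [sq_nonneg ‖u‖]

/-- `toSphere B = (d+1) vol (Ioo 0 1 • B)` (`Measure.toSphere_apply'`), and every `r • x` with
`0 < r < 1`, `x = ch U u ∈ B` is `(r/‖lift u‖) • U (lift u)`, in the set of `vol_coneset` with
`σ = 1`, `T = ch U ⁻¹' B` (`‖lift u‖ ≥ 1`, `exists_ch`). Divide by `area d`. -/
theorem ch_up {d : ℕ} (U : V d ≃ₗᵢ[ℝ] V d) {B : Set (Sph d)} (hB : MeasurableSet B)
    (hpos : ∀ x ∈ B, 0 < inner ℝ (x : V d) (U (pole d))) :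
    sig d B ≤ ENNReal.ofReal (1 / area d) * volume (ch U ⁻¹' B) := by
  have hT : MeasurableSet (ch U ⁻¹' B) := (continuous_ch U).measurable hB
  have hsub : Ioo (0 : ℝ) 1 • ((↑) '' B : Set (V d)) ⊆
      {x : V d | ∃ (s : ℝ) (u : Eu d), 0 < s ∧ s < 1 ∧ u ∈ ch U ⁻¹' B ∧ x = s • U (lift u)} := by
    rintro _ ⟨r, ⟨hr0, hr1⟩, _, ⟨x, hx, rfl⟩, rfl⟩
    obtain ⟨u, hu⟩ := exists_ch U x (hpos x hx)
    have h1 := one_le_norm_lift u
    have h2 : 0 < ‖lift u‖ := by linarith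
    refine ⟨r * ‖lift u‖⁻¹, u, by positivity, ?_, ?_, ?_⟩
    · have : ‖lift u‖⁻¹ ≤ 1 := inv_le_one_of_one_le₀ h1
      nlinarith
    · show ch U u ∈ B
      rw [hu]
      exact hx
    · rw [← hu, mul_smul]
      rfl
  rw [sig_eq d hB]
  refine mul_le_mul_right ?_ _
  have h3 := vol_coneset U (σ := 1) zero_le_one hT
  calc ENNReal.ofReal (d + 1) * volume (Ioo (0 : ℝ) 1 • ((↑) '' B : Set (V d)))
      ≤ ENNReal.ofReal (d + 1) * (ENNReal.ofReal (1 ^ (d + 1) / (d + 1)) * volume (ch U ⁻¹' B)) := by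
        rw [← h3]
        exact mul_le_mul_right (measure_mono hsub) _
    _ = volume (ch U ⁻¹' B) := by
        rw [← mul_assoc, ← ENNReal.ofReal_mul (by positivity)]
        have : ((d : ℝ) + 1) * (1 ^ (d + 1) / (d + 1)) = 1 := by
          rw [one_pow]
          field_simp
        rw [this, ENNReal.ofReal_one, one_mul]

/-- The set of `vol_coneset` with `σ = 1/(1+s²)`, `T = ch U ⁻¹' B` is in `Ioo 0 1 • B`: for
`‖u‖ ≤ s`, `‖lift u‖ ≤ 1 + s²`. -/
theorem ch_lo {d : ℕ} (U : V d ≃ₗᵢ[ℝ] V d) {B : Set (Sph d)} (hB : MeasurableSet B) {s : ℝ}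
    (hs : ch U ⁻¹' B ⊆ Metric.closedBall (0 : Eu d) s) :
    ENNReal.ofReal (1 / area d * (1 / (1 + s ^ 2)) ^ (d + 1)) * volume (ch U ⁻¹' B) ≤ sig d B := by
  have hT : MeasurableSet (ch U ⁻¹' B) := (continuous_ch U).measurable hB
  have hσ : 0 ≤ 1 / (1 + s ^ 2) := by positivity
  have hsub : {x : V d | ∃ (t : ℝ) (u : Eu d), 0 < t ∧ t < 1 / (1 + s ^ 2) ∧ u ∈ ch U ⁻¹' B ∧
      x = t • U (lift u)} ⊆ Ioo (0 : ℝ) 1 • ((↑) '' B : Set (V d)) := by
    rintro _ ⟨t, u, ht0, ht1, hu, rfl⟩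
    have h1 := one_le_norm_lift u
    have h2 : 0 < ‖lift u‖ := by linarith
    have h3 : ‖u‖ ≤ s := by simpa using hs hu
    have h4 : ‖lift u‖ ≤ 1 + s ^ 2 := by
      have h5 := norm_lift_sq u
      have h6 : ‖u‖ ^ 2 ≤ s ^ 2 := pow_le_pow_left₀ (norm_nonneg u) h3 2
      nlinarith
    refine ⟨t * ‖lift u‖, ⟨by positivity, ?_⟩, (ch U u : V d), ⟨ch U u, hu, rfl⟩, ?_⟩
    · have h5 : 0 < 1 + s ^ 2 := by positivity
      rw [lt_div_iff₀ h5] at ht1
      nlinarith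
    · show (t * ‖lift u‖) • ((‖lift u‖)⁻¹ • U (lift u)) = t • U (lift u)
      rw [smul_smul, mul_assoc, mul_inv_cancel₀ h2.ne', mul_one]
  rw [sig_eq d hB, ENNReal.ofReal_mul (by have := area_pos d; positivity), mul_assoc]
  refine mul_le_mul_right ?_ _
  have h3 := vol_coneset U hσ hT
  calc ENNReal.ofReal ((1 / (1 + s ^ 2)) ^ (d + 1)) * volume (ch U ⁻¹' B)
      = ENNReal.ofReal (d + 1) * (ENNReal.ofReal ((1 / (1 + s ^ 2)) ^ (d + 1) / (d + 1)) *
          volume (ch U ⁻¹' B)) := by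
        rw [← mul_assoc, ← ENNReal.ofReal_mul (by positivity)]
        congr 2
        field_simp
    _ ≤ ENNReal.ofReal (d + 1) * volume (Ioo (0 : ℝ) 1 • ((↑) '' B : Set (V d))) := by
        rw [← h3]
        exact mul_le_mul_right (measure_mono hsub) _

end Pool.Agent.Helper6.HD
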