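import Pool.Agent.Helper6.HD.Defs

/-!
# PIECE HD-T1: odd signs on a finite set with an involution
-/

open MeasureTheory Set
open scoped ENNReal

namespace Pool.Agent.Helper6.HD

/-- Let `~` be the equivalence relation generated by `r` on `W` (`Relation.EqvGen` restricted to
`W`, or the connected components of a graph on the subtype). By hypothesis `w` and `ν w` are never
equivalent, and `ν` maps classes to classes. Choose a linear order on the classes and put
`s w = decide (class w < class (ν w))`. -/
theorem exists_sign {X : Type*} (W : Set X) (ν : X → X) (hν : ∀ w, ν (ν w) = w)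
    (hW : ∀ w ∈ W, ν w ∈ W) (r : X → X → Prop) (hsymm : ∀ u v, r u v → r v u)
    (hνr : ∀ u v, r u v → r (ν u) (ν v))
    (hno : ¬ ∃ (m : ℕ) (w : ℕ → X), (∀ j ≤ m, w j ∈ W) ∧ (∀ j < m, r (w j) (w (j + 1))) ∧
      w m = ν (w 0)) :
    ∃ s : X → Bool, (∀ w ∈ W, s (ν w) = !(s w)) ∧ ∀ u ∈ W, ∀ v ∈ W, r u v → s u = s v := by
  classical
  set R : X → X → Prop := fun u v => u ∈ W ∧ v ∈ W ∧ r u v with hR
  have hRsymm : ∀ u v, R u v → R v u := fun u v h => ⟨h.2.1, h.1, hsymm u v h.2.2⟩
  have hE : ∀ u v, Relation.ReflTransGen R u v → Relation.ReflTransGen R v u := by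
    intro u v h
    induction h with
    | refl => exact Relation.ReflTransGen.refl
    | tail _ hbc ih => exact Relation.ReflTransGen.head (hRsymm _ _ hbc) ih
  have hpath : ∀ u v, Relation.ReflTransGen R u v →
      ∃ (m : ℕ) (w : ℕ → X), w 0 = u ∧ w m = v ∧ ∀ j < m, R (w j) (w (j + 1)) := by
    intro u v h
    induction h with
    | refl => exact ⟨0, fun _ => u, rfl, rfl, fun j hj => absurd hj (Nat.not_lt_zero j)⟩
    | @tail b c _ hbc ih =>
      obtain ⟨m, w, h0, hm, hw⟩ := ih
      refine ⟨m + 1, fun j => if j ≤ m then w j else c, by simp [h0], by simp, ?_⟩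
      intro j hj
      rcases Nat.lt_or_ge j m with h | h
      · have h1 : j ≤ m := h.le
        have h2 : j + 1 ≤ m := h
        simp only [h1, h2, if_true]
        exact hw j h
      · have h1 : j = m := by omega
        subst h1
        simp only [le_refl, if_true, Nat.not_succ_le_self, if_false, hm]
        exact hbc
  have hνE : ∀ u v, Relation.ReflTransGen R u v → Relation.ReflTransGen R (ν u) (ν v) := by
    intro u v h
    induction h with
    | refl => exact Relation.ReflTransGen.refl
    | tail _ hbc ih => exact ih.tail ⟨hW _ hbc.1, hW _ hbc.2.1, hνr _ _ hbc.2.2⟩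
  have hne : ∀ w ∈ W, ¬ Relation.ReflTransGen R w (ν w) := by
    intro w hw h
    obtain ⟨m, f, h0, hm, hf⟩ := hpath _ _ h
    refine hno ⟨m, f, ?_, fun j hj => (hf j hj).2.2, by rw [hm, h0]⟩
    intro j hj
    rcases Nat.lt_or_ge j m with h' | h'
    · exact (hf j h').1
    · have : j = m := le_antisymm hj h'
      subst this
      rw [hm]
      exact hW w hw
  let S : Setoid X := ⟨Relation.ReflTransGen R, fun _ => Relation.ReflTransGen.refl,
    fun {u v} h => hE u v h, fun {_ _ _} h1 h2 => h1.trans h2⟩
  let q : X → Quotient S := fun x => Quotient.mk S x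
  have hq : ∀ u v, Relation.ReflTransGen R u v → q u = q v := fun u v h => Quotient.sound h
  have hq' : ∀ u v, q u = q v → Relation.ReflTransGen R u v := fun u v h => Quotient.exact h
  refine ⟨fun w => decide (WellOrderingRel (q w) (q (ν w))), ?_, ?_⟩
  · intro w hw
    have hne' : q w ≠ q (ν w) := fun h => hne w hw (hq' _ _ h)
    simp only [hν]
    rcases trichotomous_of WellOrderingRel (q w) (q (ν w)) with h | h | h
    · have h' : ¬ WellOrderingRel (q (ν w)) (q w) := asymm_of WellOrderingRel h
      simp [h, h']
    · exact absurd h hne'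
    · have h' : ¬ WellOrderingRel (q w) (q (ν w)) := asymm_of WellOrderingRel h
      simp [h, h']
  · intro u hu v hv huv
    have h1 : Relation.ReflTransGen R u v := Relation.ReflTransGen.single ⟨hu, hv, huv⟩
    have h2 := hq _ _ h1
    have h3 := hq _ _ (hνE _ _ h1)
    simp only [h2, h3]

end Pool.Agent.Helper6.HD
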