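import Pool.Agent.Helper6.HD.T1
import Pool.Agent.Helper19.HO.BU

/-!
# PIECE HD-T2: the topological lemma
-/

open MeasureTheory Set
open scoped ENNReal

namespace Pool.Agent.Helper6.HD

open Pool.Agent.Helper97.BG

/-- Borsuk-Ulam for the unit sphere of `V d`, from `Pool.Agent.Helper19.HO.borsuk_ulam` (`n = d`,
`f y = g (y / ‖y‖)` with the Euclidean norm of `WithLp.toLp 2 y`). -/
theorem bu_sphere {d : ℕ} (g : Sph d → (Fin d → ℝ)) (hg : Continuous g)
    (hodd : ∀ x, g (-x) = -g x) : ∃ x, g x = 0 := by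
  classical
  have hne : ∀ y : Fin (d + 1) → ℝ, y ≠ 0 → (WithLp.toLp 2 y : V d) ≠ 0 := by
    intro y hy h
    exact hy ((WithLp.toLp_injective 2) (h.trans (WithLp.toLp_zero 2).symm))
  have hmem : ∀ y : Fin (d + 1) → ℝ, y ≠ 0 →
      (‖(WithLp.toLp 2 y : V d)‖)⁻¹ • (WithLp.toLp 2 y : V d) ∈ Metric.sphere (0 : V d) 1 := by
    intro y hy
    have h := norm_ne_zero_iff.2 (hne y hy)
    simp [norm_smul, h]
  set f : (Fin (d + 1) → ℝ) → (Fin d → ℝ) := fun y => if h : y ≠ 0 then g ⟨_, hmem y h⟩ else 0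
    with hf
  have hfy : ∀ (y : Fin (d + 1) → ℝ) (h : y ≠ 0), f y = g ⟨_, hmem y h⟩ := fun y h => by
    rw [hf]
    exact dif_pos h
  have hc : ContinuousOn f {0}ᶜ := by
    rw [continuousOn_iff_continuous_domRestrict]
    have h1 : ({0}ᶜ : Set (Fin (d + 1) → ℝ)).domRestrict f =
        fun y : ({0}ᶜ : Set (Fin (d + 1) → ℝ)) => g ⟨_, hmem y.1 y.2⟩ := by
      funext y
      rw [Set.domRestrict_apply]
      exact hfy y.1 y.2
    rw [h1]
    refine hg.comp (Continuous.subtype_mk ?_ _)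
    have h2 : Continuous fun y : ({0}ᶜ : Set (Fin (d + 1) → ℝ)) => (WithLp.toLp 2 y.1 : V d) :=
      (PiLp.continuous_toLp 2 _).comp continuous_subtype_val
    exact (h2.norm.inv₀ fun y => norm_ne_zero_iff.2 (hne y.1 y.2)).smul h2
  have ho : ∀ y : Fin (d + 1) → ℝ, y ≠ 0 → f (-y) = -f y := by
    intro y hy
    rw [hfy y hy, hfy (-y) (neg_ne_zero.2 hy), ← hodd]
    congr 1
    apply Subtype.ext
    simp
  obtain ⟨y, hy, hy0⟩ := Pool.Agent.Helper19.HO.borsuk_ulam f hc ho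
  rw [hfy y hy] at hy0
  exact ⟨_, hy0⟩

/-- Suppose there is no such chain. `exists_sign` with `W = {w : w or -w is a bad point of H}`,
`ν = neg`, `r u v ↔ ‖u - v‖ ≤ 2ρ` gives the sign `s`. Let `B` be the union of the closed `ρ`-balls
round the `w ∈ W` with `s w = true` (finitely many), `B' = -B` the union for `s w = false`;
`B ∩ B' = ∅` (centres at distance `≤ 2ρ` would have the same sign). `F i` = union of the closed
`ρ`-balls round the good `z ∈ H` with `heavy i z`. Functions: `f i x = infDist x (F i) -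
infDist (-x) (F i)` for `i = 0, .., k-2`, and `f_(k-1) x = infDist x B' - infDist x B`, the
others (`k ≤ i < d`) zero: odd and continuous. Take a common zero `x` (`bu_sphere`). `x ∉ B ∪ B'`
(if `x ∈ B` then `infDist x B = 0`, `x ∉ B'` closed nonempty: `infDist x B' > 0`). Take `z, z' ∈ H`
within `ρ` of `x` and `-x`: they are good, so `x ∈ F i`, `-x ∈ F j` for some `i`, `j` by `h1`.
If `i < k - 1` then `infDist (-x) (F i) = 0`, `-x ∈ F i` (closed, nonempty), against `h2` (centres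
`z`, `z'` with `‖x - z‖ ≤ ρ`, `‖-x - z'‖ ≤ ρ`, so `‖z + z'‖ ≤ 2ρ`). Same for `j`. So
`i = j = k - 1`, against `h2`. -/
theorem topo {d k : ℕ} (hk : 1 ≤ k) (hkd : k ≤ d) (H : Finset (Sph d)) {ρ : ℝ} (hρ : 0 < ρ)
    (hcov : ∀ x : Sph d, ∃ h ∈ H, ‖(x : V d) - h‖ ≤ ρ) (bad : Sph d → Prop)
    (heavy : Fin k → Sph d → Prop) (h1 : ∀ z ∈ H, ¬ bad z → ∃ i, heavy i z)
    (h2 : ∀ z ∈ H, ∀ z' ∈ H, ¬ bad z → ¬ bad z' → ‖(z : V d) + z'‖ ≤ 2 * ρ →
      ∀ i, ¬ (heavy i z ∧ heavy i z')) :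
    ∃ (m : ℕ) (w : ℕ → Sph d), (∀ j ≤ m, ∃ z ∈ H, bad z ∧ (w j = z ∨ w j = -z)) ∧
      (∀ j < m, ‖(w j : V d) - w (j + 1)‖ ≤ 2 * ρ) ∧ w m = -w 0 := by
  classical
  by_contra hno
  have hdist : ∀ x y : Sph d, dist x y = ‖(x : V d) - y‖ := fun x y => by
    rw [Subtype.dist_eq, dist_eq_norm]
  set W : Set (Sph d) := {w | ∃ z ∈ H, bad z ∧ (w = z ∨ w = -z)} with hWdef
  have hWneg : ∀ w ∈ W, -w ∈ W := by
    rintro w ⟨z, hz, hb, h | h⟩
    · exact ⟨z, hz, hb, Or.inr (by rw [h])⟩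
    · exact ⟨z, hz, hb, Or.inl (by rw [h, neg_neg])⟩
  have hWfin : W.Finite := by
    refine ((H : Set (Sph d)).toFinite.union ((H : Set (Sph d)).toFinite.image Neg.neg)).subset ?_
    rintro w ⟨z, hz, -, h | h⟩
    · rw [h]
      exact Or.inl hz
    · rw [h]
      exact Or.inr ⟨z, hz, rfl⟩
  obtain ⟨s, hs1, hs2⟩ := exists_sign W Neg.neg (fun w => neg_neg w) hWneg
    (fun u v => ‖(u : V d) - v‖ ≤ 2 * ρ) (fun u v h => by rwa [norm_sub_rev] at h)
    (fun u v h => by
      show ‖((-u : Sph d) : V d) - ((-v : Sph d) : V d)‖ ≤ 2 * ρ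
      rw [coe_neg_sphere, coe_neg_sphere, neg_sub_neg, norm_sub_rev]
      exact h)
    (fun ⟨m, w, h3, h4, h5⟩ => hno ⟨m, w, h3, h4, h5⟩)
  -- the closed sets
  have hclosed : ∀ P : Sph d → Prop, (∃ T : Set (Sph d), T.Finite ∧ ∀ z, P z → z ∈ T) →
      IsClosed {x : Sph d | ∃ z, P z ∧ ‖(x : V d) - z‖ ≤ ρ} := by
    rintro P ⟨T, hT, hPT⟩
    have h3 : {x : Sph d | ∃ z, P z ∧ ‖(x : V d) - z‖ ≤ ρ} =
        ⋃ z ∈ {z | P z}, Metric.closedBall z ρ := by
      ext x
      simp only [Set.mem_ofPred_eq, Set.mem_iUnion, Metric.mem_closedBall, hdist, exists_prop]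
    rw [h3]
    exact (hT.subset fun z hz => hPT z hz).isClosed_biUnion fun z _ => Metric.isClosed_closedBall
  have hneg : ∀ x z : Sph d, ‖((-x : Sph d) : V d) - z‖ = ‖(x : V d) - ((-z : Sph d) : V d)‖ := by
    intro x z
    rw [coe_neg_sphere, coe_neg_sphere, ← norm_neg]
    congr 1
    abel
  set B : Bool → Set (Sph d) := fun b => {x | ∃ z, (z ∈ W ∧ s z = b) ∧ ‖(x : V d) - z‖ ≤ ρ}
    with hB
  have hBc : ∀ b, IsClosed (B b) := fun b => hclosed _ ⟨W, hWfin, fun z hz => hz.1⟩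
  have hBneg : ∀ b x, x ∈ B b → -x ∈ B (!b) := by
    rintro b x ⟨z, ⟨hz, hzb⟩, hxz⟩
    refine ⟨-z, ⟨hWneg z hz, by rw [hs1 z hz, hzb]⟩, ?_⟩
    rw [hneg, neg_neg]
    exact hxz
  have hBdisj : ∀ x, x ∈ B true → x ∉ B false := by
    rintro x ⟨z, ⟨hz, hzb⟩, hxz⟩ ⟨z', ⟨hz', hzb'⟩, hxz'⟩
    have h3 := hs2 z hz z' hz' (by
      have h4 : (z : V d) - z' = ((x : V d) - z') - ((x : V d) - z) := by abel
      rw [h4]
      refine (norm_sub_le _ _).trans ?_
      linarith)
    rw [hzb, hzb'] at h3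
    exact Bool.noConfusion h3
  set F : Fin k → Set (Sph d) := fun i => {x | ∃ z, (z ∈ H ∧ ¬ bad z ∧ heavy i z) ∧
    ‖(x : V d) - z‖ ≤ ρ} with hF
  have hFc : ∀ i, IsClosed (F i) := fun i =>
    hclosed _ ⟨H, (H : Set (Sph d)).toFinite, fun z hz => hz.1⟩
  -- the map
  have hinf : ∀ S : Set (Sph d), Continuous fun x : Sph d => Metric.infDist x S :=
    fun S => Metric.continuous_infDist_pt S
  have hinf' : ∀ S : Set (Sph d), Continuous fun x : Sph d => Metric.infDist (-x) S :=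
    fun S => (hinf S).comp continuous_neg
  have hBinf : ∀ b (x : Sph d), Metric.infDist (-x) (B b) = Metric.infDist x (B (!b)) := by
    intro b x
    have h3 : Neg.neg '' (B (!b)) = B b := by
      ext y
      constructor
      · rintro ⟨y', hy', rfl⟩
        have := hBneg _ _ hy'
        rwa [Bool.not_not] at this
      · intro hy
        exact ⟨-y, hBneg _ _ hy, neg_neg y⟩
    have h4 : Isometry (Neg.neg : Sph d → Sph d) := by
      refine Isometry.of_dist_eq fun u v => ?_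
      rw [hdist, hdist, coe_neg_sphere, coe_neg_sphere, neg_sub_neg, norm_sub_rev]
    rw [← h3, Metric.infDist_image h4]
  obtain ⟨x, hx⟩ := bu_sphere (d := d) (fun x i =>
    if h : i.1 < k - 1 then Metric.infDist x (F ⟨i.1, by omega⟩) -
      Metric.infDist (-x) (F ⟨i.1, by omega⟩)
    else if i.1 = k - 1 then Metric.infDist x (B false) - Metric.infDist x (B true) else 0) (by
      refine continuous_pi fun i => ?_
      by_cases h : i.1 < k - 1
      · simp only [dif_pos h]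
        exact (hinf _).sub (hinf' _)
      · simp only [dif_neg h]
        by_cases h' : i.1 = k - 1
        · simp only [if_pos h']
          exact (hinf _).sub (hinf _)
        · simp only [if_neg h']
          exact continuous_const) (by
      intro x
      funext i
      simp only [Pi.neg_apply]
      by_cases h : i.1 < k - 1
      · simp only [dif_pos h, neg_neg]
        ring
      · simp only [dif_neg h]
        by_cases h' : i.1 = k - 1
        · simp only [if_pos h', hBinf, Bool.not_false, Bool.not_true]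
          ring
        · simp only [if_neg h', neg_zero])
  -- the common zero is not in the bad region
  have hxB : ∀ b, x ∉ B b := by
    have h3 : Metric.infDist x (B false) = Metric.infDist x (B true) := by
      have := congrFun hx ⟨k - 1, by omega⟩
      simp only [lt_irrefl, dite_false, if_true, Pi.zero_apply] at this
      linarith
    intro b hb
    have h4 : ∀ b, x ∈ B b → x ∈ B (!b) := by
      intro b hb
      have h5 : (B (!b)).Nonempty := ⟨-x, hBneg _ _ hb⟩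
      have h6 : Metric.infDist x (B b) = 0 := Metric.infDist_zero_of_mem hb
      have h7 : Metric.infDist x (B (!b)) = 0 := by
        cases b
        · rw [Bool.not_false, ← h3]
          exact h6
        · rw [Bool.not_true, h3]
          exact h6
      exact ((hBc _).mem_iff_infDist_zero h5).2 h7
    cases b
    · exact hBdisj x (h4 false hb) hb
    · exact hBdisj x hb (h4 true hb)
  have hgood : ∀ z ∈ H, (‖(x : V d) - z‖ ≤ ρ ∨ ‖(x : V d) - ((-z : Sph d) : V d)‖ ≤ ρ) →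
      ¬ bad z := by
    rintro z hz h hb
    rcases h with h | h
    · exact hxB (s z) ⟨z, ⟨⟨z, hz, hb, Or.inl rfl⟩, rfl⟩, h⟩
    · exact hxB (s (-z)) ⟨-z, ⟨⟨z, hz, hb, Or.inr rfl⟩, rfl⟩, h⟩
  obtain ⟨z, hz, hxz⟩ := hcov x
  obtain ⟨z', hz', hxz'⟩ := hcov (-x)
  have hgz := hgood z hz (Or.inl hxz)
  have hgz' := hgood z' hz' (Or.inr (by rw [← hneg]; exact hxz'))
  obtain ⟨i, hi⟩ := h1 z hz hgz
  obtain ⟨j, hj⟩ := h1 z' hz' hgz'
  have hsum : ∀ u v : Sph d, ‖(x : V d) - u‖ ≤ ρ → ‖((-x : Sph d) : V d) - v‖ ≤ ρ →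
      ‖(u : V d) + v‖ ≤ 2 * ρ := by
    intro u v hu hv
    have h3 : (u : V d) + v = -(((x : V d) - u) + (((-x : Sph d) : V d) - v)) := by
      rw [coe_neg_sphere]
      abel
    rw [h3, norm_neg]
    refine (norm_add_le _ _).trans ?_
    linarith
  have hzero : ∀ i : Fin k, i.1 < k - 1 →
      Metric.infDist x (F i) = Metric.infDist (-x) (F i) := by
    intro i hi
    have := congrFun hx ⟨i.1, by omega⟩
    simp only [dif_pos hi, Pi.zero_apply] at this
    linarith
  have hboth : ∀ i : Fin k, x ∈ F i → -x ∈ F i → False := by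
    rintro i ⟨u, ⟨hu, hub, hui⟩, hxu⟩ ⟨v, ⟨hv, hvb, hvi⟩, hxv⟩
    exact h2 u hu v hv hub hvb (hsum u v hxu hxv) i ⟨hui, hvi⟩
  have hi' : ¬ i.1 < k - 1 := by
    intro h
    have h3 : x ∈ F i := ⟨z, ⟨hz, hgz, hi⟩, hxz⟩
    refine hboth i h3 (((hFc i).mem_iff_infDist_zero ⟨x, h3⟩).2 ?_)
    rw [← hzero i h]
    exact Metric.infDist_zero_of_mem h3
  have hj' : ¬ j.1 < k - 1 := by
    intro h
    have h3 : -x ∈ F j := ⟨z', ⟨hz', hgz', hj⟩, hxz'⟩
    refine hboth j (((hFc j).mem_iff_infDist_zero ⟨-x, h3⟩).2 ?_) h3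
    rw [hzero j h]
    exact Metric.infDist_zero_of_mem h3
  have hij : i = j := by
    apply Fin.ext
    have := i.2
    have := j.2
    omega
  subst hij
  exact h2 z hz z' hz' hgz hgz' (hsum z z' hxz hxz') i ⟨hi, hj⟩

end Pool.Agent.Helper6.HD
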