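import Pool.Agent.Helper6.HD.Defs

/-!
# PIECE HD-T3: extraction of a separated sequence from a chain
-/

open MeasureTheory Set
open scoped ENNReal

namespace Pool.Agent.Helper6.HD

open Pool.Agent.Helper97.BG

/-- `nrm` is the distance of the projective space. -/
theorem nrm_triangle {d : ℕ} (x y z : Sph d) : nrm x z ≤ nrm x y + nrm y z := by
  unfold nrm
  have h1 : ‖(z : V d) - x‖ ≤ ‖(z : V d) - y‖ + ‖(y : V d) - x‖ := by
    have := norm_add_le ((z : V d) - y) ((y : V d) - x)
    rwa [sub_add_sub_cancel] at this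
  have h2 : ‖(z : V d) + x‖ ≤ ‖(z : V d) - y‖ + ‖(y : V d) + x‖ := by
    have := norm_add_le ((z : V d) - y) ((y : V d) + x)
    have e : (z : V d) - y + (y + x) = z + x := by abel
    rwa [e] at this
  have h3 : ‖(z : V d) + x‖ ≤ ‖(z : V d) + y‖ + ‖(y : V d) - x‖ := by
    have := norm_sub_le ((z : V d) + y) ((y : V d) - x)
    have e : (z : V d) + y - (y - x) = z + x := by abel
    rwa [e] at this
  have h4 : ‖(z : V d) - x‖ ≤ ‖(z : V d) + y‖ + ‖(y : V d) + x‖ := by
    have := norm_sub_le ((z : V d) + y) ((y : V d) + x)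
    have e : (z : V d) + y - (y + x) = z - x := by abel
    rwa [e] at this
  rcases min_choice ‖(y : V d) - x‖ ‖(y : V d) + x‖ with e1 | e1 <;>
  rcases min_choice ‖(z : V d) - y‖ ‖(z : V d) + y‖ with e2 | e2 <;> rw [e1, e2]
  · exact (min_le_left _ _).trans (by linarith)
  · exact (min_le_right _ _).trans (by linarith)
  · exact (min_le_right _ _).trans (by linarith)
  · exact (min_le_left _ _).trans (by linarith)

theorem nrm_le_norm {d : ℕ} (x y : Sph d) : nrm x y ≤ ‖(x : V d) - y‖ := by
  unfold nrm
  rw [norm_sub_rev (x : V d) y]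
  exact min_le_left _ _

private theorem T3_comm {d : ℕ} (x y : Sph d) : nrm x y = nrm y x := by
  unfold nrm
  rw [norm_sub_rev (y : V d) x, add_comm (y : V d) x]

private theorem T3_self {d : ℕ} (x : Sph d) : nrm x x ≤ 0 := by
  have := nrm_le_norm x x
  rwa [sub_self, norm_zero] at this

/-- Take the first `j` with `‖w j - w 0‖ ≥ 1` (it exists: `‖w m - w 0‖ = 2`). Then
`‖w j - w 0‖ ≤ 7/5` and `‖w j + w 0‖² = 4 - ‖w j - w 0‖² ≥ 1`. -/
theorem exists_far {d m : ℕ} (w : ℕ → Sph d)
    (hstep : ∀ j < m, ‖(w j : V d) - w (j + 1)‖ ≤ 2 / 5) (hend : w m = -w 0) :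
    ∃ j ≤ m, 1 ≤ nrm (w 0) (w j) := by
  classical
  have hn : ∀ j, ‖(w j : V d)‖ = 1 := fun j => norm_eq_of_mem_sphere (w j)
  have hm : 1 ≤ ‖(w m : V d) - w 0‖ := by
    rw [hend]
    have e : ((-w 0 : Sph d) : V d) - w 0 = (-2 : ℝ) • (w 0 : V d) := by
      have : ((-w 0 : Sph d) : V d) = -(w 0 : V d) := rfl
      rw [this]
      module
    rw [e, norm_smul, hn]
    norm_num
  have hex : ∃ j, 1 ≤ ‖(w j : V d) - w 0‖ := ⟨m, hm⟩
  set j := Nat.find hex with hj
  have hj1 : 1 ≤ ‖(w j : V d) - w 0‖ := Nat.find_spec hex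
  have hjm : j ≤ m := Nat.find_min' hex hm
  have hj0 : j ≠ 0 := by
    intro h
    rw [h, sub_self, norm_zero] at hj1
    linarith
  obtain ⟨i, hi⟩ := Nat.exists_eq_succ_of_ne_zero hj0
  have hi1 : ‖(w i : V d) - w 0‖ < 1 := by
    have := Nat.find_min hex (m := i) (by omega)
    exact not_le.1 this
  have hi2 := hstep i (by omega)
  have hij : ‖(w j : V d) - w 0‖ ≤ 7 / 5 := by
    rw [hi]
    have h1 := norm_sub_le ((w i : V d) - w 0) ((w i : V d) - w (i + 1))
    have e : (w i : V d) - w 0 - (w i - w (i + 1)) = w (i + 1) - w 0 := by abel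
    rw [e] at h1
    have h2 : i.succ = i + 1 := rfl
    rw [h2]
    linarith
  refine ⟨j, hjm, le_min hj1 ?_⟩
  have hpar := parallelogram_law_with_norm ℝ (w j : V d) (w 0)
  rw [hn, hn] at hpar
  have h5 : 0 ≤ ‖(w j : V d) - w 0‖ := norm_nonneg _
  have h6 : 0 ≤ ‖(w j : V d) + w 0‖ := norm_nonneg _
  by_contra hc
  have h7 := not_le.1 hc
  nlinarith

/-- Last exits. Let `e` be the index of `exists_far`. Put `v 0 = 0` and, given `v l` with
`D ≤ nrm (w (v l)) (w e)`, let `v (l+1) = 1 +` the last `j` in `[v l, e]` with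
`nrm (w (v l)) (w j) < D`. Then `nrm (w (v l)) (w (v (l+1))) ≤ D + s`, all later `j ≤ e` have
`D ≤ nrm (w (v l)) (w j)`. The process runs for `M` steps: `1 ≤ nrm (w 0) (w e) ≤ l (D + s) +
nrm (w (v l)) (w e)`, so `nrm (w (v l)) (w e) ≥ 1 - l (D + s) ≥ D` for `l < M + 1`.. as
`(M + 1)(D + s) ≤ 1`. Only the points are needed: `v : Fin (M+1) → Sph d`. -/
theorem hops {d m M : ℕ} (w : ℕ → Sph d) {s D : ℝ} (hs : 0 ≤ s) (hs2 : s ≤ 2 / 5) (hD : 0 < D)
    (hstep : ∀ j < m, ‖(w j : V d) - w (j + 1)‖ ≤ s) (hend : w m = -w 0)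
    (hM : (M + 1) * (D + s) ≤ 1) :
    ∃ v : Fin (M + 1) → ℕ, (∀ l, v l ≤ m) ∧
      (∀ l l', l ≠ l' → D ≤ nrm (w (v l)) (w (v l'))) ∧
      ∀ l : Fin M, nrm (w (v l.castSucc)) (w (v l.succ)) ≤ D + s := by
  classical
  obtain ⟨e, hem, hfar⟩ := exists_far w (fun j hj => (hstep j hj).trans hs2) hend
  have key : ∀ L ≤ M, ∃ v : ℕ → ℕ, v 0 = 0 ∧ (∀ l ≤ L, v l ≤ e) ∧
      (∀ l < L, nrm (w (v l)) (w (v (l + 1))) ≤ D + s) ∧
      (∀ l < L, ∀ j, v (l + 1) ≤ j → j ≤ e → D ≤ nrm (w (v l)) (w j)) ∧
      (∀ l < L, v l ≤ v (l + 1)) := by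
    intro L
    induction L with
    | zero =>
      intro _
      refine ⟨fun _ => 0, rfl, fun l hl => Nat.zero_le _, ?_, ?_, ?_⟩ <;> intro l hl <;> omega
    | succ L ih =>
      intro hL
      obtain ⟨v, h0, h1, h2, h3, h4⟩ := ih (by omega)
      have hdist : ∀ l ≤ L, nrm (w 0) (w e) ≤ l * (D + s) + nrm (w (v l)) (w e) := by
        intro l
        induction l with
        | zero => intro _; rw [h0]; simp
        | succ l ihl =>
          intro hl
          have h5 := ihl (by omega)
          have h6 := h2 l (by omega)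
          have h7 := nrm_triangle (w (v l)) (w (v (l + 1))) (w e)
          push_cast
          linarith
      have hLe := hdist L le_rfl
      have hDs : 0 < D + s := by linarith
      have hLM : ((L : ℝ) + 1) * (D + s) ≤ 1 := by
        refine le_trans ?_ hM
        have : (L : ℝ) + 1 ≤ (M : ℝ) + 1 := by
          have : L ≤ M := by omega
          have : (L : ℝ) ≤ M := by exact_mod_cast this
          linarith
        exact mul_le_mul_of_nonneg_right this hDs.le
      have hDe : D ≤ nrm (w (v L)) (w e) := by nlinarith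
      set P : ℕ → Prop := fun j => v L ≤ j ∧ nrm (w (v L)) (w j) < D with hP
      have hPv : P (v L) := ⟨le_rfl, (T3_self _).trans_lt hD⟩
      set j := Nat.findGreatest P e with hj
      have hPj : P j := Nat.findGreatest_spec (h1 L le_rfl) hPv
      have hje : j ≤ e := Nat.findGreatest_le e
      have hjne : j ≠ e := by
        intro h
        have := hPj.2
        rw [h] at this
        linarith
      have hje' : j < e := lt_of_le_of_ne hje hjne
      have hgr : ∀ i, j + 1 ≤ i → i ≤ e → D ≤ nrm (w (v L)) (w i) := by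
        intro i hi hie
        by_contra hc
        have h5 : P i := ⟨hPj.1.trans (by omega), not_le.1 hc⟩
        have h6 := Nat.le_findGreatest hie h5
        omega
      have hup : ∀ l ≤ L, Function.update v (L + 1) (j + 1) l = v l := fun l hl =>
        Function.update_of_ne (by omega) _ _
      have hup' : Function.update v (L + 1) (j + 1) (L + 1) = j + 1 := Function.update_self _ _ _
      refine ⟨Function.update v (L + 1) (j + 1), ?_, ?_, ?_, ?_, ?_⟩
      · rw [hup 0 (Nat.zero_le _), h0]
      · intro l hl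
        rcases Nat.lt_or_ge l (L + 1) with hl' | hl'
        · rw [hup l (by omega)]
          exact h1 l (by omega)
        · have : l = L + 1 := by omega
          rw [this, hup']
          omega
      · intro l hl
        rcases Nat.lt_or_ge l L with hl' | hl'
        · rw [hup l (by omega), hup (l + 1) (by omega)]
          exact h2 l hl'
        · have : l = L := by omega
          rw [this, hup L le_rfl, hup']
          have h5 := nrm_triangle (w (v L)) (w j) (w (j + 1))
          have h6 := nrm_le_norm (w j) (w (j + 1))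
          have h7 := hstep j (by omega)
          have h8 := hPj.2
          linarith
      · intro l hl i hi hie
        rcases Nat.lt_or_ge l L with hl' | hl'
        · rw [hup l (by omega)]
          rw [hup (l + 1) (by omega)] at hi
          exact h3 l hl' i hi hie
        · have : l = L := by omega
          rw [this, hup'] at hi
          rw [this, hup L le_rfl]
          exact hgr i hi hie
      · intro l hl
        rcases Nat.lt_or_ge l L with hl' | hl'
        · rw [hup l (by omega), hup (l + 1) (by omega)]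
          exact h4 l hl'
        · have : l = L := by omega
          rw [this, hup L le_rfl, hup']
          exact hPj.1.trans (by omega)
  obtain ⟨v, h0, h1, h2, h3, h4⟩ := key M le_rfl
  have hmono : ∀ a b, a ≤ b → b ≤ M → v a ≤ v b := by
    intro a b hab
    induction hab with
    | refl => intro _; exact le_rfl
    | step hab ih =>
      intro hb
      exact (ih (by omega)).trans (h4 _ (by omega))
  have hsep : ∀ a b, a < b → b ≤ M → D ≤ nrm (w (v a)) (w (v b)) := by
    intro a b hab hb
    exact h3 a (by omega) (v b) (hmono (a + 1) b hab hb) (h1 b hb)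
  refine ⟨fun l => v l, fun l => (h1 l (by omega)).trans hem, ?_, ?_⟩
  · intro l l' hne
    rcases Nat.lt_or_ge (l : ℕ) l' with h | h
    · exact hsep l l' h (by omega)
    · have h' : (l' : ℕ) < l := by
        rcases Nat.lt_or_ge (l' : ℕ) l with h5 | h5
        · exact h5
        · exact absurd (Fin.ext (by omega)) hne
      rw [T3_comm]
      exact hsep l' l h' (by omega)
  · intro l
    have := h2 l l.2
    simpa using this

end Pool.Agent.Helper6.HD
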